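import Pool.Agent.Lib_MP_01c500.Chain

/-!
# MP_01c500_co: choice of the parameters
-/

set_option autoImplicit false

namespace Pool.Agent.LibMP01c500

open Finset

theorem pow_bound (q x : ℕ) : (2 * q) ^ x ≤ 2 ^ (2 * q * x) := by
  rw [pow_mul]
  exact Nat.pow_le_pow_left (Nat.lt_two_pow_self).le x

/-- arithmetic of the size of the complete graph -/
theorem size_bound (q n m k S L D a : ℕ) (hk : 1 ≤ k) (hkn : k ≤ n)
    (hn : n ≤ 2 * m) (hS : k * m ≤ S * S) (hS1 : 1 ≤ S) (hL : L ≤ a + S)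
    (hD : D ≤ 2 * m / S + 1) :
    2 * (2 * q) ^ (2 * D) * (n * n) * (2 * q) ^ (q * L) *
      (2 * (2 * q) ^ (2 * D)) ^ (q * k) ≤ 2 ^ ((7 + 18 * q + 18 * q * q) * (a + S)) := by
  have hmS : m ≤ S * S := le_trans (Nat.le_mul_of_pos_left m (by omega)) hS
  have hkD : k * D ≤ 4 * S := by
    have h1 : k * (2 * m / S) ≤ 2 * S := by
      have h2 : k * (2 * m / S) ≤ k * (2 * m) / S := Nat.mul_div_le_mul_div_assoc _ _ _
      have h3 : k * (2 * m) / S ≤ 2 * (S * S) / S := Nat.div_le_div_right (by nlinarith)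
      have h4 : 2 * (S * S) / S = 2 * S := by
        rw [← mul_assoc]; exact Nat.mul_div_cancel _ (by omega)
      omega
    have h5 : k ≤ 2 * S := by
      by_contra hc
      push Not at hc
      have h6 : k * k ≤ 2 * (S * S) := by
        calc k * k ≤ k * (2 * m) := Nat.mul_le_mul_left _ (by omega)
          _ = 2 * (k * m) := by ring
          _ ≤ _ := Nat.mul_le_mul_left _ hS
      nlinarith
    calc k * D ≤ k * (2 * m / S + 1) := Nat.mul_le_mul_left _ hD
      _ = k * (2 * m / S) + k := by ring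
      _ ≤ 4 * S := by omega
  have hk2 : k ≤ 2 * S := by
    by_contra hc
    push Not at hc
    have h6 : k * k ≤ 2 * (S * S) := by
      calc k * k ≤ k * (2 * m) := Nat.mul_le_mul_left _ (by omega)
        _ = 2 * (k * m) := by ring
        _ ≤ _ := Nat.mul_le_mul_left _ hS
    nlinarith
  have hD2 : D ≤ 4 * S := le_trans (Nat.le_mul_of_pos_left D (by omega)) hkD
  have hn2 : n * n ≤ 2 ^ (2 + 4 * S) := by
    have h1 : S ≤ 2 ^ S := Nat.lt_two_pow_self.le
    have h2 : n ≤ 2 * (S * S) := by omega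
    have h3 : S * S ≤ 2 ^ S * 2 ^ S := Nat.mul_le_mul h1 h1
    have h4 : n ≤ 2 ^ (1 + 2 * S) := by
      calc n ≤ 2 * (S * S) := h2
        _ ≤ 2 * (2 ^ S * 2 ^ S) := Nat.mul_le_mul_left _ h3
        _ = 2 ^ (1 + 2 * S) := by rw [pow_add, two_mul S, pow_add]; ring
    calc n * n ≤ 2 ^ (1 + 2 * S) * 2 ^ (1 + 2 * S) := Nat.mul_le_mul h4 h4
      _ = 2 ^ (2 + 4 * S) := by rw [← pow_add]; congr 1; ring
  have hA : 2 * (2 * q) ^ (2 * D) ≤ 2 ^ (1 + 4 * q * D) := by
    calc 2 * (2 * q) ^ (2 * D) ≤ 2 * 2 ^ (2 * q * (2 * D)) := Nat.mul_le_mul_left _ (pow_bound q _)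
      _ = 2 ^ (1 + 4 * q * D) := by rw [pow_add]; congr 2; ring
  have hB : (2 * q) ^ (q * L) ≤ 2 ^ (2 * q * q * L) := by
    calc _ ≤ 2 ^ (2 * q * (q * L)) := pow_bound q _
      _ = _ := by congr 1; ring
  have hC : (2 * (2 * q) ^ (2 * D)) ^ (q * k) ≤ 2 ^ ((1 + 4 * q * D) * (q * k)) := by
    rw [pow_mul 2]
    exact Nat.pow_le_pow_left hA _
  calc _ ≤ 2 ^ (1 + 4 * q * D) * 2 ^ (2 + 4 * S) * 2 ^ (2 * q * q * L) *
        2 ^ ((1 + 4 * q * D) * (q * k)) :=
        Nat.mul_le_mul (Nat.mul_le_mul (Nat.mul_le_mul hA hn2) hB) hC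
    _ = 2 ^ ((1 + 4 * q * D) + (2 + 4 * S) + 2 * q * q * L + (1 + 4 * q * D) * (q * k)) := by
        rw [← pow_add, ← pow_add, ← pow_add]
    _ ≤ 2 ^ ((7 + 18 * q + 18 * q * q) * (a + S)) := by
        apply Nat.pow_le_pow_right (by norm_num)
        have e1 : (1 + 4 * q * D) * (q * k) = q * k + 4 * q * q * (k * D) := by ring
        rw [e1]
        have f1 : 4 * q * D ≤ 4 * q * (4 * S) := Nat.mul_le_mul_left _ hD2
        have f2 : 2 * q * q * L ≤ 2 * q * q * (a + S) := Nat.mul_le_mul_left _ hL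
        have f3 : q * k ≤ q * (2 * S) := Nat.mul_le_mul_left _ hk2
        have f4 : 4 * q * q * (k * D) ≤ 4 * q * q * (4 * S) := Nat.mul_le_mul_left _ hkD
        have f5 : (1 : ℕ) ≤ S := hS1
        calc 1 + 4 * q * D + (2 + 4 * S) + 2 * q * q * L + (q * k + 4 * q * q * (k * D))
            ≤ 1 + 4 * q * (4 * S) + (2 + 4 * S) + 2 * q * q * (a + S) +
              (q * (2 * S) + 4 * q * q * (4 * S)) := by omega
          _ ≤ 3 * S + 16 * q * S + 4 * S + 2 * q * q * (a + S) + 2 * q * S + 16 * q * q * S := by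
              ring_nf
              omega
          _ ≤ (7 + 18 * q + 18 * q * q) * (a + S) := by
              have g1 : 0 ≤ (7 + 18 * q + 16 * q * q) * a := Nat.zero_le _
              nlinarith

/-- graphs becoming `k`-colourable after the deletion of a set `A` of vertices: combinatorial form -/
theorem exists_colour {W : Type*} [Fintype W] [DecidableEq W] (H : SimpleGraph W)
    [DecidableRel H.Adj] (hiso : ∀ v, ∃ w, H.Adj v w) (hW : 1 ≤ Fintype.card W)
    (q : ℕ) (hq : 1 ≤ q) (A : Finset W) (k : ℕ) (hk : 1 ≤ k) (hkn : k ≤ Fintype.card W)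
    (f : W → ℕ) (hf : ∀ u, u ∉ A → f u < k)
    (hprop : ∀ u w, u ∉ A → w ∉ A → H.Adj u w → f u ≠ f w)
    (S : ℕ) (hS : k * H.edgeFinset.card ≤ S * S) (hS1 : 1 ≤ S)
    (col : Sym2 (Fin (2 ^ ((7 + 18 * q + 18 * q * q) * (A.card + S)))) → Fin q) :
    ∃ i : Fin q, ∃ F : W → Fin (2 ^ ((7 + 18 * q + 18 * q * q) * (A.card + S))),
      Function.Injective F ∧ ∀ u w, H.Adj u w → col s(F u, F w) = i := by
  classical
  set m := H.edgeFinset.card with hm
  have hsum : ∑ v, H.degree v = 2 * m := H.sum_degrees_eq_twice_card_edges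
  have hn : Fintype.card W ≤ 2 * m := by
    rw [← hsum, Fintype.card_eq_sum_ones]
    refine Finset.sum_le_sum fun v _ => ?_
    obtain ⟨w, hw⟩ := hiso v
    exact (H.degree_pos_iff_exists_adj v).2 ⟨w, hw⟩
  set D := 2 * m / S + 1 with hD
  set B := univ.filter (fun v => D < H.degree v) with hB
  have hBS : B.card ≤ S := by
    by_contra hc
    push Not at hc
    have h1 : B.card * (D + 1) ≤ 2 * m := by
      rw [← hsum]
      calc B.card * (D + 1) = ∑ v ∈ B, (D + 1) := by rw [Finset.sum_const, smul_eq_mul]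
        _ ≤ ∑ v ∈ B, H.degree v := Finset.sum_le_sum fun v hv => by
            rw [hB, mem_filter] at hv; exact hv.2
        _ ≤ ∑ v, H.degree v := Finset.sum_le_sum_of_subset (Finset.subset_univ _)
    have h2 : 2 * m < S * D := Nat.lt_mul_div_succ _ (by omega)
    have h3 : S * D ≤ B.card * (D + 1) := Nat.mul_le_mul hc.le (by omega)
    omega
  have hD1 : 1 ≤ D := Nat.le_add_left _ _
  refine main H hW q D (A ∪ B).card k hq hD1 (A ∪ B) le_rfl f ?_ ?_ ?_ _ ?_ col
  · intro u hu
    exact hf u (fun h => hu (Finset.mem_union_left _ h))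
  · intro u w hu hw huw
    exact hprop u w (fun h => hu (Finset.mem_union_left _ h))
      (fun h => hw (Finset.mem_union_left _ h)) huw
  · intro u hu
    have h1 : ¬ D < H.degree u := by
      intro h
      exact hu (Finset.mem_union_right _ (by rw [hB, mem_filter]; exact ⟨Finset.mem_univ _, h⟩))
    calc _ ≤ H.degree u := by
          rw [← SimpleGraph.card_neighborFinset_eq_degree]
          apply Finset.card_le_card
          intro w hw
          rw [mem_filter] at hw
          rw [SimpleGraph.mem_neighborFinset]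
          exact hw.2.2.1
      _ ≤ D := not_lt.1 h1
  · refine size_bound q (Fintype.card W) m k S (A ∪ B).card D A.card hk hkn hn hS hS1 ?_ le_rfl
    exact (Finset.card_union_le _ _).trans (by omega)

end Pool.Agent.LibMP01c500
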