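import Pool.Agent.Lib_MP_01c500.Drc

/-!
# MP_01c500_co: the adaptive chain of levels and the embedding
-/

set_option autoImplicit false

namespace Pool.Agent.LibMP01c500

open Finset

variable {Ω : Type*} [DecidableEq Ω] {q : ℕ}

/-- state of one colour: `X` = single vertices, `P r ⊇ Q r` = dependent random choice levels -/
def St (c : Ω → Ω → Fin q) (d K : ℕ) (i : Fin q) (a b : ℕ) (V : Finset Ω) : Prop :=
  ∃ (X : Finset Ω) (P Q : ℕ → Finset Ω),
    X.card = a ∧ (∀ x ∈ X, ∀ x' ∈ X, x ≠ x' → c x x' = i) ∧
    (∀ y ∈ V, ∀ x ∈ X, Adj c i x y) ∧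
    (∀ r < b, (∀ y ∈ P r, ∀ x ∈ X, Adj c i x y) ∧ Q r ⊆ P r ∧ V ⊆ Q r ∧
      ∀ z : Fin d → Ω, (∀ l, z l ∈ Q r) → K ≤ (CNb c i (P r) z).card) ∧
    (∀ r s, r < s → s < b → P s ⊆ Q r)

theorem St.mono {c : Ω → Ω → Fin q} {d K : ℕ} {i : Fin q} {a b : ℕ} {V V' : Finset Ω}
    (h : St c d K i a b V) (hV : V' ⊆ V) : St c d K i a b V' := by
  obtain ⟨X, P, Q, h1, h2, h3, h4, h5⟩ := h
  exact ⟨X, P, Q, h1, h2, fun y hy => h3 y (hV hy), fun r hr =>
    ⟨(h4 r hr).1, (h4 r hr).2.1, hV.trans (h4 r hr).2.2.1, (h4 r hr).2.2.2⟩, h5⟩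

theorem St.zero (c : Ω → Ω → Fin q) (d K : ℕ) (i : Fin q) (V : Finset Ω) :
    St c d K i 0 0 V := by
  refine ⟨∅, fun _ => ∅, fun _ => ∅, ?_, ?_, ?_, ?_, ?_⟩
  · simp
  · simp
  · simp
  · intro r hr; omega
  · intro r s _ hs; omega

theorem St.single {c : Ω → Ω → Fin q} (hc : ∀ x y, c x y = c y x) {d K : ℕ} {i : Fin q} {a : ℕ}
    {V : Finset Ω} (h : St c d K i a 0 V) {x : Ω} (hx : x ∈ V) :
    St c d K i (a + 1) 0 (Nb c i V x) := by
  obtain ⟨X, P, Q, h1, h2, h3, h4, h5⟩ := h
  have hxX : x ∉ X := fun hh => (h3 x hx x hh).1 rfl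
  refine ⟨insert x X, P, Q, ?_, ?_, ?_, ?_, ?_⟩
  · rw [card_insert_of_notMem hxX, h1]
  · intro y hy y' hy' hne
    rw [mem_insert] at hy hy'
    rcases hy with rfl | hy
    · rcases hy' with rfl | hy'
      · exact absurd rfl hne
      · rw [hc]; exact (h3 y hx y' hy').2
    · rcases hy' with rfl | hy'
      · exact (h3 y' hx y hy).2
      · exact h2 y hy y' hy' hne
  · intro y hy x' hx'
    unfold Nb at hy
    rw [mem_filter] at hy
    rw [mem_insert] at hx'
    rcases hx' with rfl | hx'
    · exact hy.2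
    · exact h3 y hy.1 x' hx'
  · intro r hr; omega
  · intro r s _ hs; omega

theorem St.level {c : Ω → Ω → Fin q} {d K : ℕ} {i : Fin q} {a b : ℕ}
    {V V' : Finset Ω} (h : St c d K i a b V) (hV' : V' ⊆ V)
    (hz : ∀ z : Fin d → Ω, (∀ l, z l ∈ V') → K ≤ (CNb c i V z).card) :
    St c d K i a (b + 1) V' := by
  obtain ⟨X, P, Q, h1, h2, h3, h4, h5⟩ := h
  refine ⟨X, fun r => if r = b then V else P r, fun r => if r = b then V' else Q r, h1, h2, ?_, ?_, ?_⟩
  · intro y hy; exact h3 y (hV' hy)
  · intro r hr
    by_cases hrb : r = b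
    · simp only [hrb, if_true]
      exact ⟨h3, hV', Subset.refl _, hz⟩
    · simp only [hrb, if_false]
      have := h4 r (by omega)
      exact ⟨this.1, this.2.1, hV'.trans this.2.2.1, this.2.2.2⟩
  · intro r s hrs hs
    have hr : r ≠ b := by omega
    simp only [hr, if_false]
    by_cases hsb : s = b
    · simp only [hsb, if_true]
      exact (h4 r (by omega)).2.2.1
    · simp only [hsb, if_false]
      exact h5 r s hrs (by omega)

/-- a colour of high density -/
theorem dense_colour (c : Ω → Ω → Fin q) (hq : 1 ≤ q) (V : Finset Ω) (hV : 2 ≤ V.card) :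
    ∃ i : Fin q, V.card * V.card ≤ 2 * q * ∑ y ∈ V, (Nb c i V y).card := by
  classical
  by_contra hcon
  push Not at hcon
  have : Nonempty (Fin q) := ⟨⟨0, by omega⟩⟩
  have h1 : ∑ i : Fin q, 2 * q * ∑ y ∈ V, (Nb c i V y).card < ∑ _i : Fin q, V.card * V.card :=
    Finset.sum_lt_sum_of_nonempty Finset.univ_nonempty (fun i _ => hcon i)
  rw [← Finset.mul_sum, Finset.sum_comm, Finset.sum_const, Finset.card_univ, Fintype.card_fin,
    smul_eq_mul] at h1
  have h2 : ∀ y ∈ V, ∑ i : Fin q, (Nb c i V y).card = V.card - 1 := by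
    intro y hy
    rw [← Finset.card_erase_of_mem hy]
    rw [Finset.card_eq_sum_card_fiberwise (s := V.erase y) (t := Finset.univ) (f := c y)
      (fun _ _ => Finset.mem_coe.2 (Finset.mem_univ _))]
    refine Finset.sum_congr rfl fun i _ => ?_
    congr 1
    ext w
    simp only [Nb, Adj, mem_filter, mem_erase]
    constructor
    · rintro ⟨a1, a2, a3⟩; exact ⟨⟨a2.symm, a1⟩, a3⟩
    · rintro ⟨⟨a1, a2⟩, a3⟩; exact ⟨a2, a1.symm, a3⟩
  rw [Finset.sum_congr rfl h2, Finset.sum_const, smul_eq_mul] at h1
  obtain ⟨m, hm⟩ : ∃ m, V.card = m + 1 := ⟨V.card - 1, by omega⟩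
  rw [hm] at h1
  have h3 : q * ((m + 1) * (m + 1)) ≤ 2 * q * ((m + 1) * m) := by
    have hm1 : 1 ≤ m := by omega
    have : (m + 1) * (m + 1) ≤ 2 * ((m + 1) * m) := by nlinarith
    calc q * ((m + 1) * (m + 1)) ≤ q * (2 * ((m + 1) * m)) := Nat.mul_le_mul_left _ this
      _ = _ := by ring
  simp only [Nat.add_sub_cancel] at h1
  omega

theorem sum_update {L : ℕ} (a : Fin q → ℕ) (i : Fin q) (h : a i < L) :
    ∑ j, (L - Function.update a i (a i + 1) j) + 1 = ∑ j, (L - a j) := by
  classical
  rw [← Finset.add_sum_erase _ _ (Finset.mem_univ i), ← Finset.add_sum_erase _ (fun j => L - a j)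
    (Finset.mem_univ i)]
  have : ∑ x ∈ univ.erase i, (L - Function.update a i (a i + 1) x) =
      ∑ x ∈ univ.erase i, (L - a x) := by
    refine Finset.sum_congr rfl fun x hx => ?_
    rw [Function.update_of_ne (Finset.ne_of_mem_erase hx)]
  rw [this, Function.update_self]
  omega

theorem chain (c : Ω → Ω → Fin q) (hc : ∀ x y, c x y = c y x) (hq : 1 ≤ q) (d K L k M₀ : ℕ)
    (hd : 1 ≤ d) (hM₀ : 2 * (2 * q) ^ (2 * d) * (K * K) ≤ M₀) (hM₀' : 2 ≤ M₀) :
    ∀ (n : ℕ) (a b : Fin q → ℕ) (V : Finset Ω), (∀ i, a i ≤ L) → (∀ i, b i ≤ k) →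
      (∀ i, a i < L → b i = 0) → (∀ i, St c d K i (a i) (b i) V) →
      ∑ i, (L - a i) + ∑ i, (k - b i) = n →
      M₀ * (2 * q) ^ (∑ i, (L - a i)) * (2 * (2 * q) ^ (2 * d)) ^ (∑ i, (k - b i)) ≤ V.card →
      ∃ i, ∃ V' : Finset Ω, V'.Nonempty ∧ St c d K i L k V' := by
  intro n
  induction n with
  | zero =>
    intro a b V ha hb hab hSt hn hV
    have : Nonempty (Fin q) := ⟨⟨0, by omega⟩⟩
    obtain ⟨i⟩ := ‹Nonempty (Fin q)›
    have h1 : ∑ i, (L - a i) = 0 := by omega
    have h2 : ∑ i, (k - b i) = 0 := by omega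
    rw [h1, h2] at hV
    rw [Finset.sum_eq_zero_iff] at h1 h2
    have h3 := h1 i (Finset.mem_univ i)
    have h4 := h2 i (Finset.mem_univ i)
    have h5 := ha i
    have h6 := hb i
    have h7 : a i = L := by omega
    have h8 : b i = k := by omega
    refine ⟨i, V, ?_, ?_⟩
    · rw [← Finset.card_pos]
      simp at hV
      omega
    · have := hSt i
      rwa [h7, h8] at this
  | succ n ih =>
    intro a b V ha hb hab hSt hn hV
    set s := ∑ i, (L - a i) with hs
    set u := ∑ i, (k - b i) with hu
    set G := 2 * q with hG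
    set R := 2 * G ^ (2 * d) with hR
    have hGpos : 0 < G := by omega
    have hRpos : 0 < R := by positivity
    have hVM : M₀ ≤ V.card := by
      have h1 : 1 ≤ G ^ s := Nat.one_le_pow _ _ hGpos
      have h2 : 1 ≤ R ^ u := Nat.one_le_pow _ _ hRpos
      calc M₀ = M₀ * 1 * 1 := by ring
        _ ≤ M₀ * G ^ s * R ^ u := Nat.mul_le_mul (Nat.mul_le_mul_left _ h1) h2
        _ ≤ V.card := hV
    obtain ⟨i, hi⟩ := dense_colour c hq V (by omega)
    by_cases hai : a i < L
    · -- a single vertex level
      have hbi : b i = 0 := hab i hai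
      have hex : ∃ x ∈ V, V.card ≤ G * (Nb c i V x).card := by
        by_contra hcon
        push Not at hcon
        have hne : V.Nonempty := by rw [← Finset.card_pos]; omega
        have := Finset.sum_lt_sum_of_nonempty hne hcon
        rw [← Finset.mul_sum, Finset.sum_const, smul_eq_mul] at this
        exact absurd this (not_lt.2 hi)
      obtain ⟨x, hx, hxc⟩ := hex
      have hsu := sum_update (L := L) a i hai
      rw [← hs] at hsu
      refine ih (Function.update a i (a i + 1)) b (Nb c i V x) ?_ hb ?_ ?_ ?_ ?_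
      · intro j
        by_cases hj : j = i
        · subst hj; rw [Function.update_self]; omega
        · rw [Function.update_of_ne hj]; exact ha j
      · intro j
        by_cases hj : j = i
        · subst hj; intro _; exact hbi
        · rw [Function.update_of_ne hj]; exact hab j
      · intro j
        by_cases hj : j = i
        · subst hj
          rw [Function.update_self, hbi]
          have := hSt j
          rw [hbi] at this
          exact this.single hc hx
        · rw [Function.update_of_ne hj]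
          exact (hSt j).mono (Finset.filter_subset _ _)
      · omega
      · set s' := ∑ j, (L - Function.update a i (a i + 1) j) with hs'
        rw [← hsu, pow_succ] at hV
        have h3 : G * (M₀ * G ^ s' * R ^ u) ≤ G * (Nb c i V x).card := by
          calc G * (M₀ * G ^ s' * R ^ u) = M₀ * (G ^ s' * G) * R ^ u := by ring
            _ ≤ V.card := hV
            _ ≤ _ := hxc
        exact Nat.le_of_mul_le_mul_left h3 hGpos
    · have haL : a i = L := by have := ha i; omega
      by_cases hbi : b i < k
      · -- a level of dependent random choice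
        obtain ⟨V', hV'1, hV'2, hV'3⟩ := drc c hc i V d K G hd hGpos hi (by omega)
          (hM₀.trans hVM)
        have hsu := sum_update (L := k) b i hbi
        rw [← hu] at hsu
        refine ih a (Function.update b i (b i + 1)) V' ha ?_ ?_ ?_ ?_ ?_
        · intro j
          by_cases hj : j = i
          · subst hj; rw [Function.update_self]; omega
          · rw [Function.update_of_ne hj]; exact hb j
        · intro j hj
          by_cases hji : j = i
          · subst hji; omega
          · rw [Function.update_of_ne hji]; exact hab j hj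
        · intro j
          by_cases hj : j = i
          · subst hj
            rw [Function.update_self]
            exact (hSt j).level hV'1 hV'3
          · rw [Function.update_of_ne hj]
            exact (hSt j).mono hV'1
        · omega
        · set u' := ∑ j, (k - Function.update b i (b i + 1) j) with hu'
          rw [← hsu, pow_succ] at hV
          have h3 : R * (M₀ * G ^ s * R ^ u') ≤ R * V'.card := by
            calc R * (M₀ * G ^ s * R ^ u') = M₀ * G ^ s * (R ^ u' * R) := by ring
              _ ≤ V.card := hV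
              _ ≤ _ := hV'2
          exact Nat.le_of_mul_le_mul_left h3 hRpos
      · have hbk : b i = k := by have := hb i; omega
        refine ⟨i, V, ?_, ?_⟩
        · rw [← Finset.card_pos]; omega
        · have := hSt i
          rwa [haL, hbk] at this

omit [DecidableEq Ω] in
/-- padding a finite set to a tuple -/
theorem exists_tuple (d : ℕ) (S : Finset Ω) (hS : S.card ≤ d) (T : Finset Ω) (hST : S ⊆ T)
    (v₀ : Ω) (hv₀ : v₀ ∈ T) :
    ∃ z : Fin d → Ω, (∀ l, z l ∈ T) ∧ ∀ w ∈ S, ∃ l, z l = w := by
  refine ⟨fun l => S.toList.getD l v₀, ?_, ?_⟩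
  · intro l
    by_cases h : (l : ℕ) < S.toList.length
    · show S.toList.getD l v₀ ∈ T
      rw [List.getD_eq_getElem _ _ h]
      exact hST (Finset.mem_toList.1 (List.getElem_mem h))
    · show S.toList.getD l v₀ ∈ T
      rw [List.getD_eq_default _ _ (not_lt.1 h)]
      exact hv₀
  · intro w hw
    obtain ⟨n, hn, hnw⟩ := List.getElem_of_mem (Finset.mem_toList.2 hw)
    have hnd : n < d := by
      rw [Finset.length_toList] at hn
      omega
    refine ⟨⟨n, hnd⟩, ?_⟩
    show S.toList.getD n v₀ = w
    rw [List.getD_eq_getElem _ _ hn, hnw]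

theorem embed {W : Type*} [Fintype W] [DecidableEq W] (H : SimpleGraph W) [DecidableRel H.Adj]
    (c : Ω → Ω → Fin q) (hc : ∀ x y, c x y = c y x) (d K L k : ℕ) (i : Fin q) (V : Finset Ω)
    (hV : V.Nonempty) (hSt : St c d K i L k V) (hK : Fintype.card W ≤ K)
    (A : Finset W) (hA : A.card ≤ L) (f : W → ℕ) (hf : ∀ u, u ∉ A → f u < k)
    (hprop : ∀ u w, u ∉ A → w ∉ A → H.Adj u w → f u ≠ f w)
    (hdeg : ∀ u, u ∉ A → (univ.filter (fun w => w ∉ A ∧ H.Adj u w ∧ f u < f w)).card ≤ d) :
    ∃ F : W → Ω, Function.Injective F ∧ ∀ u w, H.Adj u w → c (F u) (F w) = i := by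
  classical
  obtain ⟨X, P, Q, h1, h2, h3, h4, h5⟩ := hSt
  obtain ⟨v₀, hv₀⟩ := hV
  have key : ∀ s : Finset W, (∀ u ∈ s, u ∉ A) → ∃ g : W → Ω, Set.InjOn g s ∧
      (∀ u ∈ s, g u ∈ P (f u)) ∧ ∀ u ∈ s, ∀ w ∈ s, H.Adj u w → c (g u) (g w) = i := by
    intro s
    induction s using Finset.induction_on_min_value f with
    | empty =>
      intro _
      refine ⟨fun _ => v₀, ?_, ?_, ?_⟩
      · simp
      · simp
      · simp
    | insert a s has hmin ih =>
      intro hs
      obtain ⟨g, g1, g2, g3⟩ := ih (fun u hu => hs u (Finset.mem_insert_of_mem hu))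
      have haA : a ∉ A := hs a (Finset.mem_insert_self _ _)
      set N := s.filter (fun w => H.Adj a w) with hN
      have hNlt : ∀ w ∈ N, f a < f w := by
        intro w hw
        rw [hN, mem_filter] at hw
        have e1 := hmin w hw.1
        have e2 := hprop a w haA (hs w (Finset.mem_insert_of_mem hw.1)) hw.2
        omega
      have hNd : N.card ≤ d := by
        refine le_trans (Finset.card_le_card ?_) (hdeg a haA)
        intro w hw
        have e := hNlt w hw
        rw [hN, mem_filter] at hw
        rw [mem_filter]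
        exact ⟨Finset.mem_univ _, hs w (Finset.mem_insert_of_mem hw.1), hw.2, e⟩
      have hfa := hf a haA
      have hQ : N.image g ⊆ Q (f a) := by
        intro y hy
        rw [mem_image] at hy
        obtain ⟨w, hw, rfl⟩ := hy
        have e := hNlt w hw
        rw [hN, mem_filter] at hw
        exact h5 (f a) (f w) e (hf w (hs w (Finset.mem_insert_of_mem hw.1))) (g2 w hw.1)
      obtain ⟨z, hz1, hz2⟩ := exists_tuple d (N.image g) (Finset.card_image_le.trans hNd)
        (Q (f a)) hQ v₀ ((h4 (f a) hfa).2.2.1 hv₀)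
      have hcard := (h4 (f a) hfa).2.2.2 z hz1
      have hsK : (s.image g).card < K := by
        have e1 : (s.image g).card ≤ s.card := Finset.card_image_le
        have e2 : (insert a s).card ≤ Fintype.card W := Finset.card_le_univ _
        rw [Finset.card_insert_of_notMem has] at e2
        omega
      obtain ⟨y, hy1, hy2⟩ := Finset.exists_mem_notMem_of_card_lt_card (lt_of_lt_of_le hsK hcard)
      unfold CNb at hy1
      rw [mem_filter] at hy1
      have hadj : ∀ w ∈ s, H.Adj a w → Adj c i (g w) y := by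
        intro w hw haw
        obtain ⟨l, hl⟩ := hz2 (g w) (Finset.mem_image_of_mem g (by rw [hN, mem_filter]; exact ⟨hw, haw⟩))
        rw [← hl]
        exact hy1.2 l
      refine ⟨Function.update g a y, ?_, ?_, ?_⟩
      · intro u hu w hw huw
        have hu' : u = a ∨ u ∈ s := by simpa using hu
        have hw' : w = a ∨ w ∈ s := by simpa using hw
        have hne : ∀ u ∈ s, u ≠ a := fun u hu hh => has (hh ▸ hu)
        rcases hu' with rfl | hu'
        · rcases hw' with rfl | hw'
          · rfl
          · rw [Function.update_self, Function.update_of_ne (hne w hw')] at huw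
            exact absurd (huw ▸ Finset.mem_image_of_mem g hw') hy2
        · rcases hw' with rfl | hw'
          · rw [Function.update_self, Function.update_of_ne (hne u hu')] at huw
            exact absurd (huw ▸ Finset.mem_image_of_mem g hu') hy2
          · rw [Function.update_of_ne (hne u hu'), Function.update_of_ne (hne w hw')] at huw
            exact g1 hu' hw' huw
      · intro u hu
        rw [mem_insert] at hu
        rcases hu with rfl | hu
        · rw [Function.update_self]; exact hy1.1
        · have hua : u ≠ a := by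
            rintro rfl
            exact has hu
          rw [Function.update_of_ne hua]; exact g2 u hu
      · intro u hu w hw huw
        rw [mem_insert] at hu hw
        have hne : ∀ u ∈ s, u ≠ a := fun u hu hh => has (hh ▸ hu)
        rcases hu with rfl | hu
        · rcases hw with rfl | hw
          · exact absurd huw (H.loopless.irrefl _)
          · rw [Function.update_self, Function.update_of_ne (hne w hw), hc]
            exact (hadj w hw huw).2
        · rcases hw with rfl | hw
          · rw [Function.update_self, Function.update_of_ne (hne u hu)]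
            exact (hadj u hu huw.symm).2
          · rw [Function.update_of_ne (hne u hu), Function.update_of_ne (hne w hw)]
            exact g3 u hu w hw huw
  obtain ⟨g, g1, g2, g3⟩ := key (univ.filter (fun u => u ∉ A)) (fun u hu => (Finset.mem_filter.1 hu).2)
  -- injection of `A` into `X`
  have hAX : A.card ≤ X.card := by omega
  obtain ⟨e, he1, he2⟩ : ∃ e : W → Ω, (∀ u ∈ A, e u ∈ X) ∧ Set.InjOn e A := by
    obtain ⟨X', hX', hX'c⟩ := Finset.exists_subset_card_eq hAX
    have eqv : A ≃ X' := Finset.equivOfCardEq hX'c.symm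
    refine ⟨fun u => if h : u ∈ A then (eqv ⟨u, h⟩ : Ω) else v₀, ?_, ?_⟩
    · intro u hu
      simp only [hu, dif_pos]
      exact hX' (eqv ⟨u, hu⟩).2
    · intro u hu w hw huw
      have hu' : u ∈ A := hu
      have hw' : w ∈ A := hw
      simp only [hu', hw', dif_pos] at huw
      have := eqv.injective (Subtype.ext huw)
      exact congrArg Subtype.val this
  have hmix : ∀ u ∈ A, ∀ w, w ∉ A → Adj c i (e u) (g w) := by
    intro u hu w hw
    exact (h4 (f w) (hf w hw)).1 (g w) (g2 w (by simp [hw])) (e u) (he1 u hu)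
  refine ⟨fun u => if u ∈ A then e u else g u, ?_, ?_⟩
  · intro u w huw
    by_cases hu : u ∈ A
    · by_cases hw : w ∈ A
      · simp only [hu, hw, if_true] at huw
        exact he2 hu hw huw
      · simp only [hu, hw, if_true, if_false] at huw
        exact absurd huw (hmix u hu w hw).1
    · by_cases hw : w ∈ A
      · simp only [hu, hw, if_true, if_false] at huw
        exact absurd huw.symm (hmix w hw u hu).1
      · simp only [hu, hw, if_false] at huw
        exact g1 (by simp [hu]) (by simp [hw]) huw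
  · intro u w huw
    by_cases hu : u ∈ A
    · by_cases hw : w ∈ A
      · simp only [hu, hw, if_true]
        refine h2 _ (he1 u hu) _ (he1 w hw) ?_
        intro hh
        exact huw.ne (he2 hu hw hh)
      · simp only [hu, hw, if_true, if_false]
        exact (hmix u hu w hw).2
    · by_cases hw : w ∈ A
      · simp only [hu, hw, if_true, if_false]
        rw [hc]
        exact (hmix w hw u hu).2
      · simp only [hu, hw, if_false]
        exact g3 u (by simp [hu]) w (by simp [hw]) huw

/-- the main theorem: `r(H; q) ≤ 2 (2q)^(2d) n² (2q)^(qL) (2 (2q)^(2d))^(qk)` -/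
theorem main {W : Type*} [Fintype W] [DecidableEq W] (H : SimpleGraph W) [DecidableRel H.Adj]
    (hW : 1 ≤ Fintype.card W)
    (q d L k : ℕ) (hq : 1 ≤ q) (hd : 1 ≤ d)
    (A : Finset W) (hA : A.card ≤ L) (f : W → ℕ) (hf : ∀ u, u ∉ A → f u < k)
    (hprop : ∀ u w, u ∉ A → w ∉ A → H.Adj u w → f u ≠ f w)
    (hdeg : ∀ u, u ∉ A → (univ.filter (fun w => w ∉ A ∧ H.Adj u w ∧ f u < f w)).card ≤ d)
    (N : ℕ) (hN : 2 * (2 * q) ^ (2 * d) * (Fintype.card W * Fintype.card W) * (2 * q) ^ (q * L) *
      (2 * (2 * q) ^ (2 * d)) ^ (q * k) ≤ N) (col : Sym2 (Fin N) → Fin q) :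
    ∃ i : Fin q, ∃ F : W → Fin N, Function.Injective F ∧
      ∀ u w, H.Adj u w → col s(F u, F w) = i := by
  classical
  set c : Fin N → Fin N → Fin q := fun x y => col s(x, y) with hc
  have hcs : ∀ x y, c x y = c y x := by
    intro x y
    simp only [hc]
    rw [Sym2.eq_swap]
  set K := Fintype.card W with hK
  have hM₀' : 2 ≤ 2 * (2 * q) ^ (2 * d) * (K * K) := by
    have h1 : 1 ≤ (2 * q) ^ (2 * d) := Nat.one_le_pow _ _ (by omega)
    have h2 : 1 ≤ K * K := Nat.one_le_iff_ne_zero.2 (by positivity)
    calc 2 = 2 * 1 * 1 := by norm_num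
      _ ≤ _ := Nat.mul_le_mul (Nat.mul_le_mul_left _ h1) h2
  obtain ⟨i, V, hV, hSt⟩ := chain c hcs hq d K L k (2 * (2 * q) ^ (2 * d) * (K * K)) hd le_rfl hM₀'
    _ (fun _ => 0) (fun _ => 0) univ (fun _ => Nat.zero_le _) (fun _ => Nat.zero_le _)
    (fun _ _ => rfl) (fun i => St.zero c d K i _) rfl (by
      simp only [Nat.sub_zero, Finset.sum_const, Finset.card_univ, Fintype.card_fin, smul_eq_mul]
      exact hN)
  obtain ⟨F, hF1, hF2⟩ := embed H c hcs d K L k i V hV hSt le_rfl A hA f hf hprop hdeg
  exact ⟨i, F, hF1, hF2⟩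

end Pool.Agent.LibMP01c500
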