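import Mathlib

/-!
# MP_01c500_co: one level of dependent random choice in an edge-coloured complete graph
-/

set_option autoImplicit false

namespace Pool.Agent.LibMP01c500

open Finset

variable {Ω : Type*} [DecidableEq Ω] {q : ℕ}

/-- `x` and `y` are joined by an edge of colour `i`. -/
def Adj (c : Ω → Ω → Fin q) (i : Fin q) (x y : Ω) : Prop := x ≠ y ∧ c x y = i

instance (c : Ω → Ω → Fin q) (i : Fin q) : DecidableRel (Adj c i) := fun x y => by
  unfold Adj; infer_instance

omit [DecidableEq Ω] in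
theorem Adj.symm {c : Ω → Ω → Fin q} (hc : ∀ x y, c x y = c y x) {i : Fin q} {x y : Ω}
    (h : Adj c i x y) : Adj c i y x := ⟨h.1.symm, by rw [hc]; exact h.2⟩

/-- neighbourhood of colour `i` in `V` -/
def Nb (c : Ω → Ω → Fin q) (i : Fin q) (V : Finset Ω) (x : Ω) : Finset Ω :=
  V.filter (fun y => Adj c i x y)

/-- common neighbourhood of colour `i` in `V` of a tuple -/
def CNb (c : Ω → Ω → Fin q) (i : Fin q) (V : Finset Ω) {t : ℕ} (T : Fin t → Ω) : Finset Ω :=
  V.filter (fun y => ∀ j, Adj c i (T j) y)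

omit [DecidableEq Ω] in
/-- power mean inequality for natural numbers -/
theorem power_mean (V : Finset Ω) (a : Ω → ℕ) (t : ℕ) (ht : 1 ≤ t) :
    (∑ y ∈ V, a y) ^ t ≤ V.card ^ (t - 1) * ∑ y ∈ V, a y ^ t := by
  obtain ⟨s, rfl⟩ : ∃ s, t = s + 1 := ⟨t - 1, by omega⟩
  rcases V.eq_empty_or_nonempty with h | h
  · subst h; simp
  have h1 := pow_sum_div_card_le_sum_pow (s := V) (f := fun y => (a y : ℝ))
    (fun i _ => Nat.cast_nonneg _) s
  have hpos : (0 : ℝ) < (V.card : ℝ) ^ s := by
    have : 0 < V.card := Finset.card_pos.2 h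
    positivity
  rw [div_le_iff₀ hpos] at h1
  have h2 : ((∑ y ∈ V, a y : ℕ) : ℝ) ^ (s + 1) ≤ (V.card : ℝ) ^ s * ((∑ y ∈ V, a y ^ (s + 1) : ℕ) : ℝ) := by
    push_cast
    linarith [h1]
  have h3 : s + 1 - 1 = s := by omega
  rw [h3]
  exact_mod_cast h2

theorem sum_CNb (c : Ω → Ω → Fin q) (hc : ∀ x y, c x y = c y x) (i : Fin q) (V : Finset Ω)
    (t : ℕ) :
    ∑ T ∈ Fintype.piFinset (fun _ : Fin t => V), (CNb c i V T).card =
      ∑ y ∈ V, (Nb c i V y).card ^ t := by
  classical
  have h := Finset.sum_card_bipartiteAbove_eq_sum_card_bipartiteBelow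
    (s := Fintype.piFinset (fun _ : Fin t => V)) (t := V)
    (fun (T : Fin t → Ω) (y : Ω) => ∀ j, Adj c i (T j) y)
  unfold CNb
  unfold Finset.bipartiteAbove at h
  rw [h]
  refine Finset.sum_congr rfl fun y _ => ?_
  unfold Finset.bipartiteBelow
  have h2 : (Fintype.piFinset (fun _ : Fin t => V)).filter (fun T => ∀ j, Adj c i (T j) y) =
      Fintype.piFinset (fun _ : Fin t => Nb c i V y) := by
    ext T
    simp only [mem_filter, Fintype.mem_piFinset, Nb]
    constructor
    · rintro ⟨h1, h2⟩ j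
      exact ⟨h1 j, (h2 j).symm hc⟩
    · intro h
      exact ⟨fun j => (h j).1, fun j => (h j).2.symm hc⟩
  rw [h2, Fintype.card_piFinset_const]

theorem sum_bad (c : Ω → Ω → Fin q) (hc : ∀ x y, c x y = c y x) (i : Fin q) (V : Finset Ω)
    (t d K : ℕ) :
    ∑ T ∈ Fintype.piFinset (fun _ : Fin t => V),
      (((Fintype.piFinset (fun _ : Fin d => V)).filter (fun z => (CNb c i V z).card < K)).filter
        (fun z => ∀ l, z l ∈ CNb c i V T)).card ≤ V.card ^ d * K ^ t := by
  classical
  set Z := (Fintype.piFinset (fun _ : Fin d => V)).filter (fun z => (CNb c i V z).card < K) with hZ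
  have h := Finset.sum_card_bipartiteAbove_eq_sum_card_bipartiteBelow
    (s := Fintype.piFinset (fun _ : Fin t => V)) (t := Z)
    (fun (T : Fin t → Ω) (z : Fin d → Ω) => ∀ l, z l ∈ CNb c i V T)
  unfold Finset.bipartiteAbove at h
  rw [h]
  have hZc : Z.card ≤ V.card ^ d := by
    calc Z.card ≤ (Fintype.piFinset (fun _ : Fin d => V)).card := Finset.card_filter_le _ _
      _ = V.card ^ d := Fintype.card_piFinset_const _ _
  calc ∑ z ∈ Z, (Finset.bipartiteBelow
        (fun (T : Fin t → Ω) (z : Fin d → Ω) => ∀ l, z l ∈ CNb c i V T)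
        (Fintype.piFinset (fun _ : Fin t => V)) z).card
      ≤ ∑ z ∈ Z, K ^ t := by
        refine Finset.sum_le_sum fun z hz => ?_
        have hz2 : (CNb c i V z).card < K := (Finset.mem_filter.1 hz).2
        have hsub : Finset.bipartiteBelow
            (fun (T : Fin t → Ω) (z : Fin d → Ω) => ∀ l, z l ∈ CNb c i V T)
            (Fintype.piFinset (fun _ : Fin t => V)) z ⊆
            Fintype.piFinset (fun _ : Fin t => CNb c i V z) := by
          intro T hT
          unfold Finset.bipartiteBelow at hT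
          rw [mem_filter, Fintype.mem_piFinset] at hT
          rw [Fintype.mem_piFinset]
          intro j
          unfold CNb
          rw [mem_filter]
          refine ⟨hT.1 j, fun l => ?_⟩
          have := hT.2 l
          unfold CNb at this
          rw [mem_filter] at this
          exact (this.2 j).symm hc
        calc _ ≤ (Fintype.piFinset (fun _ : Fin t => CNb c i V z)).card := Finset.card_le_card hsub
          _ = (CNb c i V z).card ^ t := Fintype.card_piFinset_const _ _
          _ ≤ K ^ t := Nat.pow_le_pow_left hz2.le t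
    _ = Z.card * K ^ t := by rw [Finset.sum_const, smul_eq_mul]
    _ ≤ V.card ^ d * K ^ t := Nat.mul_le_mul_right _ hZc

/-- one level of dependent random choice -/
theorem drc (c : Ω → Ω → Fin q) (hc : ∀ x y, c x y = c y x) (i : Fin q) (V : Finset Ω)
    (d K G : ℕ) (hd : 1 ≤ d) (hG : 1 ≤ G)
    (hdens : V.card * V.card ≤ G * ∑ y ∈ V, (Nb c i V y).card)
    (hV : 0 < V.card) (hM : 2 * G ^ (2 * d) * (K * K) ≤ V.card) :
    ∃ Q ⊆ V, V.card ≤ 2 * G ^ (2 * d) * Q.card ∧
      ∀ z : Fin d → Ω, (∀ l, z l ∈ Q) → K ≤ (CNb c i V z).card := by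
  classical
  by_contra hcon
  push Not at hcon
  set M := V.card with hMdef
  set R := 2 * G ^ (2 * d) with hR
  set t := 2 * d with ht
  set Z := (Fintype.piFinset (fun _ : Fin d => V)).filter (fun z => (CNb c i V z).card < K) with hZ
  set TT := Fintype.piFinset (fun _ : Fin t => V) with hTT
  have hTTc : TT.card = M ^ t := Fintype.card_piFinset_const _ _
  have hRpos : 0 < R := by positivity
  -- pointwise bound
  have hpt : ∀ T ∈ TT, R * (CNb c i V T).card + 1 ≤
      M + R * M * (Z.filter (fun z => ∀ l, z l ∈ CNb c i V T)).card := by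
    intro T hT
    by_cases h1 : M ≤ R * (CNb c i V T).card
    · obtain ⟨z, hz1, hz2⟩ := hcon (CNb c i V T) (Finset.filter_subset _ _) h1
      have hzm : z ∈ Z.filter (fun z => ∀ l, z l ∈ CNb c i V T) := by
        rw [mem_filter, hZ, mem_filter, Fintype.mem_piFinset]
        exact ⟨⟨fun l => Finset.filter_subset _ _ (hz1 l), hz2⟩, hz1⟩
      have hcard : 1 ≤ (Z.filter (fun z => ∀ l, z l ∈ CNb c i V T)).card :=
        Finset.card_pos.2 ⟨z, hzm⟩
      have h3 : (CNb c i V T).card ≤ M := Finset.card_filter_le _ _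
      calc R * (CNb c i V T).card + 1 ≤ R * M + M := by
            have := Nat.mul_le_mul_left R h3
            omega
        _ ≤ M + R * M * (Z.filter (fun z => ∀ l, z l ∈ CNb c i V T)).card := by
            have := Nat.mul_le_mul_left (R * M) hcard
            omega
    · push Not at h1
      omega
  have hsum := Finset.sum_le_sum hpt
  rw [Finset.sum_add_distrib, Finset.sum_add_distrib, ← Finset.mul_sum, ← Finset.mul_sum,
    Finset.sum_const, Finset.sum_const, hTTc, smul_eq_mul, smul_eq_mul, mul_one,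
    hTT, sum_CNb c hc i V t] at hsum
  have hbad := sum_bad c hc i V t d K
  have hMt : 0 < M ^ t := Nat.pow_pos hV
  -- lower bound for the sum
  have hlow : M ^ (t + 1) ≤ G ^ t * ∑ y ∈ V, (Nb c i V y).card ^ t := by
    have h1 := power_mean V (fun y => (Nb c i V y).card) t (by omega)
    have h2 : (M * M) ^ t ≤ (G * ∑ y ∈ V, (Nb c i V y).card) ^ t := Nat.pow_le_pow_left hdens t
    rw [mul_pow G] at h2
    have h3 : (M * M) ^ t ≤ G ^ t * (M ^ (t - 1) * ∑ y ∈ V, (Nb c i V y).card ^ t) :=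
      h2.trans (Nat.mul_le_mul_left _ h1)
    have h4 : (M * M) ^ t = M ^ (t - 1) * M ^ (t + 1) := by
      rw [← pow_add, ← pow_two, ← pow_mul]
      congr 1
      omega
    rw [h4] at h3
    have h5 : M ^ (t - 1) * M ^ (t + 1) ≤ M ^ (t - 1) * (G ^ t * ∑ y ∈ V, (Nb c i V y).card ^ t) := by
      calc _ ≤ _ := h3
        _ = _ := by ring
    exact Nat.le_of_mul_le_mul_left h5 (Nat.pow_pos hV)
  have hlow2 : 2 * M ^ (t + 1) ≤ R * ∑ y ∈ V, (Nb c i V y).card ^ t := by
    rw [hR, mul_assoc]
    exact Nat.mul_le_mul_left _ hlow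
  have h6 : 2 * M ^ (t + 1) + M ^ t ≤ M ^ t * M + R * M * (M ^ d * K ^ t) := by
    calc _ ≤ R * ∑ y ∈ V, (Nb c i V y).card ^ t + M ^ t := by omega
      _ ≤ _ := hsum
      _ ≤ _ := Nat.add_le_add_left (Nat.mul_le_mul_left _ hbad) _
  have h7 : M ^ t * M = M ^ (t + 1) := (pow_succ _ _).symm
  have h8 : M ^ (t + 1) < R * M * (M ^ d * K ^ t) := by omega
  have h9 : M ^ (t + 1) = M * (M ^ d * M ^ d) := by
    rw [pow_succ, ht, two_mul, pow_add]; ring
  have h10 : M * (M ^ d * M ^ d) < M * (M ^ d * (R * K ^ t)) := by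
    calc _ = M ^ (t + 1) := h9.symm
      _ < _ := h8
      _ = _ := by ring
  have h11 : M ^ d < R * K ^ t :=
    Nat.lt_of_mul_lt_mul_left (Nat.lt_of_mul_lt_mul_left h10)
  have h12 : R * K ^ t ≤ M ^ d := by
    have h13 : (R * (K * K)) ^ d ≤ M ^ d := Nat.pow_le_pow_left hM d
    have hKt : K ^ t = (K * K) ^ d := by rw [ht, pow_mul, pow_two]
    calc R * K ^ t ≤ R ^ d * K ^ t := by
          apply Nat.mul_le_mul_right
          calc R = R ^ 1 := (pow_one _).symm
            _ ≤ R ^ d := Nat.pow_le_pow_right hRpos hd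
      _ = (R * (K * K)) ^ d := by rw [mul_pow R (K * K) d, hKt]
      _ ≤ M ^ d := h13
  omega

end Pool.Agent.LibMP01c500
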