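import Pool.Agent.Lib_MP_01c500.Bound

/-!
# MP_01c500_co: final form
-/

set_option autoImplicit false

namespace Pool.Agent.LibMP01c500

open Finset

theorem final (q : ℕ) (hq : 1 ≤ q) : ∃ C : ℝ,
    ∀ (V : Type) [Fintype V] (H : SimpleGraph V) [DecidableRel H.Adj],
      (∀ v : V, ∃ w : V, H.Adj v w) →
      ∀ (A : Finset V) (k : ℕ), (H.induce {v | v ∉ A}).Colorable k →
      ∃ n : ℕ, (n : ℝ) ≤
          (2 : ℝ) ^ (C * ((A.card : ℝ) + Real.sqrt ((k : ℝ) * (H.edgeFinset.card : ℝ)))) ∧
        ∀ col : Sym2 (Fin n) → Fin q, ∃ i : Fin q, ∃ f : V → Fin n,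
          Function.Injective f ∧ ∀ u v : V, H.Adj u v → col s(f u, f v) = i := by
  classical
  refine ⟨3 * (7 + 18 * q + 18 * q * q), ?_⟩
  intro V _ H _ hiso A k hcol
  rcases isEmpty_or_nonempty V with hV | hV
  · refine ⟨1, ?_, fun col => ⟨⟨0, by omega⟩, fun v => (hV.false v).elim, fun v => (hV.false v).elim,
      fun v => (hV.false v).elim⟩⟩
    rw [Nat.cast_one]
    apply Real.one_le_rpow (by norm_num)
    positivity
  have hW : 1 ≤ Fintype.card V := Fintype.card_pos
  have hm1 : 1 ≤ H.edgeFinset.card := by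
    obtain ⟨v⟩ := hV
    obtain ⟨w, hw⟩ := hiso v
    exact Finset.card_pos.2 ⟨s(v, w), by rw [SimpleGraph.mem_edgeFinset]; exact hw⟩
  set m := H.edgeFinset.card with hm
  -- the colouring
  have hcol2 : (H.induce {v | v ∉ A}).Colorable (min k (Fintype.card V)) := by
    rcases le_total k (Fintype.card V) with h | h
    · rw [min_eq_left h]; exact hcol
    · rw [min_eq_right h]
      exact (SimpleGraph.colorable_of_fintype _).mono (Fintype.card_subtype_le _)
  obtain ⟨c⟩ := hcol2
  set k₁ := max 1 (min k (Fintype.card V)) with hk₁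
  have hk₁1 : 1 ≤ k₁ := le_max_left _ _
  have hk₁n : k₁ ≤ Fintype.card V := max_le hW (min_le_right _ _)
  set S := Nat.sqrt (k₁ * m) + 1 with hS
  have hSS : k₁ * m ≤ S * S := (Nat.lt_succ_sqrt (k₁ * m)).le
  have key := exists_colour H hiso hW q hq A k₁ hk₁1 hk₁n
    (fun u => if h : u ∉ A then (c ⟨u, h⟩ : ℕ) else 0) (by
      intro u hu
      simp only [hu, not_false_eq_true, dif_pos]
      exact lt_of_lt_of_le (c ⟨u, hu⟩).2 (le_max_right _ _)) (by
      intro u w hu hw huw heq
      simp only [hu, hw, not_false_eq_true, dif_pos] at heq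
      have hadj : (H.induce {v | v ∉ A}).Adj ⟨u, hu⟩ ⟨w, hw⟩ := by
        rw [SimpleGraph.comap_adj]; exact huw
      exact c.valid hadj (Fin.ext heq)) S hSS (by omega)
  refine ⟨_, ?_, key⟩
  rw [Nat.cast_pow, Nat.cast_ofNat, ← Real.rpow_natCast]
  apply Real.rpow_le_rpow_of_exponent_le (by norm_num)
  push_cast
  have hSb : (S : ℝ) ≤ 2 * ((A.card : ℝ) + Real.sqrt ((k : ℝ) * (m : ℝ))) := by
    have h1 : (S : ℝ) ≤ Real.sqrt ((k₁ * m : ℕ) : ℝ) + 1 := by
      rw [hS]
      push_cast
      have := @Real.nat_sqrt_le_real_sqrt (k₁ * m)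
      push_cast at this
      linarith
    rcases Nat.eq_zero_or_pos k with hk0 | hk0
    · have hAuniv : A = univ := by
        ext v
        constructor
        · intro _; exact Finset.mem_univ _
        · intro _
          by_contra hv
          have hlt := (c ⟨v, hv⟩).2
          have h0 : min k (Fintype.card V) ≤ k := min_le_left _ _
          omega
      have hk₁e : k₁ = 1 := by rw [hk₁, hk0]; simp
      have hmn : m ≤ Fintype.card V * Fintype.card V := by
        calc m ≤ (Fintype.card V).choose 2 := H.card_edgeFinset_le_card_choose_two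
          _ ≤ Fintype.card V ^ 2 := Nat.choose_le_pow _ _
          _ = _ := by ring
      have h2 : Real.sqrt ((k₁ * m : ℕ) : ℝ) ≤ A.card := by
        rw [hk₁e, one_mul, hAuniv, Finset.card_univ]
        apply Real.sqrt_le_iff.2
        refine ⟨by positivity, ?_⟩
        rw [pow_two]
        exact_mod_cast hmn
      have h3 : (1 : ℝ) ≤ A.card := by
        rw [hAuniv, Finset.card_univ]
        exact_mod_cast hW
      have h4 := Real.sqrt_nonneg ((k : ℝ) * (m : ℝ))
      linarith
    · have h2 : Real.sqrt ((k₁ * m : ℕ) : ℝ) ≤ Real.sqrt ((k : ℝ) * (m : ℝ)) := by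
        apply Real.sqrt_le_sqrt
        push_cast
        apply mul_le_mul_of_nonneg_right _ (by positivity)
        have : k₁ ≤ k := max_le hk0 (min_le_left _ _)
        exact_mod_cast this
      have h3 : (1 : ℝ) ≤ Real.sqrt ((k : ℝ) * (m : ℝ)) := by
        rw [Real.one_le_sqrt]
        have hkm : 1 ≤ k * m := Nat.mul_pos hk0 hm1
        exact_mod_cast hkm
      have h4 : (0 : ℝ) ≤ A.card := Nat.cast_nonneg _
      linarith
  have hC : (0 : ℝ) ≤ 7 + 18 * (q : ℝ) + 18 * q * q := by positivity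
  have hs := Real.sqrt_nonneg ((k : ℝ) * (m : ℝ))
  calc (7 + 18 * (q : ℝ) + 18 * q * q) * ((A.card : ℝ) + S)
      ≤ (7 + 18 * (q : ℝ) + 18 * q * q) * (3 * ((A.card : ℝ) + Real.sqrt ((k : ℝ) * (m : ℝ)))) := by
        apply mul_le_mul_of_nonneg_left _ hC
        linarith
    _ = _ := by ring

end Pool.Agent.LibMP01c500
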