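import Pool.Agent.Lib_MP_01c500.Chain

/-!
# MP_01c500_co, three colours: blobs that are pairwise sparse for a relation
-/

set_option autoImplicit false

namespace Pool.Agent.LibMP01c500

open Finset

variable {Ω : Type*} [DecidableEq Ω]

/-- number of pairs of `X × Y` that are related -/
def eR (R : Ω → Ω → Prop) [DecidableRel R] (X Y : Finset Ω) : ℕ :=
  ∑ x ∈ X, (Y.filter (fun y => R x y)).card

omit [DecidableEq Ω] in
theorem eR_swap (R : Ω → Ω → Prop) [DecidableRel R] (X Y : Finset Ω) :
    eR R X Y = ∑ y ∈ Y, (X.filter (fun x => R x y)).card := by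
  unfold eR
  have h := Finset.sum_card_bipartiteAbove_eq_sum_card_bipartiteBelow (s := X) (t := Y) R
  unfold Finset.bipartiteAbove Finset.bipartiteBelow at h
  exact h

omit [DecidableEq Ω] in
/-- Markov: few `x` have many neighbours -/
theorem markov (X : Finset Ω) (f : Ω → ℕ) (B T : ℕ) (h : ∑ x ∈ X, f x ≤ B) :
    (X.filter (fun x => T < f x)).card * T ≤ B := by
  calc (X.filter (fun x => T < f x)).card * T = ∑ _x ∈ X.filter (fun x => T < f x), T := by
        rw [Finset.sum_const, smul_eq_mul]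
    _ ≤ ∑ x ∈ X.filter (fun x => T < f x), f x := by
        refine Finset.sum_le_sum fun x hx => ?_
        exact (Finset.mem_filter.1 hx).2.le
    _ ≤ ∑ x ∈ X, f x := Finset.sum_le_sum_of_subset (Finset.filter_subset _ _)
    _ ≤ B := h

omit [DecidableEq Ω] in
theorem exists_filter (Y : Finset Ω) (P : Ω → Prop) :
    ∃ Y' : Finset Ω, ∀ y, y ∈ Y' ↔ y ∈ Y ∧ P y := by
  classical
  exact ⟨Y.filter P, fun y => Finset.mem_filter⟩

/-- every large subset of `B` has a pair with few related pairs -/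
def Bad (R : Ω → Ω → Prop) [DecidableRel R] (B : Finset Ω) (u w a : ℕ) : Prop :=
  ∀ A ⊆ B, u ≤ A.card → ∃ X ⊆ A, ∃ Y ⊆ A, Disjoint X Y ∧ A.card ≤ 2 ^ w * X.card ∧
    A.card ≤ 2 ^ w * Y.card ∧ 2 ^ a * eR R X Y ≤ X.card * Y.card

theorem blobs (R : Ω → Ω → Prop) [DecidableRel R] (B : Finset Ω) (u w a m₀ : ℕ) (hm₀ : 1 ≤ m₀)
    (hbad : Bad R B u w a) :
    ∀ (D : ℕ) (A : Finset Ω), A ⊆ B → (m₀ + u) * 2 ^ (D * (w + 1)) ≤ A.card →
      ∃ W : ℕ → Finset Ω, (∀ i < 2 ^ D, W i ⊆ A ∧ (W i).card = m₀) ∧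
        ∀ i j, i < j → j < 2 ^ D → Disjoint (W i) (W j) ∧
          ∀ y ∈ W j, 2 ^ a * ((W i).filter (fun x => R x y)).card ≤ 2 ^ (D + 1) * m₀ := by
  intro D
  induction D with
  | zero =>
    intro A _ hA
    obtain ⟨W, hW1, hW2⟩ := Finset.exists_subset_card_eq (s := A) (n := m₀) (by
      simp at hA; omega)
    refine ⟨fun _ => W, fun _ _ => ⟨hW1, hW2⟩, ?_⟩
    intro i j hij hj
    simp at hj
    omega
  | succ D ih =>
    intro A hAB hA
    have hpow : 2 ^ ((D + 1) * (w + 1)) = 2 ^ (D * (w + 1)) * (2 ^ w * 2) := by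
      rw [← pow_succ, ← pow_add]; congr 1; ring
    have hP1 : 1 ≤ 2 ^ (D * (w + 1)) := Nat.one_le_two_pow
    have hw1 : 1 ≤ 2 ^ w := Nat.one_le_two_pow
    have hA1 : m₀ + u ≤ A.card := by
      refine le_trans ?_ hA
      exact Nat.le_mul_of_pos_right _ (by positivity)
    obtain ⟨X, hX, Y, hY, hXY, hXc, hYc, he⟩ := hbad A hAB (by omega)
    have hApos : 0 < A.card := by omega
    have hYpos : 0 < Y.card := by
      rcases Nat.eq_zero_or_pos Y.card with h | h
      · rw [h] at hYc; omega
      · exact h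
    -- clean X
    set X' := X.filter (fun x => 2 ^ a * (Y.filter (fun y => R x y)).card ≤ 2 * Y.card) with hX'
    have hXX' : X.card ≤ 2 * X'.card := by
      have h1 := markov X (fun x => 2 ^ a * (Y.filter (fun y => R x y)).card) (X.card * Y.card)
        (2 * Y.card) (by
          rw [← Finset.mul_sum]; exact he)
      have h2 : (X.filter (fun x => 2 * Y.card < 2 ^ a * (Y.filter (fun y => R x y)).card)).card +
          X'.card = X.card := by
        rw [hX', add_comm]
        have h3 : (X.filter (fun x => 2 * Y.card < 2 ^ a * (Y.filter (fun y => R x y)).card)) =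
            X.filter (fun x => ¬ 2 ^ a * (Y.filter (fun y => R x y)).card ≤ 2 * Y.card) := by
          refine Finset.filter_congr fun x _ => ?_
          exact not_le.symm
        rw [h3]
        exact Finset.card_filter_add_card_filter_not _
      set n₁ := (X.filter (fun x => 2 * Y.card < 2 ^ a * (Y.filter (fun y => R x y)).card)).card
      have h4 : 2 * n₁ ≤ X.card := by
        have : (2 * n₁) * Y.card ≤ X.card * Y.card := by
          calc (2 * n₁) * Y.card = n₁ * (2 * Y.card) := by ring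
            _ ≤ _ := h1
        exact Nat.le_of_mul_le_mul_right this hYpos
      omega
    have hX'A : X' ⊆ A := (Finset.filter_subset _ _).trans hX
    obtain ⟨W₁, hW₁a, hW₁b⟩ := ih X' (hX'A.trans hAB) (by
      have h1 : (m₀ + u) * 2 ^ (D * (w + 1)) * (2 ^ w * 2) ≤ X'.card * (2 ^ w * 2) := by
        calc _ = (m₀ + u) * 2 ^ ((D + 1) * (w + 1)) := by rw [hpow]; ring
          _ ≤ A.card := hA
          _ ≤ 2 ^ w * X.card := hXc
          _ ≤ 2 ^ w * (2 * X'.card) := Nat.mul_le_mul_left _ hXX'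
          _ = _ := by ring
      exact Nat.le_of_mul_le_mul_right h1 (by positivity))
    -- clean Y
    obtain ⟨Y', hY'⟩ : ∃ Y' : Finset Ω, ∀ y, y ∈ Y' ↔ y ∈ Y ∧ ∀ i ∈ Finset.range (2 ^ D),
        2 ^ a * ((W₁ i).filter (fun x => R x y)).card ≤ 2 ^ (D + 2) * m₀ := by
      classical
      exact exists_filter Y _
    have hY'Y : Y' ⊆ Y := fun y hy => ((hY' y).1 hy).1
    have hYY' : Y.card ≤ 2 * Y'.card := by
      have hsub : Y ⊆ Y' ∪ (Finset.range (2 ^ D)).biUnion (fun i =>
          Y.filter (fun y => 2 ^ (D + 2) * m₀ < 2 ^ a * ((W₁ i).filter (fun x => R x y)).card)) := by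
        intro y hy
        by_cases h : y ∈ Y'
        · exact Finset.mem_union_left _ h
        · apply Finset.mem_union_right
          rw [hY'] at h
          push Not at h
          obtain ⟨i, hi, hi2⟩ := h hy
          rw [Finset.mem_biUnion]
          exact ⟨i, hi, Finset.mem_filter.2 ⟨hy, hi2⟩⟩
      have hNi : ∀ i ∈ Finset.range (2 ^ D),
          2 ^ (D + 1) * (Y.filter (fun y => 2 ^ (D + 2) * m₀ <
            2 ^ a * ((W₁ i).filter (fun x => R x y)).card)).card ≤ Y.card := by
        intro i hi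
        have hi' := Finset.mem_range.1 hi
        have h1 := markov Y (fun y => 2 ^ a * ((W₁ i).filter (fun x => R x y)).card)
          (m₀ * (2 * Y.card)) (2 ^ (D + 2) * m₀) (by
            rw [← Finset.mul_sum, ← eR_swap, eR, Finset.mul_sum]
            calc ∑ x ∈ W₁ i, 2 ^ a * (Y.filter (fun y => R x y)).card
                ≤ ∑ _x ∈ W₁ i, 2 * Y.card := by
                  refine Finset.sum_le_sum fun x hx => ?_
                  have := (hW₁a i hi').1 hx
                  rw [hX', mem_filter] at this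
                  exact this.2
              _ = m₀ * (2 * Y.card) := by
                  rw [Finset.sum_const, smul_eq_mul, (hW₁a i hi').2])
        have h2 : (2 * m₀) * (2 ^ (D + 1) * (Y.filter (fun y => 2 ^ (D + 2) * m₀ <
            2 ^ a * ((W₁ i).filter (fun x => R x y)).card)).card) ≤ (2 * m₀) * Y.card := by
          calc _ = (Y.filter (fun y => 2 ^ (D + 2) * m₀ <
            2 ^ a * ((W₁ i).filter (fun x => R x y)).card)).card * (2 ^ (D + 2) * m₀) := by
                rw [show 2 ^ (D + 2) = 2 ^ (D + 1) * 2 from pow_succ _ _]; ring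
            _ ≤ m₀ * (2 * Y.card) := h1
            _ = _ := by ring
        exact Nat.le_of_mul_le_mul_left h2 (by omega)
      have h1 := (Finset.card_le_card hsub).trans (Finset.card_union_le _ _)
      have h2 := (Finset.card_biUnion_le (s := Finset.range (2 ^ D)) (t := fun i =>
          Y.filter (fun y => 2 ^ (D + 2) * m₀ < 2 ^ a * ((W₁ i).filter (fun x => R x y)).card)))
      have h3 : 2 ^ (D + 1) * ∑ i ∈ Finset.range (2 ^ D), (Y.filter (fun y => 2 ^ (D + 2) * m₀ <
            2 ^ a * ((W₁ i).filter (fun x => R x y)).card)).card ≤ 2 ^ D * Y.card := by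
        rw [Finset.mul_sum]
        calc _ ≤ ∑ _i ∈ Finset.range (2 ^ D), Y.card := Finset.sum_le_sum hNi
          _ = _ := by rw [Finset.sum_const, Finset.card_range, smul_eq_mul]
      have h4 : 2 * ∑ i ∈ Finset.range (2 ^ D), (Y.filter (fun y => 2 ^ (D + 2) * m₀ <
            2 ^ a * ((W₁ i).filter (fun x => R x y)).card)).card ≤ Y.card := by
        have h5 : 2 ^ D * (2 * ∑ i ∈ Finset.range (2 ^ D), (Y.filter (fun y => 2 ^ (D + 2) * m₀ <
            2 ^ a * ((W₁ i).filter (fun x => R x y)).card)).card) ≤ 2 ^ D * Y.card := by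
          calc _ = 2 ^ (D + 1) * ∑ i ∈ Finset.range (2 ^ D), (Y.filter (fun y => 2 ^ (D + 2) * m₀ <
            2 ^ a * ((W₁ i).filter (fun x => R x y)).card)).card := by rw [pow_succ]; ring
            _ ≤ _ := h3
        exact Nat.le_of_mul_le_mul_left h5 (by positivity)
      omega
    have hY'A : Y' ⊆ A := hY'Y.trans hY
    obtain ⟨W₂, hW₂a, hW₂b⟩ := ih Y' (hY'A.trans hAB) (by
      have h1 : (m₀ + u) * 2 ^ (D * (w + 1)) * (2 ^ w * 2) ≤ Y'.card * (2 ^ w * 2) := by
        calc _ = (m₀ + u) * 2 ^ ((D + 1) * (w + 1)) := by rw [hpow]; ring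
          _ ≤ A.card := hA
          _ ≤ 2 ^ w * Y.card := hYc
          _ ≤ 2 ^ w * (2 * Y'.card) := Nat.mul_le_mul_left _ hYY'
          _ = _ := by ring
      exact Nat.le_of_mul_le_mul_right h1 (by positivity))
    refine ⟨fun i => if i < 2 ^ D then W₁ i else W₂ (i - 2 ^ D), ?_, ?_⟩
    · intro i hi
      by_cases h : i < 2 ^ D
      · simp only [h, if_true]
        exact ⟨(hW₁a i h).1.trans hX'A, (hW₁a i h).2⟩
      · simp only [h, if_false]
        have h2 : i - 2 ^ D < 2 ^ D := by rw [pow_succ] at hi; omega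
        exact ⟨(hW₂a _ h2).1.trans hY'A, (hW₂a _ h2).2⟩
    · intro i j hij hj
      have hj2 : ¬ j < 2 ^ D → j - 2 ^ D < 2 ^ D := by intro _; rw [pow_succ] at hj; omega
      have hle : 2 ^ (D + 1) * m₀ ≤ 2 ^ (D + 2) * m₀ :=
        Nat.mul_le_mul_right _ (Nat.pow_le_pow_right (by norm_num) (by omega))
      by_cases hjD : j < 2 ^ D
      · have hiD : i < 2 ^ D := by omega
        simp only [hjD, hiD, if_true]
        refine ⟨(hW₁b i j hij hjD).1, fun y hy => ?_⟩
        exact ((hW₁b i j hij hjD).2 y hy).trans hle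
      · by_cases hiD : i < 2 ^ D
        · simp only [hjD, hiD, if_true, if_false]
          constructor
          · have h1 : W₁ i ⊆ X := (hW₁a i hiD).1.trans (Finset.filter_subset _ _)
            have h2 : W₂ (j - 2 ^ D) ⊆ Y := (hW₂a _ (hj2 hjD)).1.trans hY'Y
            exact Finset.disjoint_of_subset_left h1 (Finset.disjoint_of_subset_right h2 hXY)
          · intro y hy
            have h1 := (hW₂a _ (hj2 hjD)).1 hy
            rw [hY'] at h1
            exact h1.2 i (Finset.mem_range.2 hiD)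
        · simp only [hjD, hiD, if_false]
          have h1 := hW₂b (i - 2 ^ D) (j - 2 ^ D) (by omega) (hj2 hjD)
          exact ⟨h1.1, fun y hy => (h1.2 y hy).trans hle⟩

/-- choose one vertex from every blob so that no two are related -/
theorem transversal (R : Ω → Ω → Prop) [DecidableRel R] (W : ℕ → Finset Ω) (a D m₀ n : ℕ)
    (hm₀ : 1 ≤ m₀) (hn : n ≤ 2 ^ D) (ha : n * 2 ^ (D + 1) < 2 ^ a)
    (hc : ∀ i < 2 ^ D, (W i).card = m₀)
    (hW : ∀ i j, i < j → j < 2 ^ D → ∀ y ∈ W j,
      2 ^ a * ((W i).filter (fun x => R x y)).card ≤ 2 ^ (D + 1) * m₀) :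
    ∃ f : ℕ → Ω, (∀ i < n, f i ∈ W i) ∧ ∀ i j, i < j → j < n → ¬ R (f i) (f j) := by
  have hne : ∃ x : Ω, x ∈ W 0 := by
    have h := hc 0 (by positivity)
    have : (W 0).Nonempty := by rw [← Finset.card_pos]; omega
    exact this
  obtain ⟨x₀, -⟩ := hne
  have key : ∀ k, k ≤ n → ∃ f : ℕ → Ω, (∀ i, n - k ≤ i → i < n → f i ∈ W i) ∧
      ∀ i j, n - k ≤ i → i < j → j < n → ¬ R (f i) (f j) := by
    intro k
    induction k with
    | zero =>
      intro _
      refine ⟨fun _ => x₀, ?_, ?_⟩
      · intro i h1 h2; omega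
      · intro i j h1 h2 h3; omega
    | succ k ih =>
      intro hk
      obtain ⟨f, hf1, hf2⟩ := ih (by omega)
      set i₀ := n - (k + 1) with hi₀
      have hi₀n : i₀ < 2 ^ D := by omega
      -- the forbidden vertices
      set F := (Finset.Ioo i₀ n).biUnion (fun j => (W i₀).filter (fun x => R x (f j))) with hF
      have hFc : F.card < (W i₀).card := by
        have h1 : F.card ≤ ∑ j ∈ Finset.Ioo i₀ n, ((W i₀).filter (fun x => R x (f j))).card :=
          Finset.card_biUnion_le
        have h2 : 2 ^ a * ∑ j ∈ Finset.Ioo i₀ n, ((W i₀).filter (fun x => R x (f j))).card ≤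
            n * (2 ^ (D + 1) * m₀) := by
          rw [Finset.mul_sum]
          calc _ ≤ ∑ _j ∈ Finset.Ioo i₀ n, 2 ^ (D + 1) * m₀ := by
                refine Finset.sum_le_sum fun j hj => ?_
                rw [Finset.mem_Ioo] at hj
                exact hW i₀ j hj.1 (by omega) (f j) (hf1 j (by omega) hj.2)
            _ = (Finset.Ioo i₀ n).card * (2 ^ (D + 1) * m₀) := by
                rw [Finset.sum_const, smul_eq_mul]
            _ ≤ n * (2 ^ (D + 1) * m₀) := by
                apply Nat.mul_le_mul_right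
                rw [Nat.card_Ioo]; omega
        have h3 : 2 ^ a * F.card < 2 ^ a * m₀ := by
          calc 2 ^ a * F.card ≤ _ := Nat.mul_le_mul_left _ h1
            _ ≤ n * (2 ^ (D + 1) * m₀) := h2
            _ = (n * 2 ^ (D + 1)) * m₀ := by ring
            _ < 2 ^ a * m₀ := Nat.mul_lt_mul_of_pos_right ha (by omega)
        rw [hc i₀ hi₀n]
        exact Nat.lt_of_mul_lt_mul_left h3
      obtain ⟨x, hx1, hx2⟩ := Finset.exists_mem_notMem_of_card_lt_card hFc
      refine ⟨Function.update f i₀ x, ?_, ?_⟩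
      · intro i h1 h2
        by_cases hi : i = i₀
        · subst hi; rw [Function.update_self]; exact hx1
        · rw [Function.update_of_ne hi]; exact hf1 i (by omega) h2
      · intro i j h1 h2 h3
        have hj : j ≠ i₀ := by omega
        rw [Function.update_of_ne hj]
        by_cases hi : i = i₀
        · subst hi
          rw [Function.update_self]
          intro hR
          apply hx2
          rw [hF, Finset.mem_biUnion]
          exact ⟨j, Finset.mem_Ioo.2 ⟨h2, h3⟩, Finset.mem_filter.2 ⟨hx1, hR⟩⟩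
        · rw [Function.update_of_ne hi]
          exact hf2 i j (by omega) h2 h3
  obtain ⟨f, hf1, hf2⟩ := key n le_rfl
  exact ⟨f, fun i hi => hf1 i (by omega) hi, fun i j hij hj => hf2 i j (by omega) hij hj⟩

/-- near-full pairs everywhere give a clique: `R` is the complement of the colour -/
theorem transversal_of_bad (R : Ω → Ω → Prop) [DecidableRel R] (B : Finset Ω) (u w a D n : ℕ)
    (hn : n ≤ 2 ^ D) (ha : n * 2 ^ (D + 1) < 2 ^ a) (hbad : Bad R B u w a)
    (hB : (1 + u) * 2 ^ (D * (w + 1)) ≤ B.card) :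
    ∃ f : ℕ → Ω, (∀ i < n, f i ∈ B) ∧ (∀ i j, i < j → j < n → f i ≠ f j) ∧
      ∀ i j, i < j → j < n → ¬ R (f i) (f j) := by
  obtain ⟨W, hW1, hW2⟩ := blobs R B u w a 1 le_rfl hbad D B (Subset.refl _) hB
  obtain ⟨f, hf1, hf2⟩ := transversal R W a D 1 n le_rfl hn ha (fun i hi => (hW1 i hi).2)
    (fun i j hij hj => (hW2 i j hij hj).2)
  refine ⟨f, fun i hi => (hW1 i (by omega)).1 (hf1 i hi), ?_, hf2⟩
  intro i j hij hj h
  have h1 := hf1 i (by omega)
  have h2 := hf1 j hj
  rw [h] at h1
  exact Finset.disjoint_left.1 (hW2 i j hij (by omega)).1 h1 h2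

end Pool.Agent.LibMP01c500
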