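import Pool.Agent.Lib_MP_01c500.TEmbed

/-!
# MP_01c500_co, three colours: one colour is sparse somewhere in every large subset
-/

set_option autoImplicit false

namespace Pool.Agent.LibMP01c500

open Finset

variable {Ω : Type*} [DecidableEq Ω]

/-- the relation: not of colour `g` -/
def NG {q : ℕ} (c : Ω → Ω → Fin q) (g : Fin q) (x y : Ω) : Prop := c x y ≠ g

instance {q : ℕ} (c : Ω → Ω → Fin q) (g : Fin q) : DecidableRel (NG c g) := fun x y => by
  unfold NG; infer_instance

theorem pairII {W : Type*} [Fintype W] [DecidableEq W] [Nonempty W]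
    (H : SimpleGraph W) [DecidableRel H.Adj]
    (c : Ω → Ω → Fin 3) (hc : ∀ x y, c x y = c y x) (r b g : Fin 3)
    (hall : ∀ j : Fin 3, j = r ∨ j = b ∨ j = g) (B : Finset Ω) (A : Finset W)
    (hSg : Sg c b A.card B) (d : ℕ)
    (hdeg : ∀ u, u ∉ A → (univ.filter (fun w => w ∉ A ∧ H.Adj u w)).card ≤ d)
    (D e a u w : ℕ) (hn : Fintype.card W ≤ 2 ^ D) (hu : 2 ^ (D + 1 + (e + 2) * d) ≤ u)
    (ha : 2 * D + 3 + (e + 2) * d + (e + 1) ≤ a)
    (hbad : Bad (Adj c r) B u w a)
    (hno : ¬ ∃ F : W → Ω, Function.Injective F ∧ ∀ u w, H.Adj u w → c (F u) (F w) = b) :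
    Bad (NG c g) B (2 * 2 ^ (D * (w + 1)) * u) (D * (w + 1) + (e + 2) * d + D + 4) e := by
  classical
  intro A' hA'B hA'
  set n := Fintype.card W with hnW
  have hn1 : 1 ≤ n := Fintype.card_pos
  set s := (e + 2) * d with hs
  set P := 2 ^ (D * (w + 1)) with hP
  have hP1 : 1 ≤ P := Nat.one_le_two_pow
  set m₀ := A'.card / (2 * P) with hm₀
  have hu1 : 1 ≤ u := le_trans Nat.one_le_two_pow hu
  have hm₀u : u ≤ m₀ := by
    rw [hm₀, Nat.le_div_iff_mul_le (by omega)]
    calc u * (2 * P) = 2 * P * u := by ring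
      _ ≤ _ := hA'
  have hm₀1 : 1 ≤ m₀ := by omega
  have hm₀le : m₀ * (2 * P) ≤ A'.card := Nat.div_mul_le_self _ _
  have hm₀lt : A'.card < (m₀ + 1) * (2 * P) := by
    have := Nat.lt_mul_div_succ A'.card (show 0 < 2 * P by omega)
    rw [← hm₀] at this
    calc A'.card < 2 * P * (m₀ + 1) := this
      _ = _ := by ring
  have hs2 : 2 ^ s * (2 * n) ≤ m₀ := by
    calc 2 ^ s * (2 * n) ≤ 2 ^ s * (2 * 2 ^ D) := Nat.mul_le_mul_left _ (Nat.mul_le_mul_left _ hn)
      _ = 2 ^ (D + 1 + s) := by rw [pow_add, pow_succ]; ring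
      _ ≤ u := hu
      _ ≤ m₀ := hm₀u
  have hs2pos : 0 < 2 ^ s * (2 * n) := by positivity
  set σ := m₀ / (2 ^ s * (2 * n)) with hσ
  have hσ1 : 1 ≤ σ := by
    rw [hσ, Nat.le_div_iff_mul_le hs2pos]
    omega
  have hσle : σ * (2 ^ s * (2 * n)) ≤ m₀ := Nat.div_mul_le_self _ _
  have hσlt : m₀ < (σ + 1) * (2 ^ s * (2 * n)) := by
    have := Nat.lt_mul_div_succ m₀ hs2pos
    rw [← hσ] at this
    calc m₀ < 2 ^ s * (2 * n) * (σ + 1) := this
      _ = _ := by ring
  have hm₀σ : m₀ ≤ 2 ^ (s + D + 2) * σ := by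
    calc m₀ ≤ (σ + 1) * (2 ^ s * (2 * n)) := hσlt.le
      _ ≤ (σ + σ) * (2 ^ s * (2 * 2 ^ D)) := Nat.mul_le_mul (by omega)
          (Nat.mul_le_mul_left _ (Nat.mul_le_mul_left _ hn))
      _ = 2 ^ (s + D + 2) * σ := by rw [pow_add, pow_add]; ring
  have hA'σ : A'.card ≤ 2 ^ (D * (w + 1) + s + D + 4) * σ := by
    calc A'.card ≤ (m₀ + 1) * (2 * P) := hm₀lt.le
      _ ≤ (m₀ + m₀) * (2 * P) := Nat.mul_le_mul_right _ (by omega)
      _ = (4 * P) * m₀ := by ring
      _ ≤ (4 * P) * (2 ^ (s + D + 2) * σ) := Nat.mul_le_mul_left _ hm₀σ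
      _ = 2 ^ (D * (w + 1) + s + D + 4) * σ := by
          rw [hP, show D * (w + 1) + s + D + 4 = D * (w + 1) + (s + D + 2) + 2 by ring, pow_add,
            pow_add]
          ring
  obtain ⟨Wb, hW1, hW2⟩ := blobs (Adj c r) B u w a m₀ hm₀1 hbad D A' hA'B (by
    have h1 : u * (2 * P) ≤ A'.card := le_trans (Nat.mul_le_mul_right _ hm₀u) hm₀le
    have h2 : 2 * ((m₀ + u) * P) ≤ 2 * A'.card := by
      calc 2 * ((m₀ + u) * P) = m₀ * (2 * P) + u * (2 * P) := by ring
        _ ≤ _ := by omega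
    have h3 : (m₀ + u) * P ≤ A'.card := by omega
    exact h3)
  -- indices of the vertices
  set ι : W → ℕ := fun v => (Fintype.equivFin W v : ℕ) with hι
  have hιlt : ∀ v, ι v < 2 ^ D := fun v => lt_of_lt_of_le (Fintype.equivFin W v).2 hn
  have hιinj : ∀ v v', ι v = ι v' → v = v' := by
    intro v v' h
    exact (Fintype.equivFin W).injective (Fin.ext h)
  set C : W → Finset Ω := fun v => Wb (ι v) with hC
  have hCA' : ∀ v, C v ⊆ A' := fun v => (hW1 _ (hιlt v)).1
  have hCc : ∀ v, (C v).card = m₀ := fun v => (hW1 _ (hιlt v)).2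
  -- the bidensity fails
  have hfail : ∃ u v : W, u ∉ A ∧ v ∉ A ∧ H.Adj u v ∧ ¬ BiD (Adj c b) (C u) (C v) σ (e + 1) := by
    by_contra hall2
    push Not at hall2
    apply hno
    obtain ⟨X, hX1, hX2, hX3⟩ := hSg
    have hne : Nonempty Ω := by
      have h : (C (Classical.arbitrary W)).Nonempty := by
        rw [← Finset.card_pos, hCc]; omega
      exact ⟨h.choose⟩
    obtain ⟨g', g1, g2, g3⟩ := greedy H (Adj c b) (fun x y hxy => hxy.symm hc) σ (e + 1)
      n hσ1 (univ.filter (fun v => v ∉ A)) ∅ C (by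
        rw [Finset.card_empty, zero_add]
        exact Finset.card_le_univ _) (by
        intro u hu v hv huv
        exact hall2 u v (Finset.mem_filter.1 hu).2 (Finset.mem_filter.1 hv).2 huv) (by
        intro v hv
        rw [hCc v]
        have e1 : ((univ.filter (fun v => v ∉ A)).filter (fun u => H.Adj v u)).card ≤ d := by
          rw [Finset.filter_filter]
          exact hdeg v (Finset.mem_filter.1 hv).2
        calc 2 ^ ((e + 1 + 1) * ((univ.filter (fun v => v ∉ A)).filter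
              (fun u => H.Adj v u)).card) * (2 * n * σ) ≤ 2 ^ s * (2 * n * σ) := by
              apply Nat.mul_le_mul_right
              apply Nat.pow_le_pow_right (by norm_num)
              exact Nat.mul_le_mul_left _ e1
          _ = σ * (2 ^ s * (2 * n)) := by ring
          _ ≤ m₀ := hσle)
    refine glue H c hc b X hX2 A hX1.ge g' ?_ ?_ ?_
    · intro u w hu hw huw
      exact g1 (by simp [hu]) (by simp [hw]) huw
    · intro u hu x hx
      exact hX3 _ (hA'B (hCA' u (g2 u (by simp [hu])).1)) x hx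
    · intro u w hu hw huw
      exact (g3 u (by simp [hu]) w (by simp [hw]) huw).2
  obtain ⟨v, v', hv, hv', hvv', hnb⟩ := hfail
  unfold BiD at hnb
  push Not at hnb
  obtain ⟨X, hX, Y, hY, hXY, hXσ, hYσ, hlt⟩ := hnb
  refine ⟨X, hX.trans (hCA' v), Y, hY.trans (hCA' v'), hXY, ?_, ?_, ?_⟩
  · exact hA'σ.trans (Nat.mul_le_mul_left _ hXσ)
  · exact hA'σ.trans (Nat.mul_le_mul_left _ hYσ)
  -- the count
  have hsplit : eR (NG c g) X Y ≤ eR (Adj c b) X Y + eR (Adj c r) X Y := by
    unfold eR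
    rw [← Finset.sum_add_distrib]
    refine Finset.sum_le_sum fun x hx => ?_
    refine le_trans (Finset.card_le_card ?_) (Finset.card_union_le _ _)
    intro y hy
    rw [mem_filter] at hy
    rw [Finset.mem_union, mem_filter, mem_filter]
    have hxy : x ≠ y := fun h => Finset.disjoint_left.1 hXY hx (h ▸ hy.1)
    rcases hall (c x y) with h | h | h
    · right; exact ⟨hy.1, hxy, h⟩
    · left; exact ⟨hy.1, hxy, h⟩
    · exact absurd h hy.2
  have hred : 2 ^ a * eR (Adj c r) X Y ≤ 2 ^ (2 * D + 3 + s) * (X.card * Y.card) := by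
    have hne : ι v ≠ ι v' := fun h => hvv'.ne (hιinj _ _ h)
    rcases lt_or_gt_of_ne hne with h | h
    · rw [eR_swap, Finset.mul_sum]
      calc ∑ y ∈ Y, 2 ^ a * (X.filter (fun x => Adj c r x y)).card
          ≤ ∑ _y ∈ Y, 2 ^ (D + 1) * m₀ := by
            refine Finset.sum_le_sum fun y hy => ?_
            refine le_trans ?_ ((hW2 _ _ h (hιlt v')).2 y (hY hy))
            apply Nat.mul_le_mul_left
            exact Finset.card_le_card (Finset.filter_subset_filter _ hX)
        _ = Y.card * (2 ^ (D + 1) * m₀) := by rw [Finset.sum_const, smul_eq_mul]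
        _ ≤ Y.card * (2 ^ (D + 1) * (2 ^ (s + D + 2) * X.card)) := by
            apply Nat.mul_le_mul_left
            apply Nat.mul_le_mul_left
            exact hm₀σ.trans (Nat.mul_le_mul_left _ hXσ)
        _ = _ := by
            rw [show 2 * D + 3 + s = (D + 1) + (s + D + 2) by ring, pow_add 2 (D + 1)]
            ring
    · unfold eR
      rw [Finset.mul_sum]
      calc ∑ x ∈ X, 2 ^ a * (Y.filter (fun y => Adj c r x y)).card
          ≤ ∑ _x ∈ X, 2 ^ (D + 1) * m₀ := by
            refine Finset.sum_le_sum fun x hx => ?_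
            refine le_trans ?_ ((hW2 _ _ h (hιlt v)).2 x (hX hx))
            apply Nat.mul_le_mul_left
            refine Finset.card_le_card ?_
            intro y hy
            rw [mem_filter] at hy ⊢
            exact ⟨hY hy.1, hy.2.symm hc⟩
        _ = X.card * (2 ^ (D + 1) * m₀) := by rw [Finset.sum_const, smul_eq_mul]
        _ ≤ X.card * (2 ^ (D + 1) * (2 ^ (s + D + 2) * Y.card)) := by
            apply Nat.mul_le_mul_left
            apply Nat.mul_le_mul_left
            exact hm₀σ.trans (Nat.mul_le_mul_left _ hYσ)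
        _ = _ := by
            rw [show 2 * D + 3 + s = (D + 1) + (s + D + 2) by ring, pow_add 2 (D + 1)]
            ring
  have hred2 : 2 ^ (e + 1) * eR (Adj c r) X Y ≤ X.card * Y.card := by
    have h1 : 2 ^ (2 * D + 3 + s) * (2 ^ (e + 1) * eR (Adj c r) X Y) ≤
        2 ^ (2 * D + 3 + s) * (X.card * Y.card) := by
      calc _ = 2 ^ (2 * D + 3 + s + (e + 1)) * eR (Adj c r) X Y := by
            rw [pow_add 2 (2 * D + 3 + s)]; ring
        _ ≤ 2 ^ a * eR (Adj c r) X Y := by
            apply Nat.mul_le_mul_right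
            exact Nat.pow_le_pow_right (by norm_num) ha
        _ ≤ _ := hred
    exact Nat.le_of_mul_le_mul_left h1 (by positivity)
  have h4 : 2 * (2 ^ e * eR (NG c g) X Y) ≤ 2 * (X.card * Y.card) := by
    calc 2 * (2 ^ e * eR (NG c g) X Y) = 2 ^ (e + 1) * eR (NG c g) X Y := by rw [pow_succ]; ring
      _ ≤ 2 ^ (e + 1) * (eR (Adj c b) X Y + eR (Adj c r) X Y) := Nat.mul_le_mul_left _ hsplit
      _ = 2 ^ (e + 1) * eR (Adj c b) X Y + 2 ^ (e + 1) * eR (Adj c r) X Y := by ring
      _ ≤ _ := by omega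
  omega

/-- a clique of colour `g` from near-full pairs -/
theorem clique_of_bad {q : ℕ} {W : Type*} [Fintype W] (H : SimpleGraph W)
    (c : Ω → Ω → Fin q) (hc : ∀ x y, c x y = c y x) (g : Fin q) (B : Finset Ω) (D u w e : ℕ)
    (hn : Fintype.card W ≤ 2 ^ D) (he : 2 * D + 2 ≤ e) (hbad : Bad (NG c g) B u w e)
    (hB : (1 + u) * 2 ^ (D * (w + 1)) ≤ B.card) :
    ∃ F : W → Ω, Function.Injective F ∧ ∀ u w, H.Adj u w → c (F u) (F w) = g := by
  classical
  obtain ⟨f, -, hf2, hf3⟩ := transversal_of_bad (NG c g) B u w e D (Fintype.card W) hn (by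
    calc Fintype.card W * 2 ^ (D + 1) ≤ 2 ^ D * 2 ^ (D + 1) := Nat.mul_le_mul_right _ hn
      _ = 2 ^ (2 * D + 1) := by rw [← pow_add]; congr 1; ring
      _ < 2 ^ (2 * D + 2) := Nat.pow_lt_pow_right (by norm_num) (by omega)
      _ ≤ 2 ^ e := Nat.pow_le_pow_right (by norm_num) he) hbad hB
  refine ⟨fun v => f (Fintype.equivFin W v : ℕ), ?_, ?_⟩
  · intro v v' hvv'
    by_contra hne
    have hne2 : (Fintype.equivFin W v : ℕ) ≠ (Fintype.equivFin W v' : ℕ) := by
      intro h
      exact hne ((Fintype.equivFin W).injective (Fin.ext h))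
    rcases lt_or_gt_of_ne hne2 with h | h
    · exact hf2 _ _ h (Fintype.equivFin W v').2 hvv'
    · exact hf2 _ _ h (Fintype.equivFin W v).2 hvv'.symm
  · intro v v' hvv'
    have hne2 : (Fintype.equivFin W v : ℕ) ≠ (Fintype.equivFin W v' : ℕ) := by
      intro h
      exact hvv'.ne ((Fintype.equivFin W).injective (Fin.ext h))
    rcases lt_or_gt_of_ne hne2 with h | h
    · have := hf3 _ _ h (Fintype.equivFin W v').2
      unfold NG at this
      push Not at this
      exact this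
    · have := hf3 _ _ h (Fintype.equivFin W v).2
      unfold NG at this
      push Not at this
      rw [hc]
      exact this

/-- the width of a near-full pair -/
def wG (D d w : ℕ) : ℕ := D * (w + 1) + (2 * D + 4) * d + D + 4

/-- the loss of Case II -/
def loss (D d w : ℕ) : ℕ := D * (wG D d w + 1) + D * (w + 1) + 2

/-- the sparsity that Case II needs -/
def aa (D d : ℕ) : ℕ := 4 * D + 6 + (2 * D + 4) * d

theorem caseII {W : Type*} [Fintype W] [DecidableEq W] [Nonempty W]
    (H : SimpleGraph W) [DecidableRel H.Adj]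
    (c : Ω → Ω → Fin 3) (hc : ∀ x y, c x y = c y x) (r b g : Fin 3)
    (hall : ∀ j : Fin 3, j = r ∨ j = b ∨ j = g) (B : Finset Ω) (A : Finset W)
    (hSg : Sg c b A.card B) (d : ℕ)
    (hdeg : ∀ u, u ∉ A → (univ.filter (fun w => w ∉ A ∧ H.Adj u w)).card ≤ d)
    (D u w : ℕ) (hn : Fintype.card W ≤ 2 ^ D) (hu : 2 ^ (D + 1 + (2 * D + 4) * d) ≤ u)
    (hbad : Bad (Adj c r) B u w (aa D d)) (hB : 2 ^ loss D d w * u ≤ B.card) :
    ∃ i : Fin 3, ∃ F : W → Ω, Function.Injective F ∧ ∀ u w, H.Adj u w → c (F u) (F w) = i := by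
  classical
  by_contra hcon
  push Not at hcon
  have h1 := pairII H c hc r b g hall B A hSg d hdeg D (2 * D + 2) (aa D d) u w hn
    (by simpa using hu) (by unfold aa; linarith) hbad (by
      rintro ⟨F, hF1, hF2⟩
      obtain ⟨x, y, hxy, hh⟩ := hcon b F hF1
      exact hh (hF2 x y hxy))
  have hu1 : 1 ≤ u := le_trans Nat.one_le_two_pow hu
  obtain ⟨F, hF1, hF2⟩ := clique_of_bad H c hc g B D _ _ (2 * D + 2) hn le_rfl h1 (by
    refine le_trans ?_ hB
    have e1 : D * (w + 1) + (2 * D + 2 + 2) * d + D + 4 = wG D d w := by unfold wG; ring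
    rw [e1]
    set P := 2 ^ (D * (w + 1)) with hP
    have hP1 : 1 ≤ P := Nat.one_le_two_pow
    have h2 : 1 ≤ 2 * P * u := by
      have : 1 ≤ P * u := Nat.one_le_iff_ne_zero.2 (by positivity)
      nlinarith
    calc (1 + 2 * P * u) * 2 ^ (D * (wG D d w + 1))
        ≤ (2 * P * u + 2 * P * u) * 2 ^ (D * (wG D d w + 1)) :=
          Nat.mul_le_mul_right _ (by omega)
      _ = 2 ^ loss D d w * u := by
          unfold loss
          rw [pow_add, pow_add, ← hP]
          ring)
  obtain ⟨x, y, hxy, hh⟩ := hcon g F hF1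
  exact hh (hF2 x y hxy)

end Pool.Agent.LibMP01c500
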