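import Pool.Agent.Lib_MP_01c500.TGreedy

/-!
# MP_01c500_co, three colours: dependent random choice with `t` samples
-/

set_option autoImplicit false

namespace Pool.Agent.LibMP01c500

open Finset

variable {Ω : Type*} [DecidableEq Ω] {q : ℕ}

/-- one level of dependent random choice with `t` samples -/
theorem drcT (c : Ω → Ω → Fin q) (hc : ∀ x y, c x y = c y x) (i : Fin q) (V : Finset Ω)
    (d K G t : ℕ) (ht : 1 ≤ t) (hG : 1 ≤ G)
    (hdens : V.card * V.card ≤ G * ∑ y ∈ V, (Nb c i V y).card)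
    (hV : 0 < V.card) (hM : 2 * G ^ t * (V.card ^ d * K ^ t) ≤ V.card ^ t) :
    ∃ Q ⊆ V, V.card ≤ 2 * G ^ t * Q.card ∧
      ∀ z : Fin d → Ω, (∀ l, z l ∈ Q) → K ≤ (CNb c i V z).card := by
  classical
  by_contra hcon
  push Not at hcon
  set M := V.card with hMdef
  set R := 2 * G ^ t with hR
  set Z := (Fintype.piFinset (fun _ : Fin d => V)).filter (fun z => (CNb c i V z).card < K) with hZ
  set TT := Fintype.piFinset (fun _ : Fin t => V) with hTT
  have hTTc : TT.card = M ^ t := Fintype.card_piFinset_const _ _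
  have hRpos : 0 < R := by positivity
  have hpt : ∀ T ∈ TT, R * (CNb c i V T).card + 1 ≤
      M + R * M * (Z.filter (fun z => ∀ l, z l ∈ CNb c i V T)).card := by
    intro T hT
    by_cases h1 : M ≤ R * (CNb c i V T).card
    · obtain ⟨z, hz1, hz2⟩ := hcon (CNb c i V T) (Finset.filter_subset _ _) h1
      have hzm : z ∈ Z.filter (fun z => ∀ l, z l ∈ CNb c i V T) := by
        rw [mem_filter, hZ, mem_filter, Fintype.mem_piFinset]
        exact ⟨⟨fun l => Finset.filter_subset _ _ (hz1 l), hz2⟩, hz1⟩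
      have hcard : 1 ≤ (Z.filter (fun z => ∀ l, z l ∈ CNb c i V T)).card :=
        Finset.card_pos.2 ⟨z, hzm⟩
      have h3 : (CNb c i V T).card ≤ M := Finset.card_filter_le _ _
      calc R * (CNb c i V T).card + 1 ≤ R * M + M := by
            have := Nat.mul_le_mul_left R h3
            omega
        _ ≤ M + R * M * (Z.filter (fun z => ∀ l, z l ∈ CNb c i V T)).card := by
            have := Nat.mul_le_mul_left (R * M) hcard
            omega
    · push Not at h1
      omega
  have hsum := Finset.sum_le_sum hpt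
  rw [Finset.sum_add_distrib, Finset.sum_add_distrib, ← Finset.mul_sum, ← Finset.mul_sum,
    Finset.sum_const, Finset.sum_const, hTTc, smul_eq_mul, smul_eq_mul, mul_one,
    hTT, sum_CNb c hc i V t] at hsum
  have hbad := sum_bad c hc i V t d K
  have hMt : 0 < M ^ t := Nat.pow_pos hV
  have hlow : M ^ (t + 1) ≤ G ^ t * ∑ y ∈ V, (Nb c i V y).card ^ t := by
    have h1 := power_mean V (fun y => (Nb c i V y).card) t (by omega)
    have h2 : (M * M) ^ t ≤ (G * ∑ y ∈ V, (Nb c i V y).card) ^ t := Nat.pow_le_pow_left hdens t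
    rw [mul_pow G] at h2
    have h3 : (M * M) ^ t ≤ G ^ t * (M ^ (t - 1) * ∑ y ∈ V, (Nb c i V y).card ^ t) :=
      h2.trans (Nat.mul_le_mul_left _ h1)
    have h4 : (M * M) ^ t = M ^ (t - 1) * M ^ (t + 1) := by
      rw [← pow_add, ← pow_two, ← pow_mul]
      congr 1
      omega
    rw [h4] at h3
    have h5 : M ^ (t - 1) * M ^ (t + 1) ≤ M ^ (t - 1) * (G ^ t * ∑ y ∈ V, (Nb c i V y).card ^ t) := by
      calc _ ≤ _ := h3
        _ = _ := by ring
    exact Nat.le_of_mul_le_mul_left h5 (Nat.pow_pos hV)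
  have hlow2 : 2 * M ^ (t + 1) ≤ R * ∑ y ∈ V, (Nb c i V y).card ^ t := by
    rw [hR, mul_assoc]
    exact Nat.mul_le_mul_left _ hlow
  have h6 : 2 * M ^ (t + 1) + M ^ t ≤ M ^ t * M + R * M * (M ^ d * K ^ t) := by
    calc _ ≤ R * ∑ y ∈ V, (Nb c i V y).card ^ t + M ^ t := by omega
      _ ≤ _ := hsum
      _ ≤ _ := Nat.add_le_add_left (Nat.mul_le_mul_left _ hbad) _
  have h7 : M ^ t * M = M ^ (t + 1) := (pow_succ _ _).symm
  have h8 : M ^ (t + 1) < R * M * (M ^ d * K ^ t) := by omega
  have h9 : R * M * (M ^ d * K ^ t) ≤ M ^ (t + 1) := by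
    calc R * M * (M ^ d * K ^ t) = (R * (M ^ d * K ^ t)) * M := by ring
      _ ≤ M ^ t * M := Nat.mul_le_mul_right _ hM
      _ = M ^ (t + 1) := h7
  omega

/-- state of one colour inside a fixed set `V₀`: `X` = single vertices, `P r ⊇ Q r` = levels -/
def StG (c : Ω → Ω → Fin q) (V₀ : Finset Ω) (d K : ℕ) (i : Fin q) (a b : ℕ) (V : Finset Ω) :
    Prop :=
  ∃ (X : Finset Ω) (P Q : ℕ → Finset Ω),
    X.card = a ∧ (∀ x ∈ X, ∀ x' ∈ X, x ≠ x' → c x x' = i) ∧
    (∀ y ∈ V, ∀ x ∈ X, Adj c i x y) ∧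
    (∀ r < b, (∀ y ∈ P r, ∀ x ∈ X, Adj c i x y) ∧ Q r ⊆ P r ∧ V ⊆ Q r ∧ P r ⊆ V₀ ∧
      ∀ z : Fin d → Ω, (∀ l, z l ∈ Q r) → K ≤ (CNb c i (P r) z).card) ∧
    (∀ r s, r < s → s < b → P s ⊆ Q r)

theorem StG.mono {c : Ω → Ω → Fin q} {V₀ : Finset Ω} {d K : ℕ} {i : Fin q} {a b : ℕ}
    {V V' : Finset Ω} (h : StG c V₀ d K i a b V) (hV : V' ⊆ V) : StG c V₀ d K i a b V' := by
  obtain ⟨X, P, Q, h1, h2, h3, h4, h5⟩ := h
  exact ⟨X, P, Q, h1, h2, fun y hy => h3 y (hV hy), fun r hr =>
    ⟨(h4 r hr).1, (h4 r hr).2.1, hV.trans (h4 r hr).2.2.1, (h4 r hr).2.2.2⟩, h5⟩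

/-- `L` single vertices of colour `i` joined to `V` -/
def Sg (c : Ω → Ω → Fin q) (i : Fin q) (a : ℕ) (V : Finset Ω) : Prop :=
  ∃ X : Finset Ω, X.card = a ∧ (∀ x ∈ X, ∀ x' ∈ X, x ≠ x' → c x x' = i) ∧
    ∀ y ∈ V, ∀ x ∈ X, Adj c i x y

omit [DecidableEq Ω] in
theorem Sg.mono {c : Ω → Ω → Fin q} {i : Fin q} {a : ℕ} {V V' : Finset Ω}
    (h : Sg c i a V) (hV : V' ⊆ V) : Sg c i a V' := by
  obtain ⟨X, h1, h2, h3⟩ := h
  exact ⟨X, h1, h2, fun y hy => h3 y (hV hy)⟩

omit [DecidableEq Ω] in
theorem Sg.zero (c : Ω → Ω → Fin q) (i : Fin q) (V : Finset Ω) : Sg c i 0 V :=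
  ⟨∅, by simp, by simp, by simp⟩

theorem Sg.single {c : Ω → Ω → Fin q} (hc : ∀ x y, c x y = c y x) {i : Fin q} {a : ℕ}
    {V : Finset Ω} (h : Sg c i a V) {x : Ω} (hx : x ∈ V) : Sg c i (a + 1) (Nb c i V x) := by
  obtain ⟨X, h1, h2, h3⟩ := h
  have hxX : x ∉ X := fun hh => (h3 x hx x hh).1 rfl
  refine ⟨insert x X, ?_, ?_, ?_⟩
  · rw [card_insert_of_notMem hxX, h1]
  · intro y hy y' hy' hne
    rw [mem_insert] at hy hy'
    rcases hy with rfl | hy
    · rcases hy' with rfl | hy'
      · exact absurd rfl hne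
      · rw [hc]; exact (h3 y hx y' hy').2
    · rcases hy' with rfl | hy'
      · exact (h3 y' hx y hy).2
      · exact h2 y hy y' hy' hne
  · intro y hy x' hx'
    unfold Nb at hy
    rw [mem_filter] at hy
    rw [mem_insert] at hx'
    rcases hx' with rfl | hx'
    · exact hy.2
    · exact h3 y hy.1 x' hx'

theorem Sg.toStG {c : Ω → Ω → Fin q} {V₀ : Finset Ω} {d K : ℕ} {i : Fin q} {a : ℕ}
    {V : Finset Ω} (h : Sg c i a V) : StG c V₀ d K i a 0 V := by
  obtain ⟨X, h1, h2, h3⟩ := h
  refine ⟨X, fun _ => ∅, fun _ => ∅, h1, h2, h3, ?_, ?_⟩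
  · intro r hr; omega
  · intro r s _ hs; omega

theorem StG.toSg {c : Ω → Ω → Fin q} {V₀ : Finset Ω} {d K : ℕ} {i : Fin q} {a b : ℕ}
    {V : Finset Ω} (h : StG c V₀ d K i a b V) : Sg c i a V := by
  obtain ⟨X, P, Q, h1, h2, h3, -, -⟩ := h
  exact ⟨X, h1, h2, h3⟩

theorem StG.level {c : Ω → Ω → Fin q} {V₀ : Finset Ω} {d K : ℕ} {i : Fin q} {a b : ℕ}
    {V V' : Finset Ω} (h : StG c V₀ d K i a b V) (hV₀ : V ⊆ V₀) (hV' : V' ⊆ V)
    (hz : ∀ z : Fin d → Ω, (∀ l, z l ∈ V') → K ≤ (CNb c i V z).card) :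
    StG c V₀ d K i a (b + 1) V' := by
  obtain ⟨X, P, Q, h1, h2, h3, h4, h5⟩ := h
  refine ⟨X, fun r => if r = b then V else P r, fun r => if r = b then V' else Q r, h1, h2, ?_, ?_, ?_⟩
  · intro y hy; exact h3 y (hV' hy)
  · intro r hr
    by_cases hrb : r = b
    · simp only [hrb, if_true]
      exact ⟨h3, hV', Subset.refl _, hV₀, hz⟩
    · simp only [hrb, if_false]
      have := h4 r (by omega)
      exact ⟨this.1, this.2.1, hV'.trans this.2.2.1, this.2.2.2⟩
  · intro r s hrs hs
    have hr : r ≠ b := by omega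
    simp only [hr, if_false]
    by_cases hsb : s = b
    · simp only [hsb, if_true]
      exact (h4 r (by omega)).2.2.1
    · simp only [hsb, if_false]
      exact h5 r s hrs (by omega)

/-- the chain of levels, with `t` samples per level -/
theorem chainT (c : Ω → Ω → Fin q) (hc : ∀ x y, c x y = c y x) (hq : 1 ≤ q)
    (V₀ : Finset Ω) (d K L k t : ℕ) (ht : 1 ≤ t) (M₀ M₁ : ℕ)
    (hM : ∀ M, M₀ ≤ M → M ≤ M₁ → 2 * (2 * q) ^ t * (M ^ d * K ^ t) ≤ M ^ t) (hM₀' : 2 ≤ M₀) :
    ∀ (n : ℕ) (a b : Fin q → ℕ) (V : Finset Ω), (∀ i, a i ≤ L) → (∀ i, b i ≤ k) →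
      (∀ i, a i < L → b i = 0) → (∀ i, StG c V₀ d K i (a i) (b i) V) → V ⊆ V₀ →
      ∑ i, (L - a i) + ∑ i, (k - b i) = n → V.card ≤ M₁ →
      M₀ * (2 * q) ^ (∑ i, (L - a i)) * (2 * (2 * q) ^ t) ^ (∑ i, (k - b i)) ≤ V.card →
      ∃ i, ∃ V' : Finset Ω, V'.Nonempty ∧ V' ⊆ V ∧ StG c V₀ d K i L k V' := by
  intro n
  induction n with
  | zero =>
    intro a b V ha hb hab hSt hVV hn hV1 hV
    have : Nonempty (Fin q) := ⟨⟨0, by omega⟩⟩
    obtain ⟨i⟩ := ‹Nonempty (Fin q)›
    have h1 : ∑ i, (L - a i) = 0 := by omega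
    have h2 : ∑ i, (k - b i) = 0 := by omega
    rw [h1, h2] at hV
    rw [Finset.sum_eq_zero_iff] at h1 h2
    have h3 := h1 i (Finset.mem_univ i)
    have h4 := h2 i (Finset.mem_univ i)
    have h5 := ha i
    have h6 := hb i
    have h7 : a i = L := by omega
    have h8 : b i = k := by omega
    refine ⟨i, V, ?_, Subset.refl _, ?_⟩
    · rw [← Finset.card_pos]
      simp at hV
      omega
    · have := hSt i
      rwa [h7, h8] at this
  | succ n ih =>
    intro a b V ha hb hab hSt hVV hn hV1 hV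
    set s := ∑ i, (L - a i) with hs
    set u := ∑ i, (k - b i) with hu
    set G := 2 * q with hG
    set R := 2 * G ^ t with hR
    have hGpos : 0 < G := by omega
    have hRpos : 0 < R := by positivity
    have hVM : M₀ ≤ V.card := by
      have h1 : 1 ≤ G ^ s := Nat.one_le_pow _ _ hGpos
      have h2 : 1 ≤ R ^ u := Nat.one_le_pow _ _ hRpos
      calc M₀ = M₀ * 1 * 1 := by ring
        _ ≤ M₀ * G ^ s * R ^ u := Nat.mul_le_mul (Nat.mul_le_mul_left _ h1) h2
        _ ≤ V.card := hV
    obtain ⟨i, hi⟩ := dense_colour c hq V (by omega)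
    by_cases hai : a i < L
    · have hbi : b i = 0 := hab i hai
      have hex : ∃ x ∈ V, V.card ≤ G * (Nb c i V x).card := by
        by_contra hcon
        push Not at hcon
        have hne : V.Nonempty := by rw [← Finset.card_pos]; omega
        have := Finset.sum_lt_sum_of_nonempty hne hcon
        rw [← Finset.mul_sum, Finset.sum_const, smul_eq_mul] at this
        exact absurd this (not_lt.2 hi)
      obtain ⟨x, hx, hxc⟩ := hex
      have hsu := sum_update (L := L) a i hai
      rw [← hs] at hsu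
      have hNbV : Nb c i V x ⊆ V := Finset.filter_subset _ _
      obtain ⟨j₀, V', h1', h2', h3'⟩ := ih (Function.update a i (a i + 1)) b (Nb c i V x)
        (by
          intro j
          by_cases hj : j = i
          · subst hj; rw [Function.update_self]; omega
          · rw [Function.update_of_ne hj]; exact ha j) hb
        (by
          intro j
          by_cases hj : j = i
          · subst hj; intro _; exact hbi
          · rw [Function.update_of_ne hj]; exact hab j)
        (by
          intro j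
          by_cases hj : j = i
          · subst hj
            rw [Function.update_self, hbi]
            exact ((hSt j).toSg.single hc hx).toStG
          · rw [Function.update_of_ne hj]
            exact (hSt j).mono (Finset.filter_subset _ _))
        (hNbV.trans hVV) (by omega) ((Finset.card_le_card hNbV).trans hV1)
        (by
          set s' := ∑ j, (L - Function.update a i (a i + 1) j) with hs'
          rw [← hsu, pow_succ] at hV
          have h3 : G * (M₀ * G ^ s' * R ^ u) ≤ G * (Nb c i V x).card := by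
            calc G * (M₀ * G ^ s' * R ^ u) = M₀ * (G ^ s' * G) * R ^ u := by ring
              _ ≤ V.card := hV
              _ ≤ _ := hxc
          exact Nat.le_of_mul_le_mul_left h3 hGpos)
      exact ⟨j₀, V', h1', h2'.trans hNbV, h3'⟩
    · have haL : a i = L := by have := ha i; omega
      by_cases hbi : b i < k
      · obtain ⟨V', hV'1, hV'2, hV'3⟩ := drcT c hc i V d K G t ht hGpos hi (by omega)
          (hM V.card hVM hV1)
        have hsu := sum_update (L := k) b i hbi
        rw [← hu] at hsu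
        obtain ⟨j₀, V'', h1', h2', h3'⟩ := ih a (Function.update b i (b i + 1)) V' ha
          (by
            intro j
            by_cases hj : j = i
            · subst hj; rw [Function.update_self]; omega
            · rw [Function.update_of_ne hj]; exact hb j)
          (by
            intro j hj
            by_cases hji : j = i
            · subst hji; omega
            · rw [Function.update_of_ne hji]; exact hab j hj)
          (by
            intro j
            by_cases hj : j = i
            · subst hj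
              rw [Function.update_self]
              exact (hSt j).level hVV hV'1 hV'3
            · rw [Function.update_of_ne hj]
              exact (hSt j).mono hV'1)
          (hV'1.trans hVV) (by omega) ((Finset.card_le_card hV'1).trans hV1)
          (by
            set u' := ∑ j, (k - Function.update b i (b i + 1) j) with hu'
            rw [← hsu, pow_succ] at hV
            have h3 : R * (M₀ * G ^ s * R ^ u') ≤ R * V'.card := by
              calc R * (M₀ * G ^ s * R ^ u') = M₀ * G ^ s * (R ^ u' * R) := by ring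
                _ ≤ V.card := hV
                _ ≤ _ := hV'2
            exact Nat.le_of_mul_le_mul_left h3 hRpos)
        exact ⟨j₀, V'', h1', h2'.trans hV'1, h3'⟩
      · have hbk : b i = k := by have := hb i; omega
        refine ⟨i, V, ?_, Subset.refl _, ?_⟩
        · rw [← Finset.card_pos]; omega
        · have := hSt i
          rwa [haL, hbk] at this

end Pool.Agent.LibMP01c500
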