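import Pool.Agent.Lib_MP_01c500.TDrc

/-!
# MP_01c500_co, three colours: embedding along a chain inside a bidense set
-/

set_option autoImplicit false

namespace Pool.Agent.LibMP01c500

open Finset

variable {Ω : Type*} [DecidableEq Ω] {q : ℕ}

/-- add the vertices of `A` -/
theorem glue {W : Type*} [Fintype W] [DecidableEq W] (H : SimpleGraph W)
    (c : Ω → Ω → Fin q) (hc : ∀ x y, c x y = c y x) (i : Fin q) (X : Finset Ω)
    (hX : ∀ x ∈ X, ∀ x' ∈ X, x ≠ x' → c x x' = i) (A : Finset W) (hA : A.card ≤ X.card)
    (g : W → Ω) (g1 : ∀ u w, u ∉ A → w ∉ A → g u = g w → u = w)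
    (g2 : ∀ u, u ∉ A → ∀ x ∈ X, Adj c i x (g u))
    (g3 : ∀ u w, u ∉ A → w ∉ A → H.Adj u w → c (g u) (g w) = i) :
    ∃ F : W → Ω, Function.Injective F ∧ ∀ u w, H.Adj u w → c (F u) (F w) = i := by
  classical
  obtain ⟨e, he1, he2⟩ : ∃ e : W → Ω, (∀ u ∈ A, e u ∈ X) ∧ Set.InjOn e A := by
    obtain ⟨X', hX', hX'c⟩ := Finset.exists_subset_card_eq hA
    have eqv : A ≃ X' := Finset.equivOfCardEq hX'c.symm
    refine ⟨fun u => if h : u ∈ A then (eqv ⟨u, h⟩ : Ω) else g u, ?_, ?_⟩
    · intro u hu
      simp only [hu, dif_pos]
      exact hX' (eqv ⟨u, hu⟩).2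
    · intro u hu w hw huw
      have hu' : u ∈ A := hu
      have hw' : w ∈ A := hw
      simp only [hu', hw', dif_pos] at huw
      have := eqv.injective (Subtype.ext huw)
      exact congrArg Subtype.val this
  have hmix : ∀ u ∈ A, ∀ w, w ∉ A → Adj c i (e u) (g w) :=
    fun u hu w hw => g2 w hw (e u) (he1 u hu)
  refine ⟨fun u => if u ∈ A then e u else g u, ?_, ?_⟩
  · intro u w huw
    by_cases hu : u ∈ A
    · by_cases hw : w ∈ A
      · simp only [hu, hw, if_true] at huw
        exact he2 hu hw huw
      · simp only [hu, hw, if_true, if_false] at huw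
        exact absurd huw (hmix u hu w hw).1
    · by_cases hw : w ∈ A
      · simp only [hu, hw, if_true, if_false] at huw
        exact absurd huw.symm (hmix w hw u hu).1
      · simp only [hu, hw, if_false] at huw
        exact g1 u w hu hw huw
  · intro u w huw
    by_cases hu : u ∈ A
    · by_cases hw : w ∈ A
      · simp only [hu, hw, if_true]
        refine hX _ (he1 u hu) _ (he1 w hw) ?_
        intro hh
        exact huw.ne (he2 hu hw hh)
      · simp only [hu, hw, if_true, if_false]
        exact (hmix u hu w hw).2
    · by_cases hw : w ∈ A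
      · simp only [hu, hw, if_true, if_false]
        rw [hc]
        exact (hmix w hw u hu).2
      · simp only [hu, hw, if_false]
        exact g3 u w hu hw huw

theorem embedI {W : Type*} [Fintype W] [DecidableEq W] (H : SimpleGraph W) [DecidableRel H.Adj]
    (c : Ω → Ω → Fin q) (hc : ∀ x y, c x y = c y x) (V₀ : Finset Ω) (d K L k : ℕ) (i : Fin q)
    (V : Finset Ω) (hV : V.Nonempty) (hSt : StG c V₀ d K i L k V) (σ e δ : ℕ) (hσ : 1 ≤ σ)
    (hBi : BiD (Adj c i) V₀ V₀ σ e)
    (hK : 2 ^ ((e + 1) * δ) * (2 * Fintype.card W * σ) ≤ K)
    (A : Finset W) (hA : A.card ≤ L) (f : W → ℕ) (hf : ∀ u, u ∉ A → f u < k)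
    (hdeg : ∀ u, u ∉ A → (univ.filter (fun w => w ∉ A ∧ H.Adj u w)).card ≤ d)
    (hint : ∀ u, u ∉ A → (univ.filter (fun w => w ∉ A ∧ H.Adj u w ∧ f w = f u)).card ≤ δ) :
    ∃ F : W → Ω, Function.Injective F ∧ ∀ u w, H.Adj u w → c (F u) (F w) = i := by
  classical
  obtain ⟨X, P, Q, h1, h2, h3, h4, h5⟩ := hSt
  obtain ⟨v₀, hv₀⟩ := hV
  haveI : Nonempty Ω := ⟨v₀⟩
  have key : ∀ j, j ≤ k → ∃ g : W → Ω,
      (∀ u w, u ∉ A → w ∉ A → k - j ≤ f u → k - j ≤ f w → g u = g w → u = w) ∧
      (∀ u, u ∉ A → k - j ≤ f u → g u ∈ P (f u)) ∧
      ∀ u w, u ∉ A → w ∉ A → k - j ≤ f u → k - j ≤ f w → H.Adj u w → c (g u) (g w) = i := by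
    intro j
    induction j with
    | zero =>
      intro _
      refine ⟨fun _ => v₀, ?_, ?_, ?_⟩
      · intro u w hu _ h _ _
        have := hf u hu
        omega
      · intro u hu h
        have := hf u hu
        omega
      · intro u w hu _ h _ _
        have := hf u hu
        omega
    | succ j ih =>
      intro hj
      obtain ⟨g, g1, g2, g3⟩ := ih (by omega)
      set r := k - (j + 1) with hr
      have hrk : k - j = r + 1 := by omega
      have hrk' : r < k := by omega
      rw [hrk] at g1 g2 g3
      set Sd : Finset W := univ.filter (fun u => u ∉ A ∧ r + 1 ≤ f u) with hSd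
      set T : Finset W := univ.filter (fun u => u ∉ A ∧ f u = r) with hT
      -- candidate sets
      have hz : ∀ v : W, v ∉ A → ∃ z : Fin d → Ω, (∀ l, z l ∈ Q r) ∧
          ∀ w ∈ Sd, H.Adj v w → ∃ l, z l = g w := by
        intro v hv
        set N := Sd.filter (fun w => H.Adj v w) with hN
        have hNd : N.card ≤ d := by
          refine le_trans (Finset.card_le_card ?_) (hdeg v hv)
          intro w hw
          rw [hN, mem_filter, hSd, mem_filter] at hw
          rw [mem_filter]
          exact ⟨Finset.mem_univ _, hw.1.2.1, hw.2⟩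
        have hQ : N.image g ⊆ Q r := by
          intro y hy
          rw [mem_image] at hy
          obtain ⟨w, hw, rfl⟩ := hy
          rw [hN, mem_filter, hSd, mem_filter] at hw
          exact h5 r (f w) (by omega) (hf w hw.1.2.1) (g2 w hw.1.2.1 hw.1.2.2)
        obtain ⟨z, hz1, hz2⟩ := exists_tuple d (N.image g) (Finset.card_image_le.trans hNd)
          (Q r) hQ v₀ ((h4 r hrk').2.2.1 hv₀)
        refine ⟨z, hz1, fun w hw hvw => hz2 (g w) ?_⟩
        exact Finset.mem_image_of_mem g (Finset.mem_filter.2 ⟨hw, hvw⟩)
      choose z hz1 hz2 using hz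
      set C : W → Finset Ω := fun v => if h : v ∉ A then CNb c i (P r) (z v h) else ∅ with hC
      have hCv : ∀ v (h : v ∉ A), C v = CNb c i (P r) (z v h) := by
        intro v h
        simp only [hC, h, not_false_eq_true, dif_pos]
      have hCP : ∀ v, C v ⊆ P r := by
        intro v
        by_cases h : v ∉ A
        · rw [hCv v h]
          exact Finset.filter_subset _ _
        · simp only [hC, h, dif_neg, not_false_eq_true]
          exact Finset.empty_subset _
      have hPV := (h4 r hrk').2.2.2.1
      obtain ⟨h, hh1, hh2, hh3⟩ := greedy H (Adj c i) (fun x y hxy => hxy.symm hc) σ e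
        (Fintype.card W) hσ T (Sd.image g) C (by
          calc (Sd.image g).card + T.card ≤ Sd.card + T.card :=
                Nat.add_le_add_right Finset.card_image_le _
            _ = (Sd ∪ T).card := by
                rw [Finset.card_union_of_disjoint]
                rw [Finset.disjoint_left]
                intro u hu hu'
                rw [hSd, mem_filter] at hu
                rw [hT, mem_filter] at hu'
                omega
            _ ≤ Fintype.card W := Finset.card_le_univ _) (by
          intro u _ v _ _
          exact hBi.mono ((hCP u).trans hPV) ((hCP v).trans hPV)) (by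
          intro v hv
          rw [hT, mem_filter] at hv
          have e1 : (T.filter (fun u => H.Adj v u)).card ≤ δ := by
            refine le_trans (Finset.card_le_card ?_) (hint v hv.2.1)
            intro w hw
            rw [mem_filter, hT, mem_filter] at hw
            rw [mem_filter]
            exact ⟨Finset.mem_univ _, hw.1.2.1, hw.2, by rw [hw.1.2.2, hv.2.2]⟩
          rw [hCv v hv.2.1]
          calc _ ≤ 2 ^ ((e + 1) * δ) * (2 * Fintype.card W * σ) := by
                apply Nat.mul_le_mul_right
                apply Nat.pow_le_pow_right (by norm_num)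
                exact Nat.mul_le_mul_left _ e1
            _ ≤ K := hK
            _ ≤ _ := (h4 r hrk').2.2.2.2 _ (hz1 v hv.2.1))
      have hTiff : ∀ u, u ∉ A → (u ∈ T ↔ f u = r) := by
        intro u hu
        rw [hT, mem_filter]
        simp [hu]
      -- adjacency between the new level and the old ones
      have hcross : ∀ v w, v ∉ A → w ∉ A → f v = r → r + 1 ≤ f w → H.Adj v w →
          Adj c i (g w) (h v) := by
        intro v w hv hw hfv hfw hvw
        have e1 := (hh2 v ((hTiff v hv).2 hfv)).1
        rw [hCv v hv] at e1
        unfold CNb at e1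
        rw [mem_filter] at e1
        obtain ⟨l, hl⟩ := hz2 v hv w (by rw [hSd, mem_filter]; exact ⟨Finset.mem_univ _, hw, hfw⟩) hvw
        rw [← hl]
        exact e1.2 l
      refine ⟨fun u => if f u = r then h u else g u, ?_, ?_, ?_⟩
      · intro u w hu hw hfu hfw huw
        by_cases hur : f u = r
        · by_cases hwr : f w = r
          · simp only [hur, hwr, if_true] at huw
            exact hh1 (by exact_mod_cast (hTiff u hu).2 hur) (by exact_mod_cast (hTiff w hw).2 hwr) huw
          · simp only [hur, hwr, if_true, if_false] at huw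
            exfalso
            apply (hh2 u ((hTiff u hu).2 hur)).2
            rw [huw]
            apply Finset.mem_image_of_mem
            rw [hSd, mem_filter]
            exact ⟨Finset.mem_univ _, hw, by omega⟩
        · by_cases hwr : f w = r
          · simp only [hur, hwr, if_true, if_false] at huw
            exfalso
            apply (hh2 w ((hTiff w hw).2 hwr)).2
            rw [← huw]
            apply Finset.mem_image_of_mem
            rw [hSd, mem_filter]
            exact ⟨Finset.mem_univ _, hu, by omega⟩
          · simp only [hur, hwr, if_false] at huw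
            exact g1 u w hu hw (by omega) (by omega) huw
      · intro u hu hfu
        by_cases hur : f u = r
        · simp only [hur, if_true]
          exact hCP u (hh2 u ((hTiff u hu).2 hur)).1
        · simp only [hur, if_false]
          exact g2 u hu (by omega)
      · intro u w hu hw hfu hfw huw
        by_cases hur : f u = r
        · by_cases hwr : f w = r
          · simp only [hur, hwr, if_true]
            exact (hh3 u ((hTiff u hu).2 hur) w ((hTiff w hw).2 hwr) huw).2
          · simp only [hur, hwr, if_true, if_false]
            rw [hc]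
            exact (hcross u w hu hw hur (by omega) huw).2
        · by_cases hwr : f w = r
          · simp only [hur, hwr, if_true, if_false]
            exact (hcross w u hw hu hwr (by omega) huw.symm).2
          · simp only [hur, hwr, if_false]
            exact g3 u w hu hw (by omega) (by omega) huw
  obtain ⟨g, g1, g2, g3⟩ := key k le_rfl
  refine glue H c hc i X h2 A (by omega) g (fun u w hu hw => g1 u w hu hw (by omega) (by omega)) ?_
    (fun u w hu hw => g3 u w hu hw (by omega) (by omega))
  intro u hu x hx
  exact (h4 (f u) (hf u hu)).1 (g u) (g2 u hu (by omega)) x hx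

end Pool.Agent.LibMP01c500
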