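import Pool.Agent.Lib_MP_01c500.TParam

/-!
# MP_01c500_co, three colours: final forms
-/

set_option autoImplicit false

namespace Pool.Agent.LibMP01c500

open Finset

/-- the bound in terms of a defective colouring outside an exceptional set -/
theorem defect_form : ∃ C : ℝ, 0 ≤ C ∧
    ∀ (V : Type) [Fintype V] (H : SimpleGraph V) (A : Finset V) (d k r : ℕ) (f : V → ℕ),
      (∀ v : V, v ∉ A → (H.neighborSet v \ (A : Set V)).ncard ≤ d) →
      (∀ v : V, v ∉ A → f v < k) →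
      (∀ v : V, v ∉ A → {w : V | w ∉ A ∧ H.Adj v w ∧ f w = f v}.ncard ≤ r) →
      ∃ N : ℕ, (N : ℝ) ≤ (2 : ℝ) ^ (C * (Real.log (Fintype.card V) + 1) ^ 12 *
          ((A.card : ℝ) + ((k : ℝ) + r + 1) * ((d : ℝ) + 1))) ∧
        ∀ col : Sym2 (Fin N) → Fin 3, ∃ i : Fin 3, ∃ f : V → Fin N,
          Function.Injective f ∧ ∀ u v : V, H.Adj u v → col s(f u, f v) = i := by
  classical
  refine ⟨348 * 4 ^ 12, by positivity, ?_⟩
  intro V _ H A d k r f hdeg hfk hint
  rcases isEmpty_or_nonempty V with hV | hV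
  · refine ⟨1, ?_, fun col => ⟨0, fun v => (hV.false v).elim, fun v => (hV.false v).elim,
      fun v => (hV.false v).elim⟩⟩
    rw [Nat.cast_one]
    apply Real.one_le_rpow (by norm_num)
    have h1 : Fintype.card V = 0 := Fintype.card_eq_zero
    rw [h1]
    simp only [Nat.cast_zero, Real.log_zero]
    positivity
  set n := Fintype.card V with hn
  have hn1 : 1 ≤ n := Fintype.card_pos
  set D := Nat.clog 2 n with hD
  have hnD : n ≤ 2 ^ D := Nat.le_pow_clog (by norm_num) n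
  have hdeg' : ∀ u, u ∉ A → (univ.filter (fun w => w ∉ A ∧ H.Adj u w)).card ≤ d := by
    intro u hu
    refine le_trans (le_of_eq ?_) (hdeg u hu)
    rw [← Set.ncard_coe_finset]
    congr 1
    ext w
    simp only [Finset.coe_filter, Finset.mem_univ, true_and, Set.mem_setOf_eq, Set.mem_diff,
      SimpleGraph.mem_neighborSet, Finset.mem_coe]
    tauto
  have hint' : ∀ u, u ∉ A →
      (univ.filter (fun w => w ∉ A ∧ H.Adj u w ∧ f w = f u)).card ≤ r := by
    intro u hu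
    refine le_trans (le_of_eq ?_) (hint u hu)
    rw [← Set.ncard_coe_finset]
    congr 1
    ext w
    simp only [Finset.coe_filter, Finset.mem_univ, true_and, Set.mem_setOf_eq]
  obtain ⟨K, hK⟩ : ∃ K, K = 6 * mu D d k r A.card * (D + 3) ^ 6 := ⟨_, rfl⟩
  refine ⟨2 ^ K, ?_, fun col => main3' H A d k r D hdeg' f hfk hint' hnD K hK col⟩
  rw [Nat.cast_pow, Nat.cast_ofNat, ← Real.rpow_natCast]
  apply Real.rpow_le_rpow_of_exponent_le (by norm_num)
  -- logarithm
  have hlog : 0 ≤ Real.log n := Real.log_natCast_nonneg n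
  have hDlog : (D : ℝ) ≤ 2 * Real.log n + 1 := by
    rcases Nat.lt_or_ge n 2 with h | h
    · have hn1' : n = 1 := by omega
      have : D = 0 := by rw [hD, hn1']; simp
      rw [this]
      push_cast
      linarith
    · have h1 : 2 ^ (D - 1) < n := by
        have := Nat.pow_pred_clog_lt_self (b := 2) (by norm_num) (x := n) (by omega)
        exact this
      have h2 : ((D - 1 : ℕ) : ℝ) * Real.log 2 ≤ Real.log n := by
        rw [← Real.log_pow]
        apply Real.log_le_log (by positivity)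
        exact_mod_cast h1.le
      have h3 : (1 : ℝ) / 2 ≤ Real.log 2 := by
        have := Real.log_two_gt_d9
        linarith
      have h4 : (0 : ℝ) ≤ ((D - 1 : ℕ) : ℝ) := Nat.cast_nonneg _
      have h5 : (D : ℝ) ≤ ((D - 1 : ℕ) : ℝ) + 1 := by
        have : D ≤ (D - 1) + 1 := by omega
        exact_mod_cast this
      nlinarith
  set y : ℝ := ((k : ℝ) + r + 1) * ((d : ℝ) + 1) with hy
  have hk0 : (0 : ℝ) ≤ k := Nat.cast_nonneg _
  have hr0 : (0 : ℝ) ≤ r := Nat.cast_nonneg _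
  have hd0 : (0 : ℝ) ≤ d := Nat.cast_nonneg _
  have hkd : (k : ℝ) * d ≤ y := by rw [hy]; nlinarith [mul_nonneg hr0 hd0, mul_nonneg hk0 hd0]
  have hky : (k : ℝ) ≤ y := by rw [hy]; nlinarith [mul_nonneg hr0 hd0, mul_nonneg hk0 hd0]
  have hdy : (d : ℝ) ≤ y := by rw [hy]; nlinarith [mul_nonneg hr0 hd0, mul_nonneg hk0 hd0]
  have hrd : ((d : ℝ) + 2) * ((r : ℝ) + 1) ≤ 2 * y := by
    rw [hy]; nlinarith [mul_nonneg hr0 hd0, mul_nonneg hk0 hd0]
  have hy1 : 1 ≤ y := by rw [hy]; nlinarith [mul_nonneg hr0 hd0, mul_nonneg hk0 hd0]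
  set e : ℝ := (D : ℝ) + 3 with he
  have he3 : 3 ≤ e := by
    have : (0 : ℝ) ≤ D := Nat.cast_nonneg _
    linarith
  set E : ℝ := e ^ 6 with hE
  have heE : e ≤ E := by
    calc e = e ^ 1 := (pow_one e).symm
      _ ≤ e ^ 6 := pow_le_pow_right₀ (by linarith) (by norm_num)
  have hE1 : 1 ≤ E := by linarith
  have hA0 : (0 : ℝ) ≤ (A.card : ℝ) := Nat.cast_nonneg _
  have hmu : (mu D d k r A.card : ℝ) ≤ E * (58 * ((A.card : ℝ) + y)) := by
    have hcast : (mu D d k r A.card : ℝ) = 5 * (A.card : ℝ) + 27 * k * E * d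
        + 20 * k + (2 * (D : ℝ) + 4) * (d + 2) * (r + 1) + 5 * E * d + D + 4 := by
      unfold mu
      push_cast
      rw [hE, he]
    rw [hcast]
    have hD0 : (0 : ℝ) ≤ D := Nat.cast_nonneg _
    have t1 : 5 * (A.card : ℝ) ≤ E * (5 * (A.card : ℝ)) :=
      le_mul_of_one_le_left (by positivity) hE1
    have t2 : 27 * (k : ℝ) * E * d ≤ E * (27 * y) := by
      have h4 : E * (27 * ((k : ℝ) * d)) ≤ E * (27 * y) :=
        mul_le_mul_of_nonneg_left (by linarith) (by linarith)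
      linarith
    have t3 : 20 * (k : ℝ) ≤ E * (20 * y) := by
      have h1 : 20 * (k : ℝ) ≤ 20 * y := by linarith
      exact h1.trans (le_mul_of_one_le_left (by positivity) hE1)
    have t4 : (2 * (D : ℝ) + 4) * (d + 2) * (r + 1) ≤ E * (4 * y) := by
      have h5 : 2 * (D : ℝ) + 4 ≤ 2 * E := by linarith
      have h6 : 0 ≤ ((d : ℝ) + 2) * ((r : ℝ) + 1) := by positivity
      calc (2 * (D : ℝ) + 4) * (d + 2) * (r + 1)
          = (2 * (D : ℝ) + 4) * (((d : ℝ) + 2) * (r + 1)) := by ring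
        _ ≤ (2 * E) * (2 * y) := mul_le_mul h5 hrd h6 (by linarith)
        _ = _ := by ring
    have t5 : 5 * E * (d : ℝ) ≤ E * (5 * y) := by
      have h4 : E * (5 * (d : ℝ)) ≤ E * (5 * y) :=
        mul_le_mul_of_nonneg_left (by linarith) (by linarith)
      linarith
    have t6 : (D : ℝ) + 4 ≤ E * (2 * y) := by
      have h1 : (D : ℝ) + 4 ≤ 2 * E := by linarith
      nlinarith
    nlinarith
  have hKr : (K : ℝ) = 6 * (mu D d k r A.card : ℝ) * E := by
    rw [hK]
    push_cast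
    rw [hE, he]
  rw [hKr]
  have hee : e ≤ 4 * (Real.log n + 1) := by rw [he]; linarith
  have h12 : e ^ 12 ≤ 4 ^ 12 * (Real.log n + 1) ^ 12 := by
    rw [← mul_pow]
    exact pow_le_pow_left₀ (by linarith) hee 12
  have hT : 0 ≤ (A.card : ℝ) + y := by positivity
  calc 6 * (mu D d k r A.card : ℝ) * E ≤ 6 * (E * (58 * ((A.card : ℝ) + y))) * E := by
        apply mul_le_mul_of_nonneg_right _ (by linarith)
        linarith
    _ = 348 * e ^ 12 * ((A.card : ℝ) + y) := by rw [hE]; ring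
    _ ≤ 348 * (4 ^ 12 * (Real.log n + 1) ^ 12) * ((A.card : ℝ) + y) := by
        apply mul_le_mul_of_nonneg_right _ hT
        linarith
    _ = _ := by ring

/-- the bound in terms of the degree outside an exceptional set -/
theorem degree_form : ∃ C : ℝ, 0 ≤ C ∧
    ∀ (V : Type) [Fintype V] (H : SimpleGraph V) (A : Finset V) (d : ℕ),
      (∀ v : V, v ∉ A → (H.neighborSet v \ (A : Set V)).ncard ≤ d) →
      ∃ N : ℕ, (N : ℝ) ≤ (2 : ℝ) ^ (C * (Real.log (Fintype.card V) + 1) ^ 12 *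
          ((A.card : ℝ) + (d : ℝ) ^ ((3 : ℝ) / 2) + 1)) ∧
        ∀ col : Sym2 (Fin N) → Fin 3, ∃ i : Fin 3, ∃ f : V → Fin N,
          Function.Injective f ∧ ∀ u v : V, H.Adj u v → col s(f u, f v) = i := by
  classical
  obtain ⟨C, hC, hform⟩ := defect_form
  refine ⟨C * 8, by positivity, ?_⟩
  intro V _ H A d hdeg
  have hdeg' : ∀ u, u ∉ A → (univ.filter (fun w => w ∉ A ∧ H.Adj u w)).card ≤ d := by
    intro u hu
    refine le_trans (le_of_eq ?_) (hdeg u hu)
    rw [← Set.ncard_coe_finset]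
    congr 1
    ext w
    simp only [Finset.coe_filter, Finset.mem_univ, true_and, Set.mem_setOf_eq, Set.mem_diff,
      SimpleGraph.mem_neighborSet, Finset.mem_coe]
    tauto
  obtain ⟨S, hS⟩ : ∃ S, S = Nat.sqrt d := ⟨_, rfl⟩
  obtain ⟨f, hf1, hf2⟩ := lovasz H A (S + 1) d (by omega) hdeg'
  have hint : ∀ v : V, v ∉ A → {w : V | w ∉ A ∧ H.Adj v w ∧ f w = f v}.ncard ≤ S := by
    intro u hu
    have h1 := hf2 u hu
    have h2 : d < (S + 1) * (S + 1) := by rw [hS]; exact Nat.lt_succ_sqrt d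
    have h3 : (univ.filter (fun w => w ∉ A ∧ H.Adj u w ∧ f w = f u)).card < S + 1 :=
      Nat.lt_of_mul_lt_mul_left (lt_of_le_of_lt h1 h2)
    have h4 : {w : V | w ∉ A ∧ H.Adj u w ∧ f w = f u}.ncard =
        (univ.filter (fun w => w ∉ A ∧ H.Adj u w ∧ f w = f u)).card := by
      rw [← Set.ncard_coe_finset]
      congr 1
      ext w
      simp only [Finset.coe_filter, Finset.mem_univ, true_and, Set.mem_setOf_eq]
    omega
  obtain ⟨N, hN1, hN2⟩ := hform V H A d (S + 1) S f hdeg (fun v _ => hf1 v) hint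
  refine ⟨N, hN1.trans ?_, hN2⟩
  apply Real.rpow_le_rpow_of_exponent_le (by norm_num)
  set y := Real.sqrt d with hy
  have hy0 : 0 ≤ y := Real.sqrt_nonneg _
  have hyy : y * y = d := Real.mul_self_sqrt (Nat.cast_nonneg _)
  have hx : (d : ℝ) ^ ((3 : ℝ) / 2) = y * y * y := by
    rw [hyy, hy, Real.sqrt_eq_rpow]
    rcases Nat.eq_zero_or_pos d with h | h
    · rw [h]; simp
    · have hdpos : (0 : ℝ) < d := by exact_mod_cast h
      nth_rewrite 2 [← Real.rpow_one (d : ℝ)]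
      rw [← Real.rpow_add hdpos]
      norm_num
  rw [hx]
  set x := y * y * y with hxdef
  have hyx : y ≤ x ∧ y * y ≤ x := by
    rcases Nat.eq_zero_or_pos d with h | h
    · have : y = 0 := by rw [hy, h]; simp
      rw [hxdef, this]; simp
    · have hy1 : 1 ≤ y := by
        rw [hy, Real.one_le_sqrt]; exact_mod_cast h
      constructor
      · rw [hxdef]; nlinarith
      · rw [hxdef]; nlinarith
  have hx0 : 0 ≤ x := by positivity
  have hSy : (S : ℝ) ≤ y := by rw [hS]; exact Real.nat_sqrt_le_real_sqrt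
  have hS0 : (0 : ℝ) ≤ (S : ℝ) := Nat.cast_nonneg _
  have hlog : 0 ≤ Real.log (Fintype.card V) := Real.log_natCast_nonneg _
  have hA0 : (0 : ℝ) ≤ (A.card : ℝ) := Nat.cast_nonneg _
  have h1 : (((S + 1 : ℕ) : ℝ) + S + 1) * ((d : ℝ) + 1) ≤ 8 * (x + 1) := by
    push_cast
    have h2 : ((S : ℝ) + 1 + S + 1) * ((d : ℝ) + 1) ≤ (2 * (y + 1)) * (y * y + 1) := by
      rw [← hyy]
      apply mul_le_mul_of_nonneg_right _ (by positivity)
      linarith
    have h3 : (2 * (y + 1)) * (y * y + 1) = 2 * (x + y * y + y + 1) := by rw [hxdef]; ring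
    linarith [hyx.1, hyx.2]
  have h5 : (A.card : ℝ) + (((S + 1 : ℕ) : ℝ) + S + 1) * ((d : ℝ) + 1) ≤
      8 * ((A.card : ℝ) + x + 1) := by linarith
  calc C * (Real.log (Fintype.card V) + 1) ^ 12 *
        ((A.card : ℝ) + (((S + 1 : ℕ) : ℝ) + S + 1) * ((d : ℝ) + 1))
      ≤ C * (Real.log (Fintype.card V) + 1) ^ 12 * (8 * ((A.card : ℝ) + x + 1)) :=
        mul_le_mul_of_nonneg_left h5 (by positivity)
    _ = _ := by ring

/-- the bound in terms of the number of edges -/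
theorem edge_form : ∃ C : ℝ, 0 ≤ C ∧
    ∀ (V : Type) [Fintype V] (H : SimpleGraph V) [DecidableRel H.Adj],
      (∀ v : V, ∃ w : V, H.Adj v w) →
      ∃ N : ℕ, (N : ℝ) ≤ (2 : ℝ) ^ (C * (Real.log H.edgeFinset.card + 1) ^ 12 *
          (H.edgeFinset.card : ℝ) ^ ((3 : ℝ) / 5)) ∧
        ∀ col : Sym2 (Fin N) → Fin 3, ∃ i : Fin 3, ∃ f : V → Fin N,
          Function.Injective f ∧ ∀ u v : V, H.Adj u v → col s(f u, f v) = i := by
  classical
  obtain ⟨C, hC, hform⟩ := degree_form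
  refine ⟨C * 2 ^ 12 * 4, by positivity, ?_⟩
  intro V _ H _ hiso
  set m := H.edgeFinset.card with hm
  rcases isEmpty_or_nonempty V with hV | hV
  · refine ⟨1, ?_, fun col => ⟨0, fun v => (hV.false v).elim, fun v => (hV.false v).elim,
      fun v => (hV.false v).elim⟩⟩
    rw [Nat.cast_one]
    apply Real.one_le_rpow (by norm_num)
    have := Real.log_natCast_nonneg m
    positivity
  have hm1 : 1 ≤ m := by
    obtain ⟨v⟩ := hV
    obtain ⟨w, hw⟩ := hiso v
    exact Finset.card_pos.2 ⟨s(v, w), by rw [SimpleGraph.mem_edgeFinset]; exact hw⟩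
  have hmr : (1 : ℝ) ≤ m := by exact_mod_cast hm1
  have hsum : ∑ v, H.degree v = 2 * m := H.sum_degrees_eq_twice_card_edges
  have hnm : Fintype.card V ≤ 2 * m := by
    rw [← hsum]
    calc Fintype.card V = ∑ _v : V, 1 := by simp
      _ ≤ ∑ v, H.degree v := by
        refine Finset.sum_le_sum fun v _ => ?_
        obtain ⟨w, hw⟩ := hiso v
        have : 0 < H.degree v := by
          rw [SimpleGraph.degree_pos_iff_exists_adj]; exact ⟨w, hw⟩
        exact this
  set z : ℝ := (m : ℝ) ^ ((2 : ℝ) / 5) with hz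
  have hz1 : 1 ≤ z := Real.one_le_rpow hmr (by norm_num)
  set Δ := ⌊z⌋₊ with hΔ
  have hΔz : (Δ : ℝ) ≤ z := Nat.floor_le (by linarith)
  have hzΔ : z < (Δ : ℝ) + 1 := Nat.lt_floor_add_one z
  set A : Finset V := univ.filter (fun v => Δ < H.degree v) with hA
  obtain ⟨N, hN1, hN2⟩ := hform V H A Δ (by
    intro v hv
    have h1 : H.degree v ≤ Δ := by
      by_contra hcon
      push Not at hcon
      exact hv (by rw [hA, mem_filter]; exact ⟨Finset.mem_univ _, hcon⟩)
    refine le_trans ?_ h1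
    calc (H.neighborSet v \ (A : Set V)).ncard ≤ (H.neighborSet v).ncard :=
          Set.ncard_le_ncard Set.diff_subset (Set.toFinite _)
      _ = H.degree v := by
          rw [← SimpleGraph.card_neighborSet_eq_degree, Set.ncard_eq_toFinset_card',
            Set.toFinset_card])
  refine ⟨N, hN1.trans ?_, hN2⟩
  apply Real.rpow_le_rpow_of_exponent_le (by norm_num)
  -- size of A
  have hAc : (A.card : ℝ) * z ≤ 2 * m := by
    have h1 : A.card * (Δ + 1) ≤ 2 * m := by
      rw [← hsum]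
      calc A.card * (Δ + 1) = ∑ _v ∈ A, (Δ + 1) := by rw [Finset.sum_const, smul_eq_mul]
        _ ≤ ∑ v ∈ A, H.degree v := by
            refine Finset.sum_le_sum fun v hv => ?_
            rw [hA, mem_filter] at hv
            exact hv.2
        _ ≤ ∑ v, H.degree v := Finset.sum_le_sum_of_subset (Finset.subset_univ _)
    have h2 : (A.card : ℝ) * ((Δ : ℝ) + 1) ≤ 2 * m := by exact_mod_cast h1
    have h3 : (0 : ℝ) ≤ (A.card : ℝ) := Nat.cast_nonneg _
    nlinarith
  set t : ℝ := (m : ℝ) ^ ((3 : ℝ) / 5) with ht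
  have ht1 : 1 ≤ t := Real.one_le_rpow hmr (by norm_num)
  have hzt : z * t = m := by
    rw [hz, ht, ← Real.rpow_add (by linarith)]
    norm_num
  have hAt : (A.card : ℝ) ≤ 2 * t := by
    have h1 : (A.card : ℝ) * z ≤ (2 * t) * z := by
      calc (A.card : ℝ) * z ≤ 2 * m := hAc
        _ = 2 * (z * t) := by rw [hzt]
        _ = _ := by ring
    exact le_of_mul_le_mul_right h1 (by linarith)
  have hΔt : (Δ : ℝ) ^ ((3 : ℝ) / 2) ≤ t := by
    calc (Δ : ℝ) ^ ((3 : ℝ) / 2) ≤ z ^ ((3 : ℝ) / 2) :=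
          Real.rpow_le_rpow (Nat.cast_nonneg _) hΔz (by norm_num)
      _ = t := by
          rw [hz, ht, ← Real.rpow_mul (by linarith)]
          norm_num
  have hlogm : 0 ≤ Real.log m := Real.log_natCast_nonneg m
  have hlogn : Real.log (Fintype.card V) + 1 ≤ 2 * (Real.log m + 1) := by
    have hcard : 0 < Fintype.card V := Fintype.card_pos
    have h1 : Real.log (Fintype.card V) ≤ Real.log (2 * m) := by
      apply Real.log_le_log (by exact_mod_cast hcard)
      exact_mod_cast hnm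
    rw [Real.log_mul (by norm_num) (by linarith)] at h1
    have h2 : Real.log 2 ≤ 1 := by
      have := Real.log_two_lt_d9
      linarith
    linarith
  have hlogn0 : 0 ≤ Real.log (Fintype.card V) + 1 := by
    have := Real.log_natCast_nonneg (Fintype.card V)
    linarith
  have h12 : (Real.log (Fintype.card V) + 1) ^ 12 ≤ 2 ^ 12 * (Real.log m + 1) ^ 12 := by
    rw [← mul_pow]
    exact pow_le_pow_left₀ hlogn0 hlogn 12
  have hfac : (A.card : ℝ) + (Δ : ℝ) ^ ((3 : ℝ) / 2) + 1 ≤ 4 * t := by linarith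
  have hfac0 : 0 ≤ (A.card : ℝ) + (Δ : ℝ) ^ ((3 : ℝ) / 2) + 1 := by positivity
  calc C * (Real.log (Fintype.card V) + 1) ^ 12 * ((A.card : ℝ) + (Δ : ℝ) ^ ((3 : ℝ) / 2) + 1)
      ≤ C * (2 ^ 12 * (Real.log m + 1) ^ 12) * (4 * t) := by
        apply mul_le_mul _ hfac hfac0 (by positivity)
        exact mul_le_mul_of_nonneg_left h12 hC
    _ = _ := by ring

/-- a graph without isolated vertices has few vertices -/
theorem log_card (V : Type) [Fintype V] [Nonempty V] (H : SimpleGraph V) [DecidableRel H.Adj]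
    (hiso : ∀ v : V, ∃ w : V, H.Adj v w) :
    Real.log (Fintype.card V) + 1 ≤ 2 * (Real.log H.edgeFinset.card + 1) ∧
      0 ≤ Real.log H.edgeFinset.card := by
  classical
  have hm1 : 1 ≤ H.edgeFinset.card := by
    obtain ⟨v⟩ := ‹Nonempty V›
    obtain ⟨w, hw⟩ := hiso v
    exact Finset.card_pos.2 ⟨s(v, w), by rw [SimpleGraph.mem_edgeFinset]; exact hw⟩
  have hmr : (1 : ℝ) ≤ H.edgeFinset.card := by exact_mod_cast hm1
  have hsum : ∑ v, H.degree v = 2 * H.edgeFinset.card := H.sum_degrees_eq_twice_card_edges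
  have hnm : Fintype.card V ≤ 2 * H.edgeFinset.card := by
    rw [← hsum]
    calc Fintype.card V = ∑ _v : V, 1 := by simp
      _ ≤ ∑ v, H.degree v := by
        refine Finset.sum_le_sum fun v _ => ?_
        obtain ⟨w, hw⟩ := hiso v
        have : 0 < H.degree v := by
          rw [SimpleGraph.degree_pos_iff_exists_adj]; exact ⟨w, hw⟩
        exact this
  have hlogm : 0 ≤ Real.log H.edgeFinset.card := Real.log_natCast_nonneg _
  refine ⟨?_, hlogm⟩
  have hcard : 0 < Fintype.card V := Fintype.card_pos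
  have h1 : Real.log (Fintype.card V) ≤ Real.log (2 * (H.edgeFinset.card : ℝ)) := by
    apply Real.log_le_log (by exact_mod_cast hcard)
    exact_mod_cast hnm
  rw [Real.log_mul (by norm_num) (by linarith)] at h1
  have h2 : Real.log 2 ≤ 1 := by
    have := Real.log_two_lt_d9
    linarith
  linarith

/-- all forms in one -/
theorem final3 : ∃ C : ℝ, ∀ (V : Type) [Fintype V] (H : SimpleGraph V) [DecidableRel H.Adj],
      (∀ v : V, ∃ w : V, H.Adj v w) →
      ∀ (A : Finset V) (d k r : ℕ) (f : V → ℕ),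
      (∀ v : V, v ∉ A → (H.neighborSet v \ (A : Set V)).ncard ≤ d) →
      (∀ v : V, v ∉ A → f v < k) →
      (∀ v : V, v ∉ A → {w : V | w ∉ A ∧ H.Adj v w ∧ f w = f v}.ncard ≤ r) →
      ∃ N : ℕ, (N : ℝ) ≤ (2 : ℝ) ^ (C * (Real.log H.edgeFinset.card + 1) ^ 12 *
          min ((H.edgeFinset.card : ℝ) ^ ((3 : ℝ) / 5))
            ((A.card : ℝ) + min ((d : ℝ) ^ ((3 : ℝ) / 2)) (((k : ℝ) + r) * d) + 1)) ∧
        ∀ col : Sym2 (Fin N) → Fin 3, ∃ i : Fin 3, ∃ g : V → Fin N,
          Function.Injective g ∧ ∀ u v : V, H.Adj u v → col s(g u, g v) = i := by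
  classical
  obtain ⟨C₁, hC₁, h₁⟩ := edge_form
  obtain ⟨C₂, hC₂, h₂⟩ := degree_form
  obtain ⟨C₃, hC₃, h₃⟩ := defect_form
  refine ⟨C₁ + 2 ^ 12 * C₂ + 2 ^ 12 * 4 * C₃, ?_⟩
  intro V _ H _ hiso A d k r f hdeg hfk hint
  rcases isEmpty_or_nonempty V with hV | hV
  · refine ⟨1, ?_, fun col => ⟨0, fun v => (hV.false v).elim, fun v => (hV.false v).elim,
      fun v => (hV.false v).elim⟩⟩
    rw [Nat.cast_one]
    apply Real.one_le_rpow (by norm_num)
    have := Real.log_natCast_nonneg H.edgeFinset.card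
    have h2 : (0 : ℝ) ≤ min ((H.edgeFinset.card : ℝ) ^ ((3 : ℝ) / 5))
            ((A.card : ℝ) + min ((d : ℝ) ^ ((3 : ℝ) / 2)) (((k : ℝ) + r) * d) + 1) := by
      apply le_min (by positivity)
      have : (0 : ℝ) ≤ min ((d : ℝ) ^ ((3 : ℝ) / 2)) (((k : ℝ) + r) * d) :=
        le_min (by positivity) (by positivity)
      positivity
    positivity
  obtain ⟨hlog, hlog0⟩ := log_card V H hiso
  set ℓ : ℝ := Real.log H.edgeFinset.card + 1 with hℓ
  have hℓ1 : 1 ≤ ℓ := by linarith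
  have hln0 : 0 ≤ Real.log (Fintype.card V) + 1 := by
    have := Real.log_natCast_nonneg (Fintype.card V)
    linarith
  have h12 : (Real.log (Fintype.card V) + 1) ^ 12 ≤ 2 ^ 12 * ℓ ^ 12 := by
    rw [← mul_pow]
    exact pow_le_pow_left₀ hln0 hlog 12
  have hℓ12 : 0 ≤ ℓ ^ 12 := by positivity
  have hA0 : (0 : ℝ) ≤ (A.card : ℝ) := Nat.cast_nonneg _
  have hk0 : (0 : ℝ) ≤ (k : ℝ) := Nat.cast_nonneg _
  have hr0 : (0 : ℝ) ≤ (r : ℝ) := Nat.cast_nonneg _
  have hd0 : (0 : ℝ) ≤ (d : ℝ) := Nat.cast_nonneg _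
  -- a general reduction
  have red : ∀ (T X Y : ℝ), 0 ≤ Y → X ≤ T → T ≤ (C₁ + 2 ^ 12 * C₂ + 2 ^ 12 * 4 * C₃) * ℓ ^ 12 * Y →
      (2 : ℝ) ^ X ≤ (2 : ℝ) ^ ((C₁ + 2 ^ 12 * C₂ + 2 ^ 12 * 4 * C₃) * ℓ ^ 12 * Y) := by
    intro T X Y _ h1 h2
    exact Real.rpow_le_rpow_of_exponent_le (by norm_num) (h1.trans h2)
  rcases le_total ((H.edgeFinset.card : ℝ) ^ ((3 : ℝ) / 5))
    ((A.card : ℝ) + min ((d : ℝ) ^ ((3 : ℝ) / 2)) (((k : ℝ) + r) * d) + 1) with hle | hle
  · rw [min_eq_left hle]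
    obtain ⟨N, hN1, hN2⟩ := h₁ V H hiso
    refine ⟨N, hN1.trans ?_, hN2⟩
    have hx0 : (0 : ℝ) ≤ (H.edgeFinset.card : ℝ) ^ ((3 : ℝ) / 5) := by positivity
    refine red _ _ _ hx0 le_rfl ?_
    apply mul_le_mul_of_nonneg_right _ hx0
    apply mul_le_mul_of_nonneg_right _ hℓ12
    linarith [mul_nonneg (show (0 : ℝ) ≤ 2 ^ 12 by norm_num) hC₂,
      mul_nonneg (show (0 : ℝ) ≤ 2 ^ 12 * 4 by norm_num) hC₃]
  · rw [min_eq_right hle]
    rcases le_total ((d : ℝ) ^ ((3 : ℝ) / 2)) (((k : ℝ) + r) * d) with hle2 | hle2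
    · rw [min_eq_left hle2]
      obtain ⟨N, hN1, hN2⟩ := h₂ V H A d hdeg
      refine ⟨N, hN1.trans ?_, hN2⟩
      have hx0 : (0 : ℝ) ≤ (A.card : ℝ) + (d : ℝ) ^ ((3 : ℝ) / 2) + 1 := by positivity
      refine red (C₂ * (2 ^ 12 * ℓ ^ 12) * ((A.card : ℝ) + (d : ℝ) ^ ((3 : ℝ) / 2) + 1)) _ _ hx0
        (mul_le_mul_of_nonneg_right (mul_le_mul_of_nonneg_left h12 hC₂) hx0) ?_
      apply mul_le_mul_of_nonneg_right _ hx0
      have e1 : C₂ * (2 ^ 12 * ℓ ^ 12) = (2 ^ 12 * C₂) * ℓ ^ 12 := by ring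
      rw [e1]
      apply mul_le_mul_of_nonneg_right _ hℓ12
      linarith [mul_nonneg (show (0 : ℝ) ≤ 2 ^ 12 * 4 by norm_num) hC₃]
    · rw [min_eq_right hle2]
      have hx0 : (0 : ℝ) ≤ (A.card : ℝ) + ((k : ℝ) + r) * d + 1 := by positivity
      -- choose the data so that the product is small
      have hex : ∃ (d' k' r' : ℕ) (f' : V → ℕ),
          (∀ v : V, v ∉ A → (H.neighborSet v \ (A : Set V)).ncard ≤ d') ∧
          (∀ v : V, v ∉ A → f' v < k') ∧
          (∀ v : V, v ∉ A → {w : V | w ∉ A ∧ H.Adj v w ∧ f' w = f' v}.ncard ≤ r') ∧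
          ((k' : ℝ) + r' + 1) * ((d' : ℝ) + 1) ≤ 4 * (((k : ℝ) + r) * d + 1) := by
        rcases Nat.eq_zero_or_pos d with hd | hd
        · refine ⟨0, 1, 0, fun _ => 0, ?_, fun _ _ => Nat.one_pos, ?_, ?_⟩
          · intro v hv; rw [← hd]; exact hdeg v hv
          · intro v hv
            refine le_trans (Set.ncard_le_ncard ?_ (Set.toFinite _)) (by
              have := hdeg v hv
              rw [hd] at this
              exact this)
            rintro w ⟨h1, h2, -⟩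
            exact ⟨h2, by simpa using h1⟩
          · rw [hd]; push_cast; norm_num
        · rcases Nat.eq_zero_or_pos k with hk | hk
          · refine ⟨0, 0, 0, f, ?_, ?_, ?_, ?_⟩
            · intro v hv; have := hfk v hv; omega
            · intro v hv; have := hfk v hv; omega
            · intro v hv; have := hfk v hv; omega
            · push_cast
              have : 0 ≤ ((k : ℝ) + r) * d := by positivity
              linarith
          · refine ⟨d, k, r, f, hdeg, hfk, hint, ?_⟩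
            have hk1 : (1 : ℝ) ≤ k := by exact_mod_cast hk
            have hd1 : (1 : ℝ) ≤ d := by exact_mod_cast hd
            have h1 : (k : ℝ) + r + 1 ≤ 2 * ((k : ℝ) + r) := by linarith
            have h2 : (d : ℝ) + 1 ≤ 2 * d := by linarith
            calc ((k : ℝ) + r + 1) * ((d : ℝ) + 1) ≤ (2 * ((k : ℝ) + r)) * (2 * d) :=
                  mul_le_mul h1 h2 (by positivity) (by positivity)
              _ ≤ _ := by linarith
      obtain ⟨d', k', r', f', g1, g2, g3, g4⟩ := hex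
      obtain ⟨N, hN1, hN2⟩ := h₃ V H A d' k' r' f' g1 g2 g3
      refine ⟨N, hN1.trans ?_, hN2⟩
      have hy0 : (0 : ℝ) ≤ (A.card : ℝ) + ((k' : ℝ) + r' + 1) * ((d' : ℝ) + 1) := by positivity
      have g5 : (A.card : ℝ) + ((k' : ℝ) + r' + 1) * ((d' : ℝ) + 1) ≤
          4 * ((A.card : ℝ) + ((k : ℝ) + r) * d + 1) := by linarith
      refine red (C₃ * (2 ^ 12 * ℓ ^ 12) * (4 * ((A.card : ℝ) + ((k : ℝ) + r) * d + 1))) _ _ hx0
        (mul_le_mul (mul_le_mul_of_nonneg_left h12 hC₃) g5 hy0 (by positivity)) ?_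
      have e1 : C₃ * (2 ^ 12 * ℓ ^ 12) * (4 * ((A.card : ℝ) + ((k : ℝ) + r) * d + 1)) =
          (2 ^ 12 * 4 * C₃) * ℓ ^ 12 * ((A.card : ℝ) + ((k : ℝ) + r) * d + 1) := by ring
      rw [e1]
      apply mul_le_mul_of_nonneg_right _ hx0
      apply mul_le_mul_of_nonneg_right _ hℓ12
      linarith [mul_nonneg (show (0 : ℝ) ≤ 2 ^ 12 by norm_num) hC₂]

end Pool.Agent.LibMP01c500
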