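import Pool.Agent.Lib_MP_01c500.TBlobs

/-!
# MP_01c500_co, three colours: greedy embedding under a weak bidensity condition
-/

set_option autoImplicit false

namespace Pool.Agent.LibMP01c500

open Finset

variable {Ω : Type*} [DecidableEq Ω]

/-- two sets see each other with density at least `2 ^ (-e)` on all large sub-pairs -/
def BiD (R : Ω → Ω → Prop) [DecidableRel R] (A B : Finset Ω) (σ e : ℕ) : Prop :=
  ∀ X ⊆ A, ∀ Y ⊆ B, Disjoint X Y → σ ≤ X.card → σ ≤ Y.card →
    X.card * Y.card ≤ 2 ^ e * eR R X Y

theorem BiD.mono {R : Ω → Ω → Prop} [DecidableRel R] {A B A' B' : Finset Ω} {σ e : ℕ}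
    (h : BiD R A B σ e) (hA : A' ⊆ A) (hB : B' ⊆ B) : BiD R A' B' σ e :=
  fun X hX Y hY => h X (hX.trans hA) Y (hY.trans hB)

theorem BiD.few_bad {R : Ω → Ω → Prop} [DecidableRel R] {A B : Finset Ω} {σ e : ℕ}
    (h : BiD R A B σ e) (hσ : 1 ≤ σ) (hB : 2 * σ ≤ B.card) :
    (A.filter (fun x => 2 ^ (e + 1) * (B.filter (fun y => R x y)).card < B.card)).card < σ := by
  by_contra hcon
  push Not at hcon
  obtain ⟨X, hX, hXc⟩ := Finset.exists_subset_card_eq hcon
  set Y := B \ X with hY
  have hYc1 : B.card ≤ Y.card + σ := by
    have := Finset.le_card_sdiff X B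
    rw [hXc, ← hY] at this
    omega
  have hYc : σ ≤ Y.card := by omega
  have h2Y : B.card ≤ 2 * Y.card := by omega
  have h1 := h X (hX.trans (Finset.filter_subset _ _)) Y Finset.sdiff_subset
    Finset.disjoint_sdiff (by omega) hYc
  have hpos : (X.Nonempty) := by rw [← Finset.card_pos]; omega
  have h2 : ∑ x ∈ X, 2 ^ (e + 1) * (Y.filter (fun y => R x y)).card < ∑ _x ∈ X, B.card := by
    refine Finset.sum_lt_sum_of_nonempty hpos fun x hx => ?_
    have h3 := (Finset.mem_filter.1 (hX hx)).2
    refine lt_of_le_of_lt ?_ h3
    apply Nat.mul_le_mul_left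
    exact Finset.card_le_card (Finset.filter_subset_filter _ Finset.sdiff_subset)
  rw [← Finset.mul_sum, Finset.sum_const, smul_eq_mul] at h2
  change 2 ^ (e + 1) * eR R X Y < X.card * B.card at h2
  have h4 : 2 * (X.card * Y.card) ≤ 2 ^ (e + 1) * eR R X Y := by
    calc 2 * (X.card * Y.card) ≤ 2 * (2 ^ e * eR R X Y) := Nat.mul_le_mul_left _ h1
      _ = _ := by rw [pow_succ]; ring
  have h5 : X.card * B.card ≤ 2 * (X.card * Y.card) := by
    calc _ ≤ X.card * (2 * Y.card) := Nat.mul_le_mul_left _ h2Y
      _ = _ := by ring
  omega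

theorem greedy {W : Type*} [DecidableEq W] [Nonempty Ω] (G : SimpleGraph W)
    [DecidableRel G.Adj]
    (R : Ω → Ω → Prop) [DecidableRel R] (hR : ∀ x y, R x y → R y x) (σ e n : ℕ) (hσ : 1 ≤ σ) :
    ∀ (S : Finset W) (U : Finset Ω) (C : W → Finset Ω), U.card + S.card ≤ n →
      (∀ u ∈ S, ∀ v ∈ S, G.Adj u v → BiD R (C u) (C v) σ e) →
      (∀ v ∈ S, 2 ^ ((e + 1) * (S.filter (fun u => G.Adj v u)).card) * (2 * n * σ) ≤ (C v).card) →
      ∃ g : W → Ω, Set.InjOn g S ∧ (∀ v ∈ S, g v ∈ C v ∧ g v ∉ U) ∧
        ∀ u ∈ S, ∀ v ∈ S, G.Adj u v → R (g u) (g v) := by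
  intro S
  induction S using Finset.induction_on with
  | empty =>
    intro U C _ _ _
    obtain ⟨x⟩ := ‹Nonempty Ω›
    exact ⟨fun _ => x, by simp, by simp, by simp⟩
  | insert v S hvS ih =>
    intro U C hn hBi hsz
    rw [Finset.card_insert_of_notMem hvS] at hn
    have hn1 : 1 ≤ n := by omega
    have hbig : ∀ u ∈ insert v S, 2 * n * σ ≤ (C u).card := by
      intro u hu
      refine le_trans ?_ (hsz u hu)
      exact Nat.le_mul_of_pos_left _ (by positivity)
    have h2σ : 2 * σ ≤ 2 * n * σ := by
      calc 2 * σ = 2 * 1 * σ := by ring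
        _ ≤ 2 * n * σ := Nat.mul_le_mul_right _ (Nat.mul_le_mul_left _ hn1)
    set Bd : W → Finset Ω := fun u =>
      (C v).filter (fun x => 2 ^ (e + 1) * ((C u).filter (fun y => R x y)).card < (C u).card) with hBd
    have hBdc : ∀ u ∈ S.filter (fun u => G.Adj v u), (Bd u).card ≤ σ := by
      intro u hu
      rw [mem_filter] at hu
      have h1 := (hBi v (Finset.mem_insert_self _ _) u (Finset.mem_insert_of_mem hu.1) hu.2).few_bad
        hσ (h2σ.trans (hbig u (Finset.mem_insert_of_mem hu.1)))
      exact h1.le
    set F := U ∪ (S.filter (fun u => G.Adj v u)).biUnion Bd with hF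
    have hFc : F.card < (C v).card := by
      have h1 : F.card ≤ U.card + S.card * σ := by
        refine (Finset.card_union_le _ _).trans (Nat.add_le_add_left ?_ _)
        calc _ ≤ ∑ u ∈ S.filter (fun u => G.Adj v u), (Bd u).card := Finset.card_biUnion_le
          _ ≤ ∑ _u ∈ S.filter (fun u => G.Adj v u), σ := Finset.sum_le_sum hBdc
          _ = (S.filter (fun u => G.Adj v u)).card * σ := by rw [Finset.sum_const, smul_eq_mul]
          _ ≤ S.card * σ := Nat.mul_le_mul_right _ (Finset.card_filter_le _ _)
      have h2 : U.card + S.card * σ < 2 * n * σ := by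
        have h3 : U.card ≤ U.card * σ := Nat.le_mul_of_pos_right _ hσ
        have h4 : (U.card + S.card + 1) * σ ≤ n * σ := Nat.mul_le_mul_right _ (by omega)
        have h5 : (U.card + S.card + 1) * σ = U.card * σ + S.card * σ + σ := by ring
        have h6 : 2 * n * σ = n * σ + n * σ := by ring
        omega
      exact lt_of_le_of_lt h1 (lt_of_lt_of_le h2 (hbig v (Finset.mem_insert_self _ _)))
    obtain ⟨x, hx1, hx2⟩ := Finset.exists_mem_notMem_of_card_lt_card hFc
    have hxU : x ∉ U := fun h => hx2 (Finset.mem_union_left _ h)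
    have hxgood : ∀ u ∈ S, G.Adj v u →
        (C u).card ≤ 2 ^ (e + 1) * ((C u).filter (fun y => R x y)).card := by
      intro u hu hvu
      by_contra hcon
      push Not at hcon
      apply hx2
      apply Finset.mem_union_right
      rw [Finset.mem_biUnion]
      exact ⟨u, Finset.mem_filter.2 ⟨hu, hvu⟩, Finset.mem_filter.2 ⟨hx1, hcon⟩⟩
    set C' : W → Finset Ω := fun u => if G.Adj v u then (C u).filter (fun y => R x y) else C u with hC'
    have hC'C : ∀ u, C' u ⊆ C u := by
      intro u
      simp only [hC']
      split_ifs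
      · exact Finset.filter_subset _ _
      · exact Subset.refl _
    obtain ⟨g, g1, g2, g3⟩ := ih (insert x U) C' (by
        rw [Finset.card_insert_of_notMem hxU]; omega) (by
        intro u hu w hw huw
        exact (hBi u (Finset.mem_insert_of_mem hu) w (Finset.mem_insert_of_mem hw) huw).mono
          (hC'C u) (hC'C w)) (by
        intro u hu
        have h1 := hsz u (Finset.mem_insert_of_mem hu)
        by_cases hvu : G.Adj v u
        · simp only [hC', hvu, if_true]
          have h2 : ((insert v S).filter (fun w => G.Adj u w)).card =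
              (S.filter (fun w => G.Adj u w)).card + 1 := by
            rw [Finset.filter_insert, if_pos hvu.symm, Finset.card_insert_of_notMem]
            intro h
            exact hvS (Finset.mem_filter.1 h).1
          rw [h2] at h1
          have h3 := h1.trans (hxgood u hu hvu)
          have h4 : (e + 1) * ((S.filter (fun w => G.Adj u w)).card + 1) =
              (e + 1) * (S.filter (fun w => G.Adj u w)).card + (e + 1) := by ring
          rw [h4, pow_add] at h3
          have h5 : 2 ^ (e + 1) * (2 ^ ((e + 1) * (S.filter (fun w => G.Adj u w)).card) *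
              (2 * n * σ)) ≤ 2 ^ (e + 1) * ((C u).filter (fun y => R x y)).card := by
            calc _ = 2 ^ ((e + 1) * (S.filter (fun w => G.Adj u w)).card) * 2 ^ (e + 1) *
                (2 * n * σ) := by ring
              _ ≤ _ := h3
          exact Nat.le_of_mul_le_mul_left h5 (by positivity)
        · simp only [hC', hvu, if_false]
          have h2 : ((insert v S).filter (fun w => G.Adj u w)).card =
              (S.filter (fun w => G.Adj u w)).card := by
            rw [Finset.filter_insert, if_neg (fun h => hvu h.symm)]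
          rw [h2] at h1
          exact h1)
    have hne : ∀ u ∈ S, u ≠ v := fun u hu h => hvS (h ▸ hu)
    refine ⟨Function.update g v x, ?_, ?_, ?_⟩
    · intro u hu w hw huw
      have hu' : u = v ∨ u ∈ S := by simpa using hu
      have hw' : w = v ∨ w ∈ S := by simpa using hw
      rcases hu' with rfl | hu'
      · rcases hw' with rfl | hw'
        · rfl
        · rw [Function.update_self, Function.update_of_ne (hne w hw')] at huw
          exact absurd (Finset.mem_insert_self x U) (huw ▸ (g2 w hw').2)
      · rcases hw' with rfl | hw'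
        · rw [Function.update_self, Function.update_of_ne (hne u hu')] at huw
          exact absurd (Finset.mem_insert_self x U) (huw ▸ (g2 u hu').2)
        · rw [Function.update_of_ne (hne u hu'), Function.update_of_ne (hne w hw')] at huw
          exact g1 hu' hw' huw
    · intro u hu
      rw [mem_insert] at hu
      rcases hu with rfl | hu
      · rw [Function.update_self]; exact ⟨hx1, hxU⟩
      · rw [Function.update_of_ne (hne u hu)]
        exact ⟨hC'C u (g2 u hu).1, fun h => (g2 u hu).2 (Finset.mem_insert_of_mem h)⟩
    · intro u hu w hw huw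
      rw [mem_insert] at hu hw
      rcases hu with rfl | hu
      · rcases hw with rfl | hw
        · exact absurd huw (G.loopless.irrefl _)
        · rw [Function.update_self, Function.update_of_ne (hne w hw)]
          have h1 := (g2 w hw).1
          simp only [hC', huw, if_true] at h1
          exact (Finset.mem_filter.1 h1).2
      · rcases hw with rfl | hw
        · rw [Function.update_self, Function.update_of_ne (hne u hu)]
          have h1 := (g2 u hu).1
          simp only [hC', huw.symm, if_true] at h1
          exact hR _ _ (Finset.mem_filter.1 h1).2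
        · rw [Function.update_of_ne (hne u hu), Function.update_of_ne (hne w hw)]
          exact g3 u hu w hw huw

end Pool.Agent.LibMP01c500
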