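import Mathlib

/-!
# MP_01c500_co, three colours: a partition into `k` parts with small inner degrees (Lovasz)
-/

set_option autoImplicit false

namespace Pool.Agent.LibMP01c500

open Finset

/-- Lovasz: `k` parts, every vertex has at most `d / k` neighbours in its own part -/
theorem lovasz {W : Type*} [Fintype W] [DecidableEq W] (H : SimpleGraph W) [DecidableRel H.Adj]
    (A : Finset W) (k d : ℕ) (hk : 1 ≤ k)
    (hdeg : ∀ u, u ∉ A → (univ.filter (fun w => w ∉ A ∧ H.Adj u w)).card ≤ d) :
    ∃ f : W → ℕ, (∀ u, f u < k) ∧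
      ∀ u, u ∉ A → k * (univ.filter (fun w => w ∉ A ∧ H.Adj u w ∧ f w = f u)).card ≤ d := by
  classical
  haveI : Nonempty (Fin k) := ⟨⟨0, by omega⟩⟩
  -- the number of inner neighbours, as a sum
  let D : (W → Fin k) → W → ℕ := fun f x => ∑ y, if y ∉ A ∧ H.Adj x y ∧ f y = f x then 1 else 0
  let Φ : (W → Fin k) → ℕ := fun f => ∑ x ∈ univ.filter (fun x => x ∉ A), D f x
  obtain ⟨f, hf⟩ := Finite.exists_min Φ
  refine ⟨fun u => (f u : ℕ), fun u => (f u).2, ?_⟩
  intro u hu
  have hDu : (univ.filter (fun w => w ∉ A ∧ H.Adj u w ∧ (f w : ℕ) = (f u : ℕ))).card = D f u := by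
    simp only [D]
    rw [Finset.card_filter]
    refine Finset.sum_congr rfl fun y _ => ?_
    simp only [Fin.val_inj]
  rw [hDu]
  by_contra hcon
  push Not at hcon
  -- degrees into the parts
  let dj : Fin k → ℕ := fun j => ∑ y, if y ∉ A ∧ H.Adj u y ∧ f y = j then 1 else 0
  have hsum : ∑ j, dj j ≤ d := by
    refine le_trans (le_of_eq ?_) (hdeg u hu)
    simp only [dj]
    rw [Finset.sum_comm, Finset.card_filter]
    refine Finset.sum_congr rfl fun y _ => ?_
    by_cases h : y ∉ A ∧ H.Adj u y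
    · rw [if_pos h]
      rw [Finset.sum_eq_single (f y)]
      · rw [if_pos ⟨h.1, h.2, rfl⟩]
      · intro j _ hj
        rw [if_neg]
        rintro ⟨-, -, hh⟩
        exact hj hh.symm
      · intro hh; exact absurd (Finset.mem_univ _) hh
    · rw [if_neg h]
      apply Finset.sum_eq_zero
      intro j _
      rw [if_neg]
      rintro ⟨h1, h2, -⟩
      exact h ⟨h1, h2⟩
  have hex : ∃ j, dj j < D f u := by
    by_contra hall
    push Not at hall
    have h1 : ∑ _j : Fin k, D f u ≤ ∑ j, dj j := Finset.sum_le_sum (fun j _ => hall j)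
    rw [Finset.sum_const, Finset.card_univ, Fintype.card_fin, smul_eq_mul] at h1
    omega
  obtain ⟨j, hj⟩ := hex
  have hjf : j ≠ f u := by
    rintro rfl
    exact absurd hj (lt_irrefl _)
  have hmin := hf (Function.update f u j)
  -- compute the new value
  have hDu' : D (Function.update f u j) u = dj j := by
    simp only [D, dj, Function.update_self]
    refine Finset.sum_congr rfl fun y _ => ?_
    by_cases hy : y = u
    · subst hy
      simp
    · rw [Function.update_of_ne hy]
  have hpt : ∀ x ∈ (univ.filter (fun x => x ∉ A)).erase u,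
      D (Function.update f u j) x + (if x ∉ A ∧ H.Adj u x ∧ f x = f u then 1 else 0) =
        D f x + (if x ∉ A ∧ H.Adj u x ∧ f x = j then 1 else 0) := by
    intro x hx
    rw [Finset.mem_erase, mem_filter] at hx
    obtain ⟨hxu, -, hxA⟩ := hx
    simp only [D]
    rw [← Finset.add_sum_erase _ _ (Finset.mem_univ u),
      ← Finset.add_sum_erase univ (fun y => if y ∉ A ∧ H.Adj x y ∧ f y = f x then 1 else 0)
        (Finset.mem_univ u)]
    rw [Function.update_self, Function.update_of_ne hxu]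
    have hrest : ∑ y ∈ univ.erase u, (if y ∉ A ∧ H.Adj x y ∧ Function.update f u j y = f x
        then 1 else 0) = ∑ y ∈ univ.erase u, (if y ∉ A ∧ H.Adj x y ∧ f y = f x then 1 else 0) := by
      refine Finset.sum_congr rfl fun y hy => ?_
      rw [Function.update_of_ne (Finset.ne_of_mem_erase hy)]
    rw [hrest]
    have e1 : (u ∉ A ∧ H.Adj x u ∧ j = f x) ↔ (x ∉ A ∧ H.Adj u x ∧ f x = j) := by
      constructor
      · rintro ⟨-, h2, h3⟩; exact ⟨hxA, h2.symm, h3.symm⟩
      · rintro ⟨-, h2, h3⟩; exact ⟨hu, h2.symm, h3.symm⟩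
    have e2 : (u ∉ A ∧ H.Adj x u ∧ f u = f x) ↔ (x ∉ A ∧ H.Adj u x ∧ f x = f u) := by
      constructor
      · rintro ⟨-, h2, h3⟩; exact ⟨hxA, h2.symm, h3.symm⟩
      · rintro ⟨-, h2, h3⟩; exact ⟨hu, h2.symm, h3.symm⟩
    simp only [e1, e2]
    ring
  have hsumpt := Finset.sum_congr (rfl : (univ.filter (fun x => x ∉ A)).erase u = _) hpt
  rw [Finset.sum_add_distrib, Finset.sum_add_distrib] at hsumpt
  have huA : u ∈ univ.filter (fun x => x ∉ A) := by rw [mem_filter]; exact ⟨Finset.mem_univ _, hu⟩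
  have hΦ1 : Φ f = D f u + ∑ x ∈ (univ.filter (fun x => x ∉ A)).erase u, D f x :=
    (Finset.add_sum_erase _ _ huA).symm
  have hΦ2 : Φ (Function.update f u j) = D (Function.update f u j) u +
      ∑ x ∈ (univ.filter (fun x => x ∉ A)).erase u, D (Function.update f u j) x :=
    (Finset.add_sum_erase _ _ huA).symm
  have hindic : ∀ a : Fin k, ∑ x ∈ (univ.filter (fun x => x ∉ A)).erase u,
      (if x ∉ A ∧ H.Adj u x ∧ f x = a then 1 else 0) = dj a := by
    intro a
    simp only [dj]
    have h1 : ∑ x, (if x ∉ A ∧ H.Adj u x ∧ f x = a then 1 else 0) =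
        ∑ x ∈ univ.filter (fun x => x ∉ A), (if x ∉ A ∧ H.Adj u x ∧ f x = a then 1 else 0) := by
      symm
      apply Finset.sum_subset (Finset.filter_subset _ _)
      intro x _ hx
      rw [if_neg]
      rintro ⟨h1, -, -⟩
      exact hx (by rw [mem_filter]; exact ⟨Finset.mem_univ _, h1⟩)
    rw [h1, ← Finset.add_sum_erase _ _ huA, if_neg, zero_add]
    rintro ⟨-, h2, -⟩
    exact H.loopless.irrefl _ h2
  rw [hindic (f u), hindic j] at hsumpt
  have hdju : dj (f u) = D f u := rfl
  rw [hdju] at hsumpt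
  rw [hDu'] at hΦ2
  omega

end Pool.Agent.LibMP01c500
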