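import Pool.Agent.Lib_MP_01c500.TPre
import Pool.Agent.Lib_MP_01c500.TLovasz

/-!
# MP_01c500_co, three colours: the main combinatorial theorem
-/

set_option autoImplicit false

namespace Pool.Agent.LibMP01c500

open Finset

variable {Ω : Type*} [DecidableEq Ω]

/-- lower bound for the sizes in Case II -/
def ss (D d : ℕ) : ℕ := D + 1 + (2 * D + 4) * d

/-- next width -/
def nx (D d w : ℕ) : ℕ := w + loss D d w + 1

theorem goodStep (c : Ω → Ω → Fin 3) (B₀ : Finset Ω) (D d : ℕ)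
    (hII : ∀ (r : Fin 3) (B : Finset Ω) (u w : ℕ), B ⊆ B₀ → 2 ^ ss D d ≤ u →
      Bad (Adj c r) B u w (aa D d) → 2 ^ loss D d w * u ≤ B.card → False)
    (r : Fin 3) (A : Finset Ω) (hA : A ⊆ B₀) (w : ℕ) (hAc : 2 ^ (loss D d w + 1 + ss D d) ≤ A.card) :
    ∃ A' ⊆ A, A.card ≤ 2 ^ (loss D d w + 1) * A'.card ∧
      ∀ X ⊆ A', ∀ Y ⊆ A', Disjoint X Y → A'.card ≤ 2 ^ w * X.card → A'.card ≤ 2 ^ w * Y.card →
        X.card * Y.card ≤ 2 ^ aa D d * eR (Adj c r) X Y := by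
  set l := loss D d w with hl
  set u := A.card / 2 ^ l with hu
  have hpos : 0 < 2 ^ l := by positivity
  have hule : 2 ^ l * u ≤ A.card := Nat.mul_div_le _ _
  have huge : 2 ^ (1 + ss D d) ≤ u := by
    rw [hu, Nat.le_div_iff_mul_le hpos, ← pow_add]
    exact le_trans (le_of_eq (by congr 1; ring)) hAc
  have hu1 : 1 ≤ u := le_trans Nat.one_le_two_pow huge
  have hnb : ¬ Bad (Adj c r) A u w (aa D d) := by
    intro hb
    refine hII r A u w hA ?_ hb hule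
    exact le_trans (Nat.pow_le_pow_right (by norm_num) (by omega)) huge
  unfold Bad at hnb
  push Not at hnb
  obtain ⟨A', hA'A, hA'c, hA'⟩ := hnb
  refine ⟨A', hA'A, ?_, fun X hX Y hY hXY h1 h2 => (hA' X hX Y hY hXY h1 h2).le⟩
  have h1 : A.card < 2 ^ l * (u + 1) := Nat.lt_mul_div_succ _ hpos
  calc A.card ≤ 2 ^ l * (u + 1) := h1.le
    _ ≤ 2 ^ l * (2 * u) := Nat.mul_le_mul_left _ (by omega)
    _ = 2 ^ (l + 1) * u := by rw [pow_succ]; ring
    _ ≤ _ := Nat.mul_le_mul_left _ hA'c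

theorem goodSet (c : Ω → Ω → Fin 3) (B₀ : Finset Ω) (D d : ℕ)
    (hII : ∀ (r : Fin 3) (B : Finset Ω) (u w : ℕ), B ⊆ B₀ → 2 ^ ss D d ≤ u →
      Bad (Adj c r) B u w (aa D d) → 2 ^ loss D d w * u ≤ B.card → False)
    (κ : ℕ) (hB₀ : 2 ^ (nx D d (nx D d (nx D d κ)) + ss D d) ≤ B₀.card) :
    ∃ A ⊆ B₀, 2 ^ κ ≤ A.card ∧ ∀ r : Fin 3,
      ∀ X ⊆ A, ∀ Y ⊆ A, Disjoint X Y → A.card ≤ 2 ^ κ * X.card → A.card ≤ 2 ^ κ * Y.card →
        X.card * Y.card ≤ 2 ^ aa D d * eR (Adj c r) X Y := by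
  set w₂ := nx D d κ with hw₂
  set w₁ := nx D d w₂ with hw₁
  have e1 : nx D d w₁ = w₁ + loss D d w₁ + 1 := rfl
  have e2 : w₁ = w₂ + loss D d w₂ + 1 := rfl
  have e3 : w₂ = κ + loss D d κ + 1 := rfl
  obtain ⟨A₁, hA₁, hc₁, hg₁⟩ := goodStep c B₀ D d hII 0 B₀ (Subset.refl _) w₁ (by
    refine le_trans (Nat.pow_le_pow_right (by norm_num) ?_) hB₀
    omega)
  have hA₁c : 2 ^ (w₁ + ss D d) ≤ A₁.card := by
    have h1 : 2 ^ (loss D d w₁ + 1) * 2 ^ (w₁ + ss D d) ≤ 2 ^ (loss D d w₁ + 1) * A₁.card := by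
      rw [← pow_add]
      refine le_trans (le_trans (le_of_eq ?_) hB₀) hc₁
      congr 1
      omega
    exact Nat.le_of_mul_le_mul_left h1 (by positivity)
  obtain ⟨A₂, hA₂, hc₂, hg₂⟩ := goodStep c B₀ D d hII 1 A₁ hA₁ w₂ (by
    refine le_trans (Nat.pow_le_pow_right (by norm_num) ?_) hA₁c
    omega)
  have hA₂c : 2 ^ (w₂ + ss D d) ≤ A₂.card := by
    have h1 : 2 ^ (loss D d w₂ + 1) * 2 ^ (w₂ + ss D d) ≤ 2 ^ (loss D d w₂ + 1) * A₂.card := by
      rw [← pow_add]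
      refine le_trans (le_trans (le_of_eq ?_) hA₁c) hc₂
      congr 1
      omega
    exact Nat.le_of_mul_le_mul_left h1 (by positivity)
  obtain ⟨A₃, hA₃, hc₃, hg₃⟩ := goodStep c B₀ D d hII 2 A₂ (hA₂.trans hA₁) κ (by
    refine le_trans (Nat.pow_le_pow_right (by norm_num) ?_) hA₂c
    omega)
  have hA₃c : 2 ^ (κ + ss D d) ≤ A₃.card := by
    have h1 : 2 ^ (loss D d κ + 1) * 2 ^ (κ + ss D d) ≤ 2 ^ (loss D d κ + 1) * A₃.card := by
      rw [← pow_add]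
      refine le_trans (le_trans (le_of_eq ?_) hA₂c) hc₃
      congr 1
      omega
    exact Nat.le_of_mul_le_mul_left h1 (by positivity)
  have hup2 : ∀ X : Finset Ω, A₃.card ≤ 2 ^ κ * X.card → A₂.card ≤ 2 ^ w₂ * X.card := by
    intro X hX
    calc A₂.card ≤ 2 ^ (loss D d κ + 1) * A₃.card := hc₃
      _ ≤ 2 ^ (loss D d κ + 1) * (2 ^ κ * X.card) := Nat.mul_le_mul_left _ hX
      _ = 2 ^ w₂ * X.card := by
          rw [e3, show κ + loss D d κ + 1 = (loss D d κ + 1) + κ by ring,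
            pow_add 2 (loss D d κ + 1) κ]
          ring
  have hup1 : ∀ X : Finset Ω, A₂.card ≤ 2 ^ w₂ * X.card → A₁.card ≤ 2 ^ w₁ * X.card := by
    intro X hX
    calc A₁.card ≤ 2 ^ (loss D d w₂ + 1) * A₂.card := hc₂
      _ ≤ 2 ^ (loss D d w₂ + 1) * (2 ^ w₂ * X.card) := Nat.mul_le_mul_left _ hX
      _ = 2 ^ w₁ * X.card := by
          rw [e2, show w₂ + loss D d w₂ + 1 = (loss D d w₂ + 1) + w₂ by ring,
            pow_add 2 (loss D d w₂ + 1) w₂]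
          ring
  refine ⟨A₃, hA₃.trans (hA₂.trans hA₁), le_trans (Nat.pow_le_pow_right (by norm_num)
    (by omega)) hA₃c, ?_⟩
  intro r X hX Y hY hXY h1 h2
  fin_cases r
  · -- colour 0
    have k1 : A₁.card ≤ 2 ^ w₁ * X.card := hup1 X (hup2 X h1)
    have k2 : A₁.card ≤ 2 ^ w₁ * Y.card := hup1 Y (hup2 Y h2)
    exact hg₁ X (hX.trans (hA₃.trans hA₂)) Y (hY.trans (hA₃.trans hA₂)) hXY k1 k2
  · exact hg₂ X (hX.trans hA₃) Y (hY.trans hA₃) hXY (hup2 X h1) (hup2 Y h2)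
  · exact hg₃ X hX Y hY hXY h1 h2

theorem caseI {W : Type*} [Fintype W] [DecidableEq W] [Nonempty W]
    (H : SimpleGraph W) [DecidableRel H.Adj]
    (c : Ω → Ω → Fin 3) (hc : ∀ x y, c x y = c y x) (A : Finset W) (d D k δ t μ K : ℕ)
    (hdeg : ∀ u, u ∉ A → (univ.filter (fun w => w ∉ A ∧ H.Adj u w)).card ≤ d)
    (f : W → ℕ) (hf1 : ∀ u, u ∉ A → f u < k)
    (hint : ∀ u, u ∉ A → (univ.filter (fun w => w ∉ A ∧ H.Adj u w ∧ f w = f u)).card ≤ δ)
    (hn : Fintype.card W ≤ 2 ^ D) (ht : 1 ≤ t)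
    (h1 : (aa D d + 1) * δ + D + 4 ≤ μ) (h2 : 3 * t + 1 + K * d ≤ μ * t)
    (h3 : 9 * A.card + 3 * k * (3 * t + 1) ≤ 2 * μ)
    (V : Finset Ω) (hVK : V.card ≤ 2 ^ K) (hV : 2 ^ (4 * μ) ≤ V.card)
    (a : Fin 3 → ℕ) (haA : ∀ i, a i ≤ A.card) (haS : ∀ i, Sg c i (a i) V)
    (hgood : ∀ r : Fin 3, ∀ X ⊆ V, ∀ Y ⊆ V, Disjoint X Y → V.card ≤ 2 ^ (4 * μ) * X.card →
      V.card ≤ 2 ^ (4 * μ) * Y.card → X.card * Y.card ≤ 2 ^ aa D d * eR (Adj c r) X Y) :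
    ∃ i : Fin 3, ∃ F : W → Ω, Function.Injective F ∧ ∀ u w, H.Adj u w → c (F u) (F w) = i := by
  classical
  set L := A.card with hL
  set n := Fintype.card W with hnW
  have hn1 : 1 ≤ n := Fintype.card_pos
  set σ := V.card / 2 ^ (4 * μ) + 1 with hσ
  have hσ1 : 1 ≤ σ := Nat.le_add_left 1 _
  have hBi : ∀ r : Fin 3, BiD (Adj c r) V V σ (aa D d) := by
    intro r X hX Y hY hXY hXc hYc
    have key : ∀ Z : Finset Ω, σ ≤ Z.card → V.card ≤ 2 ^ (4 * μ) * Z.card := by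
      intro Z hZ
      have e1 : V.card < 2 ^ (4 * μ) * σ := Nat.lt_mul_div_succ _ (by positivity)
      exact e1.le.trans (Nat.mul_le_mul_left _ hZ)
    exact hgood r X hX Y hY hXY (key X hXc) (key Y hYc)
  set Kc := 2 ^ ((aa D d + 1) * δ) * (2 * n * σ) with hKc
  set M₀ := V.card / 2 ^ (2 * μ) with hM₀
  have hM₀le : M₀ * 2 ^ (2 * μ) ≤ V.card := Nat.div_mul_le_self _ _
  have hμ4 : 4 ≤ μ := le_trans (Nat.le_add_left 4 _) h1
  have hM₀ge : 2 ^ (2 * μ) ≤ M₀ := by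
    rw [hM₀, Nat.le_div_iff_mul_le (by positivity), ← pow_add]
    exact le_trans (le_of_eq (by congr 1; ring)) hV
  have hM₀2 : 2 ≤ M₀ := by
    refine le_trans ?_ hM₀ge
    calc 2 = 2 ^ 1 := by norm_num
      _ ≤ 2 ^ (2 * μ) := Nat.pow_le_pow_right (by norm_num) (by omega)
  have hVlt : V.card < 2 ^ (2 * μ) * (M₀ + 1) := Nat.lt_mul_div_succ _ (by positivity)
  -- `2 ^ μ * Kc ≤ M₀`
  have hKcM : 2 ^ μ * Kc ≤ M₀ := by
    have e1 : σ * 2 ^ (4 * μ) ≤ 2 * V.card := by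
      have e2 : V.card / 2 ^ (4 * μ) * 2 ^ (4 * μ) ≤ V.card := Nat.div_mul_le_self _ _
      rw [hσ, add_mul, one_mul]
      omega
    have e3 : σ * 2 ^ (4 * μ) ≤ M₀ * 2 ^ (2 * μ + 2) := by
      calc σ * 2 ^ (4 * μ) ≤ 2 * V.card := e1
        _ ≤ 2 * (2 ^ (2 * μ) * (M₀ + 1)) := Nat.mul_le_mul_left _ hVlt.le
        _ ≤ 2 * (2 ^ (2 * μ) * (2 * M₀)) := Nat.mul_le_mul_left _ (Nat.mul_le_mul_left _ (by omega))
        _ = _ := by rw [pow_add]; ring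
    have e4 : 2 ^ μ * Kc * 2 ^ (4 * μ) ≤ M₀ * 2 ^ (4 * μ) := by
      calc 2 ^ μ * Kc * 2 ^ (4 * μ)
          = 2 ^ μ * 2 ^ ((aa D d + 1) * δ) * (2 * n) * (σ * 2 ^ (4 * μ)) := by rw [hKc]; ring
        _ ≤ 2 ^ μ * 2 ^ ((aa D d + 1) * δ) * (2 * 2 ^ D) * (M₀ * 2 ^ (2 * μ + 2)) :=
            Nat.mul_le_mul (Nat.mul_le_mul_left _ (Nat.mul_le_mul_left _ hn)) e3
        _ = M₀ * 2 ^ (μ + (aa D d + 1) * δ + (D + 1) + (2 * μ + 2)) := by
            rw [pow_add 2 (μ + (aa D d + 1) * δ + (D + 1)), pow_add 2 (μ + (aa D d + 1) * δ),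
              pow_add 2 μ, pow_succ 2 D]
            ring
        _ ≤ M₀ * 2 ^ (4 * μ) := by
            apply Nat.mul_le_mul_left
            apply Nat.pow_le_pow_right (by norm_num)
            omega
    exact Nat.le_of_mul_le_mul_right e4 (by positivity)
  have hGt : 2 * (2 * 3) ^ t ≤ 2 ^ (3 * t + 1) := by
    calc 2 * (2 * 3) ^ t ≤ 2 * 8 ^ t := Nat.mul_le_mul_left _ (Nat.pow_le_pow_left (by norm_num) t)
      _ = 2 ^ (3 * t + 1) := by
          rw [pow_succ, pow_mul]; norm_num [mul_comm]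
  obtain ⟨i, V', hV'1, hV'2, hV'3⟩ := chainT c hc (by norm_num) V d Kc L k t ht M₀ V.card
    (by
      intro M hM1 hM2
      calc 2 * (2 * 3) ^ t * (M ^ d * Kc ^ t)
          ≤ 2 ^ (3 * t + 1) * (2 ^ (K * d) * Kc ^ t) := by
            apply Nat.mul_le_mul hGt
            apply Nat.mul_le_mul_right
            rw [pow_mul]
            exact Nat.pow_le_pow_left (hM2.trans hVK) d
        _ = 2 ^ (3 * t + 1 + K * d) * Kc ^ t := by rw [pow_add 2 (3 * t + 1)]; ring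
        _ ≤ 2 ^ (μ * t) * Kc ^ t := Nat.mul_le_mul_right _ (Nat.pow_le_pow_right (by norm_num) h2)
        _ = (2 ^ μ * Kc) ^ t := by rw [mul_pow (2 ^ μ) Kc t, pow_mul]
        _ ≤ M ^ t := Nat.pow_le_pow_left (hKcM.trans hM1) t)
    hM₀2 _ a (fun _ => 0) V haA (fun _ => Nat.zero_le _) (fun _ _ => rfl)
    (fun i => (haS i).toStG) (Subset.refl _) rfl le_rfl (by
      have e1 : ∑ i, (L - a i) ≤ 3 * L := by
        calc ∑ i, (L - a i) ≤ ∑ _i : Fin 3, L := Finset.sum_le_sum (fun i _ => Nat.sub_le _ _)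
          _ = 3 * L := by rw [Finset.sum_const, Finset.card_univ, Fintype.card_fin, smul_eq_mul]
      have e2 : ∑ _i : Fin 3, (k - 0) = 3 * k := by
        rw [Finset.sum_const, Finset.card_univ, Fintype.card_fin, smul_eq_mul, Nat.sub_zero]
      rw [e2]
      calc M₀ * (2 * 3) ^ (∑ i, (L - a i)) * (2 * (2 * 3) ^ t) ^ (3 * k)
          ≤ M₀ * 2 ^ (9 * L) * 2 ^ (3 * k * (3 * t + 1)) := by
            apply Nat.mul_le_mul
            · apply Nat.mul_le_mul_left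
              calc (2 * 3) ^ (∑ i, (L - a i)) ≤ (2 * 3) ^ (3 * L) :=
                    Nat.pow_le_pow_right (by norm_num) e1
                _ ≤ (2 ^ 3) ^ (3 * L) := Nat.pow_le_pow_left (by norm_num) _
                _ = 2 ^ (9 * L) := by
                    rw [← pow_mul]; congr 1; ring
            · calc (2 * (2 * 3) ^ t) ^ (3 * k) ≤ (2 ^ (3 * t + 1)) ^ (3 * k) :=
                    Nat.pow_le_pow_left hGt _
                _ = _ := by rw [← pow_mul]; congr 1; ring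
        _ = M₀ * 2 ^ (9 * L + 3 * k * (3 * t + 1)) := by rw [pow_add]; ring
        _ ≤ M₀ * 2 ^ (2 * μ) := Nat.mul_le_mul_left _ (Nat.pow_le_pow_right (by norm_num) h3)
        _ ≤ V.card := hM₀le)
  obtain ⟨F, hF1, hF2⟩ := embedI H c hc V d Kc L k i V' hV'1 hV'3 σ (aa D d) δ hσ1 (hBi i) le_rfl
    A le_rfl f hf1 hdeg hint
  exact ⟨i, F, hF1, hF2⟩

/-- the main combinatorial theorem for three colours -/
theorem main3 {W : Type*} [Fintype W] [DecidableEq W] [Nonempty W]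
    (H : SimpleGraph W) [DecidableRel H.Adj]
    (c : Ω → Ω → Fin 3) (hc : ∀ x y, c x y = c y x) (A : Finset W) (d D k δ t μ K : ℕ)
    (hdeg : ∀ u, u ∉ A → (univ.filter (fun w => w ∉ A ∧ H.Adj u w)).card ≤ d)
    (f : W → ℕ) (hf1 : ∀ u, u ∉ A → f u < k)
    (hint : ∀ u, u ∉ A → (univ.filter (fun w => w ∉ A ∧ H.Adj u w ∧ f w = f u)).card ≤ δ)
    (hn : Fintype.card W ≤ 2 ^ D) (ht : 1 ≤ t)
    (h1 : (aa D d + 1) * δ + D + 4 ≤ μ) (h2 : 3 * t + 1 + K * d ≤ μ * t)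
    (h3 : 9 * A.card + 3 * k * (3 * t + 1) ≤ 2 * μ)
    (h4 : 9 * A.card + 1 + 2 * A.card * (2 * D + 4) + D * (2 * A.card * (2 * D + 4) + 3) +
      (nx D d (nx D d (nx D d (4 * μ))) + ss D d) ≤ K)
    (V : Finset Ω) (hV : V.card = 2 ^ K) :
    ∃ i : Fin 3, ∃ F : W → Ω, Function.Injective F ∧ ∀ u w, H.Adj u w → c (F u) (F w) = i := by
  classical
  set L := A.card with hL
  set N₂ := 2 ^ (nx D d (nx D d (nx D d (4 * μ))) + ss D d) with hN₂
  have hN₂4 : 4 ≤ N₂ := by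
    calc 4 = 2 ^ 2 := by norm_num
      _ ≤ N₂ := Nat.pow_le_pow_right (by norm_num) (by unfold nx; omega)
  rcases pre H c hc D L N₂ hN₂4 hn V (by
    rw [hV, hN₂, ← pow_add]
    exact Nat.pow_le_pow_right (by norm_num) h4) with h | ⟨V₂, hV₂, hV₂c, i, j, hij, hSi, hSj⟩
  · exact h
  by_contra hcon
  -- Case II is impossible
  have hII : ∀ (r : Fin 3) (B : Finset Ω) (u w : ℕ), B ⊆ V₂ → 2 ^ ss D d ≤ u →
      Bad (Adj c r) B u w (aa D d) → 2 ^ loss D d w * u ≤ B.card → False := by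
    intro r B u w hB hu hbad hBc
    have hex : ∀ i j r : Fin 3, i ≠ j → ∃ b g : Fin 3, (b = i ∨ b = j) ∧
        ∀ x : Fin 3, x = r ∨ x = b ∨ x = g := by decide
    obtain ⟨b, g, hb, hall⟩ := hex i j r hij
    have hSb : Sg c b A.card B := by
      rcases hb with rfl | rfl
      · exact hSi.mono hB
      · exact hSj.mono hB
    exact hcon (caseII H c hc r b g hall B A hSb d hdeg D u w hn hu hbad hBc)
  obtain ⟨V₃, hV₃, hV₃c, hgood⟩ := goodSet c V₂ D d hII (4 * μ) hV₂c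
  apply hcon
  refine caseI H c hc A d D k δ t μ K hdeg f hf1 hint hn ht h1 h2 h3 V₃ ?_ hV₃c
    (fun r => if r = i ∨ r = j then L else 0) ?_ ?_ hgood
  · rw [← hV]
    exact Finset.card_le_card (hV₃.trans hV₂)
  · intro r
    show (if r = i ∨ r = j then L else 0) ≤ A.card
    split_ifs
    · exact le_rfl
    · exact Nat.zero_le _
  · intro r
    show Sg c r (if r = i ∨ r = j then L else 0) V₃
    split_ifs with h
    · rcases h with rfl | rfl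
      · exact hSi.mono hV₃
      · exact hSj.mono hV₃
    · exact Sg.zero c r V₃

end Pool.Agent.LibMP01c500
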