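import Pool.Agent.Lib_MP_01c500.TMain

/-!
# MP_01c500_co, three colours: choice of the parameters
-/

set_option autoImplicit false

namespace Pool.Agent.LibMP01c500

open Finset

theorem nx_bound (D d w : ℕ) (h1 : (2 * D + 4) * d ≤ w + 1) (h2 : D + 4 ≤ w) :
    nx D d w + 1 ≤ (w + 1) * (D + 3) ^ 2 := by
  have h3 : D * ((2 * D + 4) * d) ≤ D * (w + 1) := Nat.mul_le_mul_left _ h1
  have h4 : (D + 4) * (D + 3) ≤ w * (D + 3) := Nat.mul_le_mul_right _ h2
  unfold nx loss wG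
  nlinarith

theorem nx_mono1 (D d w : ℕ) : w ≤ nx D d w := by unfold nx; omega

theorem nx3_bound (D d w : ℕ) (h1 : (2 * D + 4) * d ≤ w + 1) (h2 : D + 4 ≤ w) :
    nx D d (nx D d (nx D d w)) ≤ (w + 1) * (D + 3) ^ 6 := by
  have a1 := nx_bound D d w h1 h2
  have m1 := nx_mono1 D d w
  have a2 := nx_bound D d (nx D d w) (by omega) (by omega)
  have m2 := nx_mono1 D d (nx D d w)
  have a3 := nx_bound D d (nx D d (nx D d w)) (by omega) (by omega)
  have b2 : nx D d (nx D d w) + 1 ≤ (w + 1) * (D + 3) ^ 2 * (D + 3) ^ 2 :=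
    a2.trans (Nat.mul_le_mul_right _ a1)
  have b3 : nx D d (nx D d (nx D d w)) + 1 ≤ (w + 1) * (D + 3) ^ 2 * (D + 3) ^ 2 * (D + 3) ^ 2 :=
    a3.trans (Nat.mul_le_mul_right _ b2)
  have e : (w + 1) * (D + 3) ^ 2 * (D + 3) ^ 2 * (D + 3) ^ 2 = (w + 1) * (D + 3) ^ 6 := by ring
  omega

/-- the parameter `μ` -/
def mu (D d k δ L : ℕ) : ℕ :=
  5 * L + 27 * k * (D + 3) ^ 6 * d + 20 * k + (2 * D + 4) * (d + 2) * (δ + 1) + 5 * (D + 3) ^ 6 * d +
    D + 4

theorem main3' {W : Type*} [Fintype W] [DecidableEq W] [Nonempty W]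
    (H : SimpleGraph W) [DecidableRel H.Adj] (A : Finset W) (d k δ D : ℕ)
    (hdeg : ∀ u, u ∉ A → (univ.filter (fun w => w ∉ A ∧ H.Adj u w)).card ≤ d)
    (f : W → ℕ) (hf1 : ∀ u, u ∉ A → f u < k)
    (hint : ∀ u, u ∉ A → (univ.filter (fun w => w ∉ A ∧ H.Adj u w ∧ f w = f u)).card ≤ δ)
    (hn : Fintype.card W ≤ 2 ^ D)
    (K : ℕ) (hK' : K = 6 * mu D d k δ A.card * (D + 3) ^ 6) (col : Sym2 (Fin (2 ^ K)) → Fin 3) :
    ∃ i : Fin 3, ∃ F : W → Fin (2 ^ K), Function.Injective F ∧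
      ∀ u w, H.Adj u w → col s(F u, F w) = i := by
  classical
  obtain ⟨L, hL⟩ : ∃ L, L = A.card := ⟨_, rfl⟩
  obtain ⟨μ, hμ⟩ : ∃ μ, μ = mu D d k δ L := ⟨_, rfl⟩
  obtain ⟨E, hE⟩ : ∃ E, E = (D + 3) ^ 6 := ⟨_, rfl⟩
  have hK : K = 6 * μ * E := by rw [hK', hμ, hE, hL]
  have hEE : 4 * (D + 3) ^ 2 + 13 ≤ E := by
    have h1 : 9 ≤ (D + 3) ^ 2 := by
      calc 9 = 3 ^ 2 := by norm_num
        _ ≤ (D + 3) ^ 2 := Nat.pow_le_pow_left (by omega) 2
    have h2 : E = (D + 3) ^ 2 * (D + 3) ^ 2 * (D + 3) ^ 2 := by rw [hE]; ring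
    rw [h2]
    set x := (D + 3) ^ 2
    have h3 : 9 * x ≤ x * x := Nat.mul_le_mul_right _ h1
    have h4 : 9 * (x * x) ≤ x * x * x := by
      calc 9 * (x * x) = (x * x) * 9 := by ring
        _ ≤ _ := Nat.mul_le_mul_left _ h1
    omega
  have hE1 : 1 ≤ E := by omega
  have hμdef : μ = 5 * L + 27 * k * E * d + 20 * k +
      (2 * D + 4) * (d + 2) * (δ + 1) + 5 * E * d + D + 4 := by rw [hμ, mu, hE]
  have hEd : 5 * E * d = 5 * (E * d) := by ring
  have hDd : (2 * D + 4) * d ≤ (2 * D + 4) * (d + 2) * (δ + 1) := by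
    calc (2 * D + 4) * d ≤ (2 * D + 4) * (d + 2) := Nat.mul_le_mul_left _ (by omega)
      _ ≤ (2 * D + 4) * (d + 2) * (δ + 1) := Nat.le_mul_of_pos_right _ (by omega)
  have hnx := nx3_bound D d (4 * μ) (by omega) (by omega)
  rw [← hE] at hnx
  set c : Fin (2 ^ K) → Fin (2 ^ K) → Fin 3 := fun x y => col s(x, y) with hc
  have hcs : ∀ x y, c x y = c y x := by
    intro x y
    simp only [hc]
    rw [Sym2.eq_swap]
  have hmain := main3 H c hcs A d D k δ (6 * E * d + 4) μ K hdeg f hf1 hint hn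
    (by omega) (by
      -- h1
      have e1 : aa D d + 1 ≤ (2 * D + 4) * (d + 2) := by unfold aa; nlinarith
      have e2 : (aa D d + 1) * δ ≤ (2 * D + 4) * (d + 2) * (δ + 1) := by
        calc (aa D d + 1) * δ ≤ ((2 * D + 4) * (d + 2)) * δ := Nat.mul_le_mul_right _ e1
          _ ≤ (2 * D + 4) * (d + 2) * (δ + 1) := Nat.mul_le_mul_left _ (by omega)
      omega) (by
      -- h2
      have e1 : μ * (6 * E * d + 4) = K * d + 4 * μ := by rw [hK]; ring
      rw [e1]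
      have e2 : 3 * (6 * E * d + 4) + 1 = 18 * (E * d) + 13 := by ring
      rw [e2]
      omega) (by
      -- h3
      have e2 : 3 * k * (3 * (6 * E * d + 4) + 1) = 2 * (27 * k * E * d) + 39 * k := by ring
      rw [e2, ← hL]
      omega) (by
      -- h4
      rw [← hL]
      have e1 : 2 * L * (2 * D + 4) + D * (2 * L * (2 * D + 4) + 3) ≤
          4 * (L * (D + 3) ^ 2) + 3 * D := by nlinarith
      have e2 : L * (D + 3) ^ 2 ≤ μ * (D + 3) ^ 2 := Nat.mul_le_mul_right _ (by omega)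
      have e3 : ss D d ≤ μ := by
        have : ss D d = D + 1 + (2 * D + 4) * d := rfl
        omega
      have e4 : (4 * μ + 1) * E ≤ 5 * (μ * E) := by
        calc (4 * μ + 1) * E ≤ (5 * μ) * E := Nat.mul_le_mul_right _ (by omega)
          _ = _ := by ring
      have e5 : μ * (4 * (D + 3) ^ 2 + 13) ≤ μ * E := Nat.mul_le_mul_left _ hEE
      have e6 : μ * (4 * (D + 3) ^ 2 + 13) = 4 * (μ * (D + 3) ^ 2) + 13 * μ := by ring
      have e7 : K = 6 * (μ * E) := by rw [hK]; ring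
      omega) univ (by
      rw [Finset.card_univ, Fintype.card_fin])
  obtain ⟨i, F, hF1, hF2⟩ := hmain
  exact ⟨i, F, hF1, hF2⟩

end Pool.Agent.LibMP01c500
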