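import Pool.Agent.Lib_MP_01c500.TCaseII

/-!
# MP_01c500_co, three colours: collecting the high-degree vertices for two colours
-/

set_option autoImplicit false

namespace Pool.Agent.LibMP01c500

open Finset

variable {Ω : Type*} [DecidableEq Ω] {q : ℕ}

omit [DecidableEq Ω] in
theorem Sg.le {c : Ω → Ω → Fin q} {i : Fin q} {a L : ℕ} {V : Finset Ω}
    (h : Sg c i a V) (hL : L ≤ a) : Sg c i L V := by
  obtain ⟨X, h1, h2, h3⟩ := h
  obtain ⟨X', hX', hX'c⟩ := Finset.exists_subset_card_eq (s := X) (n := L) (by omega)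
  exact ⟨X', hX'c, fun x hx x' hx' => h2 x (hX' hx) x' (hX' hx'),
    fun y hy x hx => h3 y hy x (hX' hx)⟩

theorem chase (c : Ω → Ω → Fin q) (hc : ∀ x y, c x y = c y x) (J : Finset (Fin q))
    (V : Finset Ω) (w m : ℕ)
    (hstep : ∀ V' ⊆ V, V.card ≤ 2 ^ w * V'.card →
      ∃ x ∈ V', ∃ j ∈ J, V'.card ≤ 2 ^ m * (Nb c j V' x).card) :
    ∀ n, m * n ≤ w → ∃ V' ⊆ V, ∃ a : Fin q → ℕ, (∀ j, Sg c j (a j) V') ∧
      n ≤ ∑ j ∈ J, a j ∧ V.card ≤ 2 ^ (m * n) * V'.card := by
  classical
  intro n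
  induction n with
  | zero =>
    intro _
    exact ⟨V, Subset.refl _, fun _ => 0, fun j => Sg.zero c j V, Nat.zero_le _, by simp⟩
  | succ n ih =>
    intro hn
    have hn' : m * n ≤ w := le_trans (Nat.mul_le_mul_left _ (Nat.le_succ n)) hn
    obtain ⟨V', hV', a, ha1, ha2, ha3⟩ := ih hn'
    obtain ⟨x, hx, j, hj, hxj⟩ := hstep V' hV' (ha3.trans (Nat.mul_le_mul_right _
      (Nat.pow_le_pow_right (by norm_num) hn')))
    have hNb : Nb c j V' x ⊆ V' := Finset.filter_subset _ _
    refine ⟨Nb c j V' x, hNb.trans hV', Function.update a j (a j + 1), ?_, ?_, ?_⟩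
    · intro j'
      by_cases h : j' = j
      · subst h
        rw [Function.update_self]
        exact (ha1 j').single hc hx
      · rw [Function.update_of_ne h]
        exact (ha1 j').mono hNb
    · rw [← Finset.add_sum_erase _ _ hj, Function.update_self]
      rw [← Finset.add_sum_erase _ _ hj] at ha2
      have : ∑ x ∈ J.erase j, Function.update a j (a j + 1) x = ∑ x ∈ J.erase j, a x := by
        refine Finset.sum_congr rfl fun x hx => ?_
        rw [Function.update_of_ne (Finset.ne_of_mem_erase hx)]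
      rw [this]
      omega
    · calc V.card ≤ 2 ^ (m * n) * V'.card := ha3
        _ ≤ 2 ^ (m * n) * (2 ^ m * (Nb c j V' x).card) := Nat.mul_le_mul_left _ hxj
        _ = 2 ^ (m * (n + 1)) * (Nb c j V' x).card := by
            rw [Nat.mul_succ, pow_add]; ring

theorem exists_large {J : Finset (Fin q)} (a : Fin q → ℕ) (L : ℕ) (hJ : J.Nonempty)
    (h : J.card * L ≤ ∑ j ∈ J, a j) : ∃ j ∈ J, L ≤ a j := by
  by_contra hcon
  push Not at hcon
  have h1 := Finset.sum_lt_sum_of_nonempty hJ hcon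
  rw [Finset.sum_const, smul_eq_mul] at h1
  omega

theorem pre {W : Type*} [Fintype W] (H : SimpleGraph W)
    (c : Ω → Ω → Fin 3) (hc : ∀ x y, c x y = c y x) (D L N₂ : ℕ) (hN₂ : 4 ≤ N₂)
    (hn : Fintype.card W ≤ 2 ^ D) (V : Finset Ω)
    (hV : 2 ^ (9 * L + 1 + 2 * L * (2 * D + 4) + D * (2 * L * (2 * D + 4) + 3)) * N₂ ≤ V.card) :
    (∃ i : Fin 3, ∃ F : W → Ω, Function.Injective F ∧ ∀ u w, H.Adj u w → c (F u) (F w) = i) ∨
    ∃ V₂ ⊆ V, N₂ ≤ V₂.card ∧ ∃ i j : Fin 3, i ≠ j ∧ Sg c i L V₂ ∧ Sg c j L V₂ := by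
  classical
  set M := 2 * L * (2 * D + 4) with hM
  -- stage 1
  have hVbig : 2 ^ (9 * L + 1) * 2 ≤ V.card := by
    refine le_trans ?_ hV
    apply Nat.mul_le_mul _ (by omega)
    exact Nat.pow_le_pow_right (by norm_num) (by omega)
  obtain ⟨V₁, hV₁, a, ha1, ha2, ha3⟩ := chase c hc univ V (9 * L) 3 (by
    intro V' _ hV'c
    have h2 : 2 ≤ V'.card := by
      by_contra hcon
      push Not at hcon
      have h3 : 2 ^ (9 * L) * V'.card ≤ 2 ^ (9 * L) * 1 := Nat.mul_le_mul_left _ (by omega)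
      have h4 : 2 ^ (9 * L + 1) = 2 ^ (9 * L) * 2 := pow_succ _ _
      have h5 : 0 < 2 ^ (9 * L) := by positivity
      omega
    obtain ⟨i, hi⟩ := dense_colour c (by norm_num) V' h2
    have hex : ∃ x ∈ V', V'.card ≤ 2 * 3 * (Nb c i V' x).card := by
      by_contra hcon
      push Not at hcon
      have hne : V'.Nonempty := by rw [← Finset.card_pos]; omega
      have := Finset.sum_lt_sum_of_nonempty hne hcon
      rw [← Finset.mul_sum, Finset.sum_const, smul_eq_mul] at this
      exact absurd this (not_lt.2 hi)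
    obtain ⟨x, hx, hxc⟩ := hex
    exact ⟨x, hx, i, Finset.mem_univ _, by omega⟩) (3 * L) (by omega)
  obtain ⟨i, -, hi⟩ := exists_large (J := univ) a L Finset.univ_nonempty (by
    rw [Finset.card_univ, Fintype.card_fin]; exact ha2)
  have hSi : Sg c i L V₁ := (ha1 i).le hi
  have hV₁c : 2 ^ (1 + M + D * (M + 3)) * N₂ ≤ V₁.card := by
    have h1 : 2 ^ (9 * L) * (2 ^ (1 + M + D * (M + 3)) * N₂) ≤ 2 ^ (9 * L) * V₁.card := by
      calc _ = 2 ^ (9 * L + 1 + M + D * (M + 3)) * N₂ := by
            rw [show 9 * L + 1 + M + D * (M + 3) = 9 * L + (1 + M + D * (M + 3)) by ring,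
              pow_add 2 (9 * L)]
            ring
        _ ≤ V.card := hV
        _ ≤ 2 ^ (3 * (3 * L)) * V₁.card := ha3
        _ = _ := by rw [show 3 * (3 * L) = 9 * L by ring]
    exact Nat.le_of_mul_le_mul_left h1 (by positivity)
  -- stage 2
  set u₂ := 2 ^ M * N₂ with hu₂
  have hM1 : 1 ≤ 2 ^ M := Nat.one_le_two_pow
  have hu₂4 : 2 ^ (M + 2) ≤ u₂ := by
    rw [hu₂, pow_add]
    exact Nat.mul_le_mul_left _ (by norm_num; exact hN₂)
  by_cases hbad : Bad (NG c i) V₁ u₂ (M + 2) (2 * D + 2)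
  · left
    refine ⟨i, clique_of_bad H c hc i V₁ D u₂ (M + 2) (2 * D + 2) hn le_rfl hbad ?_⟩
    have h1 : 1 ≤ u₂ := le_trans Nat.one_le_two_pow hu₂4
    calc (1 + u₂) * 2 ^ (D * (M + 2 + 1)) ≤ (u₂ + u₂) * 2 ^ (D * (M + 2 + 1)) :=
          Nat.mul_le_mul_right _ (by omega)
      _ = 2 ^ (1 + M + D * (M + 3)) * N₂ := by
          rw [hu₂, pow_add, pow_add]; ring
      _ ≤ _ := hV₁c
  · right
    unfold Bad at hbad
    push Not at hbad
    obtain ⟨A, hA, hAc, hA2⟩ := hbad
    obtain ⟨V₂, hV₂, b, hb1, hb2, hb3⟩ := chase c hc (univ.erase i) A M (2 * D + 4) (by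
      intro V' hV' hV'c
      have h4 : 4 ≤ V'.card := by
        have h5 : 2 ^ M * 4 ≤ 2 ^ M * V'.card := by
          calc 2 ^ M * 4 = 2 ^ (M + 2) := by rw [pow_add]; norm_num
            _ ≤ u₂ := hu₂4
            _ ≤ A.card := hAc
            _ ≤ _ := hV'c
        exact Nat.le_of_mul_le_mul_left h5 (by positivity)
      obtain ⟨X, hX, hXc⟩ := Finset.exists_subset_card_eq (s := V') (n := V'.card / 2)
        (Nat.div_le_self _ _)
      have hYc : (V' \ X).card = V'.card - V'.card / 2 := by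
        rw [Finset.card_sdiff_of_subset hX, hXc]
      have hlt := hA2 X (hX.trans hV') (V' \ X) (Finset.sdiff_subset.trans hV')
        Finset.disjoint_sdiff (by
          calc A.card ≤ 2 ^ M * V'.card := hV'c
            _ ≤ 2 ^ M * (4 * X.card) := Nat.mul_le_mul_left _ (by omega)
            _ = _ := by rw [pow_add]; ring) (by
          calc A.card ≤ 2 ^ M * V'.card := hV'c
            _ ≤ 2 ^ M * (4 * (V' \ X).card) := Nat.mul_le_mul_left _ (by omega)
            _ = _ := by rw [pow_add]; ring)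
      have hex : ∃ x ∈ X, (V' \ X).card <
          2 ^ (2 * D + 2) * ((V' \ X).filter (fun y => NG c i x y)).card := by
        by_contra hcon
        push Not at hcon
        have h5 := Finset.sum_le_sum hcon
        rw [← Finset.mul_sum, Finset.sum_const, smul_eq_mul] at h5
        exact absurd hlt (not_lt.2 h5)
      obtain ⟨x, hx, hxc⟩ := hex
      -- one of the other two colours has half of it
      have hsub : ((V' \ X).filter (fun y => NG c i x y)).card ≤
          ∑ j ∈ univ.erase i, (Nb c j V' x).card := by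
        refine le_trans (Finset.card_le_card ?_) Finset.card_biUnion_le
        intro y hy
        rw [mem_filter, Finset.mem_sdiff] at hy
        rw [Finset.mem_biUnion]
        refine ⟨c x y, Finset.mem_erase.2 ⟨hy.2, Finset.mem_univ _⟩, ?_⟩
        unfold Nb
        rw [mem_filter]
        exact ⟨hy.1.1, fun h => hy.1.2 (h ▸ hx), rfl⟩
      have hcard : (univ.erase i : Finset (Fin 3)).card = 2 := by
        rw [Finset.card_erase_of_mem (Finset.mem_univ _), Finset.card_univ, Fintype.card_fin]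
      have hex2 : ∃ j ∈ univ.erase i, ((V' \ X).filter (fun y => NG c i x y)).card ≤
          2 * (Nb c j V' x).card := by
        by_contra hcon
        push Not at hcon
        have hne : (univ.erase i : Finset (Fin 3)).Nonempty := by
          rw [← Finset.card_pos, hcard]; norm_num
        have h5 := Finset.sum_lt_sum_of_nonempty hne hcon
        rw [← Finset.mul_sum, Finset.sum_const, smul_eq_mul, hcard] at h5
        omega
      obtain ⟨j, hj, hjc⟩ := hex2
      refine ⟨x, hX hx, j, hj, ?_⟩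
      calc V'.card ≤ 2 * (V' \ X).card := by omega
        _ ≤ 2 * (2 ^ (2 * D + 2) * ((V' \ X).filter (fun y => NG c i x y)).card) :=
            Nat.mul_le_mul_left _ hxc.le
        _ ≤ 2 * (2 ^ (2 * D + 2) * (2 * (Nb c j V' x).card)) :=
            Nat.mul_le_mul_left _ (Nat.mul_le_mul_left _ hjc)
        _ = 2 ^ (2 * D + 4) * (Nb c j V' x).card := by
            rw [show 2 * D + 4 = 2 * D + 2 + 2 by ring, pow_add 2 (2 * D + 2) 2]; ring)
      (2 * L) (by rw [hM]; exact le_of_eq (by ring))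
    have hne : (univ.erase i : Finset (Fin 3)).Nonempty := by
      rw [← Finset.card_pos, Finset.card_erase_of_mem (Finset.mem_univ _), Finset.card_univ,
        Fintype.card_fin]
      norm_num
    obtain ⟨j, hj, hjL⟩ := exists_large b L hne (by
      rw [Finset.card_erase_of_mem (Finset.mem_univ _), Finset.card_univ, Fintype.card_fin]
      exact hb2)
    refine ⟨V₂, hV₂.trans (hA.trans hV₁), ?_, i, j, (Finset.ne_of_mem_erase hj).symm,
      hSi.mono (hV₂.trans hA), (hb1 j).le hjL⟩
    have h1 : 2 ^ M * N₂ ≤ 2 ^ M * V₂.card := by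
      calc 2 ^ M * N₂ ≤ A.card := hAc
        _ ≤ 2 ^ ((2 * D + 4) * (2 * L)) * V₂.card := hb3
        _ = _ := by rw [hM, show (2 * D + 4) * (2 * L) = 2 * L * (2 * D + 4) by ring]
    exact Nat.le_of_mul_le_mul_left h1 (by positivity)

end Pool.Agent.LibMP01c500
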